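import Pool.Agent.H15.RU.Par

/-!
# Row An: elementary bounds

Notation `ℓ = log n`, `λ = n p`, `L = -log (1 - p)`. Proofs.
`reg_pos`: `ℓ > 0`, so `n p > 0`. `L_bounds`: `log (1 - p) ≤ -p`, and
`-log (1 - p) = log (1 / (1 - p)) ≤ 1 / (1 - p) - 1 = p / (1 - p) ≤ p / δ ≤ 1 / δ`.
`one_sub_low`: `exp` of the last bound. `pow_le_exp`: `1 - p ≤ exp (-p)`.
`log_large`: `Real.tendsto_log_atTop`, `tendsto_natCast_atTop_atTop`. `lam_large`: `ℓ ^ (1 + δ) = ℓ * ℓ ^ δ`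
and `ℓ ^ δ → ∞`.
`an_sq` (`K ≥ 0` without loss): `2 K log ℓ ≤ (log λ)²` as `log λ ≥ (1 + δ) log ℓ ≥ log ℓ ≥ 2 K`.
`2 K p ℓ ≤ (log λ)²`: if `λ² ≥ n` then `log λ ≥ ℓ / 2`, `(log λ)² ≥ ℓ² / 4 ≥ 2 K ℓ ≥ 2 K p ℓ` once
`ℓ ≥ 8 K`; if `λ² < n` then `p = λ / n < 1 / λ`, so `p ℓ ≤ ℓ / λ ≤ 1` (`λ ≥ ℓ ^ (1 + δ) ≥ ℓ`), and
`(log λ)² ≥ 2 K` once `log ℓ ≥ 2 K + 1`.
`an_root` (`K ≥ 0`): `2 K log ℓ / p = 2 K log ℓ * n / λ ≤ n λ ^ (-1/2)` because
`2 K log ℓ ≤ ℓ ^ (1/2) ≤ λ ^ (1/2)` for large `n`; and `2 K ℓ ≤ n ^ (1/2) ≤ n λ ^ (-1/2)`, as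
`λ ≤ n` (`p ≤ 1`).
-/

set_option autoImplicit false

open Filter Topology

namespace Pool.Agent.H15.RU

theorem reg_pos {δ p : ℝ} {n : ℕ} (hδ : 0 < δ) (hn : 3 ≤ n) (h : Reg δ n p) :
    0 < p ∧ p < 1 ∧ δ < 1 := by
  have hn' : (1 : ℝ) < n := by
    have : (3 : ℝ) ≤ n := by exact_mod_cast hn
    linarith
  have h1 : 0 < Real.log n := Real.log_pos hn'
  have h2 : 0 < Real.log n ^ (1 + δ) := Real.rpow_pos_of_pos h1 _
  have h3 : 0 < (n : ℝ) * p := h2.trans_le h.1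
  have h4 : 0 < p := by
    by_contra hp
    have : (n : ℝ) * p ≤ 0 := mul_nonpos_of_nonneg_of_nonpos (by linarith) (not_lt.1 hp)
    linarith
  have h5 := h.2
  exact ⟨h4, by linarith, by linarith⟩

theorem L_bounds {δ p : ℝ} (hδ : 0 < δ) (h0 : 0 < p) (h1 : p ≤ 1 - δ) :
    p ≤ -Real.log (1 - p) ∧ -Real.log (1 - p) ≤ p / δ ∧ -Real.log (1 - p) ≤ 1 / δ := by
  have h2 : 0 < 1 - p := by linarith
  have h3 : p ≤ -Real.log (1 - p) := by
    have := Real.log_le_sub_one_of_pos h2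
    linarith
  have h4 : -Real.log (1 - p) ≤ p / δ := by
    rw [← Real.log_inv]
    have h5 := Real.log_le_sub_one_of_pos (inv_pos.2 h2)
    have h6 : (1 - p)⁻¹ - 1 = p / (1 - p) := by
      field_simp
      ring
    rw [h6] at h5
    refine h5.trans ?_
    exact div_le_div_of_nonneg_left h0.le hδ (by linarith)
  refine ⟨h3, h4, h4.trans ?_⟩
  exact div_le_div_of_nonneg_right (by linarith) hδ.le

theorem one_sub_low {δ p : ℝ} (hδ : 0 < δ) (h0 : 0 < p) (h1 : p ≤ 1 - δ) :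
    Real.exp (-(1 / δ)) ≤ 1 - p := by
  have h2 : 0 < 1 - p := by linarith
  have h3 := (L_bounds hδ h0 h1).2.2
  calc Real.exp (-(1 / δ)) ≤ Real.exp (Real.log (1 - p)) := Real.exp_le_exp.2 (by linarith)
    _ = 1 - p := Real.exp_log h2

theorem pow_le_exp {p : ℝ} (h1 : p ≤ 1) (k : ℕ) : (1 - p) ^ k ≤ Real.exp (-(p * k)) := by
  have h2 : (1 - p) ^ k ≤ Real.exp (-p) ^ k :=
    pow_le_pow_left₀ (by linarith) (Real.one_sub_le_exp_neg p) k
  refine h2.trans (le_of_eq ?_)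
  rw [← Real.exp_nat_mul]
  congr 1
  ring

private theorem An_tend : Tendsto (fun n : ℕ => Real.log n) atTop atTop :=
  Real.tendsto_log_atTop.comp tendsto_natCast_atTop_atTop

theorem log_large (K : ℝ) : ∃ N : ℕ, ∀ n ≥ N, K ≤ Real.log n :=
  eventually_atTop.1 (An_tend.eventually_ge_atTop K)

theorem loglog_large (K : ℝ) : ∃ N : ℕ, ∀ n ≥ N, K ≤ Real.log (Real.log n) :=
  eventually_atTop.1 ((Real.tendsto_log_atTop.comp An_tend).eventually_ge_atTop K)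

theorem lam_large {δ : ℝ} (hδ : 0 < δ) (K : ℝ) :
    ∃ N : ℕ, ∀ n ≥ N, ∀ p : ℝ, Reg δ n p → K * Real.log n ≤ n * p := by
  have h1 : ∀ᶠ n : ℕ in atTop, K ≤ Real.log n ^ δ :=
    ((tendsto_rpow_atTop hδ).comp An_tend).eventually_ge_atTop K
  have h2 : ∀ᶠ n : ℕ in atTop, 1 ≤ Real.log n := An_tend.eventually_ge_atTop 1
  obtain ⟨N, hN⟩ := eventually_atTop.1 (h1.and h2)
  refine ⟨N, fun n hn p hp => ?_⟩
  obtain ⟨h3, h4⟩ := hN n hn
  have h5 : 0 < Real.log n := by linarith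
  have h6 : Real.log n ^ (1 + δ) = Real.log n * Real.log n ^ δ := by
    rw [Real.rpow_add h5, Real.rpow_one]
  have h7 := hp.1
  rw [h6] at h7
  calc K * Real.log n ≤ Real.log n ^ δ * Real.log n := mul_le_mul_of_nonneg_right h3 h5.le
    _ = Real.log n * Real.log n ^ δ := mul_comm _ _
    _ ≤ _ := h7

/-- the expected degree is at least the logarithm -/
private theorem An_lam {δ : ℝ} (hδ : 0 < δ) {n : ℕ} {p : ℝ} (h1 : 1 ≤ Real.log n)
    (hp : Reg δ n p) : Real.log n ≤ n * p := by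
  refine le_trans ?_ hp.1
  calc Real.log n = Real.log n ^ (1 : ℝ) := (Real.rpow_one _).symm
    _ ≤ Real.log n ^ (1 + δ) := Real.rpow_le_rpow_of_exponent_le h1 (by linarith)

theorem an_sq {δ : ℝ} (hδ : 0 < δ) (K : ℝ) :
    ∃ N : ℕ, ∀ n ≥ N, ∀ p : ℝ, Reg δ n p →
      K * (p * Real.log n + Real.log (Real.log n)) ≤ Real.log (n * p) ^ 2 := by
  have e1 : ∀ᶠ n : ℕ in atTop, 8 * |K| + 1 ≤ Real.log n := An_tend.eventually_ge_atTop _
  have e2 : ∀ᶠ n : ℕ in atTop, 2 * |K| + 1 ≤ Real.log (Real.log n) :=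
    (Real.tendsto_log_atTop.comp An_tend).eventually_ge_atTop _
  obtain ⟨N, hN⟩ := eventually_atTop.1 ((e1.and e2).and (eventually_ge_atTop 3))
  refine ⟨N, fun n hn p hp => ?_⟩
  obtain ⟨⟨h1, h2⟩, h3⟩ := hN n hn
  obtain ⟨p0, p1, d1⟩ := reg_pos hδ h3 hp
  have hK : 0 ≤ |K| := abs_nonneg K
  have hn0 : (0 : ℝ) < n := by
    have : (3 : ℝ) ≤ n := by exact_mod_cast h3
    linarith
  set l := Real.log n with hl
  have l1 : 1 ≤ l := by linarith
  have hlam := An_lam hδ (by rw [← hl]; exact l1) hp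
  rw [← hl] at hlam
  set lam := (n : ℝ) * p with hlamd
  have lam0 : 0 < lam := mul_pos hn0 p0
  have hlog : Real.log l ≤ Real.log lam := Real.log_le_log (by linarith) hlam
  have hll : 0 ≤ Real.log l := by linarith
  have hsq : Real.log l * Real.log l ≤ Real.log lam ^ 2 := by
    rw [sq]
    exact mul_le_mul hlog hlog hll (by linarith)
  have ha : 2 * |K| * Real.log l ≤ Real.log lam ^ 2 := by
    refine le_trans (mul_le_mul_of_nonneg_right ?_ hll) hsq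
    linarith
  have hb : 2 * |K| * (p * l) ≤ Real.log lam ^ 2 := by
    rcases le_total (n : ℝ) (lam ^ 2) with h | h
    · have h4 : l ≤ 2 * Real.log lam := by
        have := Real.log_le_log hn0 h
        rw [Real.log_pow] at this
        exact_mod_cast this
      have h5 : (l / 2) * (l / 2) ≤ Real.log lam ^ 2 := by
        rw [sq]
        exact mul_le_mul (by linarith) (by linarith) (by linarith) (by linarith)
      have h6 : 2 * |K| * (p * l) ≤ 2 * |K| * (1 * l) :=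
        mul_le_mul_of_nonneg_left (mul_le_mul_of_nonneg_right p1.le (by linarith)) (by linarith)
      have h7 : 2 * |K| * l ≤ (l / 4) * l :=
        mul_le_mul_of_nonneg_right (by linarith) (by linarith)
      nlinarith
    · have h4 : p * l ≤ 1 := by
        have h5 : n * (p * l) ≤ n * 1 := by
          calc n * (p * l) = lam * l := by rw [hlamd]; ring
            _ ≤ lam * lam := mul_le_mul_of_nonneg_left hlam lam0.le
            _ = lam ^ 2 := (sq lam).symm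
            _ ≤ n := h
            _ = n * 1 := (mul_one _).symm
        exact le_of_mul_le_mul_left h5 hn0
      have h6 : 2 * |K| * (p * l) ≤ 2 * |K| * 1 := mul_le_mul_of_nonneg_left h4 (by linarith)
      nlinarith
  have hc : K * (p * l + Real.log l) ≤ |K| * (p * l + Real.log l) :=
    mul_le_mul_of_nonneg_right (le_abs_self K) (by positivity)
  nlinarith

theorem an_root {δ : ℝ} (hδ : 0 < δ) (K : ℝ) :
    ∃ N : ℕ, ∀ n ≥ N, ∀ p : ℝ, Reg δ n p →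
      K * (Real.log n + Real.log (Real.log n) / p) ≤ n * (n * p) ^ (-(1 / 2) : ℝ) := by
  have hK : 0 ≤ |K| := abs_nonneg K
  have hlit : ∀ᶠ x : ℝ in atTop, 2 * |K| * Real.log x ≤ x ^ (1 / 2 : ℝ) := by
    have h := (isLittleO_log_rpow_atTop (r := 1 / 2) (by norm_num)).bound
      (c := 1 / (2 * |K| + 1)) (by positivity)
    filter_upwards [h, eventually_ge_atTop (1 : ℝ)] with x hx hx1
    have h1 : 0 ≤ Real.log x := Real.log_nonneg hx1
    have h2 : 0 ≤ x ^ (1 / 2 : ℝ) := Real.rpow_nonneg (by linarith) _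
    rw [Real.norm_of_nonneg h1, Real.norm_of_nonneg h2, div_mul_eq_mul_div, one_mul,
      le_div_iff₀ (by positivity)] at hx
    nlinarith
  have e1 : ∀ᶠ n : ℕ in atTop, 2 * |K| * Real.log n ≤ (n : ℝ) ^ (1 / 2 : ℝ) :=
    tendsto_natCast_atTop_atTop.eventually hlit
  have e2 : ∀ᶠ n : ℕ in atTop,
      2 * |K| * Real.log (Real.log n) ≤ Real.log n ^ (1 / 2 : ℝ) := An_tend.eventually hlit
  have e3 : ∀ᶠ n : ℕ in atTop, 1 ≤ Real.log n := An_tend.eventually_ge_atTop _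
  obtain ⟨N, hN⟩ := eventually_atTop.1 (((e1.and e2).and e3).and (eventually_ge_atTop 3))
  refine ⟨N, fun n hn p hp => ?_⟩
  obtain ⟨⟨⟨h1, h2⟩, l1⟩, h3⟩ := hN n hn
  obtain ⟨p0, p1, d1⟩ := reg_pos hδ h3 hp
  have hn0 : (0 : ℝ) < n := by
    have : (3 : ℝ) ≤ n := by exact_mod_cast h3
    linarith
  set l := Real.log n with hl
  have hlam := An_lam hδ (by rw [← hl]; exact l1) hp
  rw [← hl] at hlam
  set lam := (n : ℝ) * p with hlamd
  have lam0 : 0 < lam := mul_pos hn0 p0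
  have hll : 0 ≤ Real.log l := Real.log_nonneg l1
  have hr0 : 0 < lam ^ (1 / 2 : ℝ) := Real.rpow_pos_of_pos lam0 _
  have hrr : lam ^ (1 / 2 : ℝ) * lam ^ (1 / 2 : ℝ) = lam := by
    rw [← Real.rpow_add lam0]
    norm_num
  have hneg : lam ^ (-(1 / 2) : ℝ) = (lam ^ (1 / 2 : ℝ))⁻¹ := Real.rpow_neg lam0.le _
  have ha : 2 * |K| * l ≤ n * lam ^ (-(1 / 2) : ℝ) := by
    refine h1.trans ?_
    rw [hneg, ← div_eq_mul_inv, le_div_iff₀ hr0]
    have h4 : lam ^ (1 / 2 : ℝ) ≤ (n : ℝ) ^ (1 / 2 : ℝ) := by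
      refine Real.rpow_le_rpow lam0.le ?_ (by norm_num)
      rw [hlamd]
      nlinarith
    have h5 : (n : ℝ) ^ (1 / 2 : ℝ) * (n : ℝ) ^ (1 / 2 : ℝ) = n := by
      rw [← Real.rpow_add hn0]
      norm_num
    calc (n : ℝ) ^ (1 / 2 : ℝ) * lam ^ (1 / 2 : ℝ)
        ≤ (n : ℝ) ^ (1 / 2 : ℝ) * (n : ℝ) ^ (1 / 2 : ℝ) :=
          mul_le_mul_of_nonneg_left h4 (Real.rpow_nonneg hn0.le _)
      _ = n := h5
  have hb : 2 * |K| * (Real.log l / p) ≤ n * lam ^ (-(1 / 2) : ℝ) := by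
    rw [hneg, ← div_eq_mul_inv, le_div_iff₀ hr0]
    have h4 : 2 * |K| * Real.log l ≤ lam ^ (1 / 2 : ℝ) :=
      h2.trans (Real.rpow_le_rpow (by linarith) hlam (by norm_num))
    have h5 : 2 * |K| * (Real.log l / p) * lam ^ (1 / 2 : ℝ) =
        (2 * |K| * Real.log l) * lam ^ (1 / 2 : ℝ) / p := by
      field_simp
    rw [h5, div_le_iff₀ p0]
    calc (2 * |K| * Real.log l) * lam ^ (1 / 2 : ℝ)
        ≤ lam ^ (1 / 2 : ℝ) * lam ^ (1 / 2 : ℝ) := mul_le_mul_of_nonneg_right h4 hr0.le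
      _ = n * p := hrr
  have hc : K * (l + Real.log l / p) ≤ |K| * (l + Real.log l / p) :=
    mul_le_mul_of_nonneg_right (le_abs_self K) (by positivity)
  nlinarith

end Pool.Agent.H15.RU
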