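import Mathlib

/-!
# Row Bn: binomial coefficients (Mathlib only)

Proofs. `choose_low`: induction on `d = n' - 2 b` for `2 b ≤ n' ≤ n` of
`4 ^ b * (1 + β) ^ (n' - 2 b) ≤ (2 b + 1) * n'.choose b`. `d = 0`: `4 ^ b ≤ (2 b + 1) (2 b).choose b`
(`Nat.four_pow_le_two_mul_self_mul_centralBinom` for `b ≥ 1`, or the fact that the central coefficient
is the largest of `2 b + 1` coefficients with sum `4 ^ b`). Step:
`(n' + 1).choose b * (n' + 1 - b) = n'.choose b * (n' + 1)` (`Nat.succ_mul_choose_eq` and symmetry,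
`Nat.choose_mul_succ_eq`), and `(n' + 1) / (n' + 1 - b) ≥ 1 + β`, because `β (n' + 1 - b) ≤ β n ≤ b`
(`n' + 1 ≤ n`).
`sum_choose_le`: `(k / m) ^ k * ∑ i ∈ range (k + 1), C(m, i) ≤ ∑ i ∈ range (m + 1), C(m, i) (k / m) ^ i
= (1 + k / m) ^ m ≤ exp k` (`add_pow`, `Real.add_one_le_exp`; `(k / m) ^ k ≤ (k / m) ^ i` for
`i ≤ k`, as `k / m ≤ 1`); so the sum is at most `exp k * (m / k) ^ k`.
`sum_choose_ratio`: for `i < k`: `15 * C(m, i) ≤ C(m, i + 1)` (`C(m, i + 1) (i + 1) = C(m, i) (m - i)`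
and `m - i ≥ 15 (i + 1)`), so by induction on `k'`: `14 * ∑ i ∈ range k', C(m, i) < C(m, k')` for
`k' ≤ k` (`14 (S + C(m, k')) < C(m, k') + 14 C(m, k') ≤ C(m, k' + 1)`; for `k' = 0`: `0 < 1`).
`small_sets`: `∑ X, (1 / 3) ^ X.card = (4 / 3) ^ n`, and `(1 / 3) ^ (n / 4) ≤ (1 / 3) ^ X.card` if
`X.card ≤ n / 4`.
-/

set_option autoImplicit false

open Finset

namespace Pool.Agent.H15.RU

theorem choose_low {n b : ℕ} {β : ℝ} (hb : 2 * b ≤ n) (hβ0 : 0 ≤ β) (hβ : β * n ≤ b) :
    (4 : ℝ) ^ b * (1 + β) ^ (n - 2 * b) ≤ (2 * b + 1) * n.choose b := by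
  have key : ∀ d : ℕ, 2 * b + d ≤ n →
      (4 : ℝ) ^ b * (1 + β) ^ d ≤ (2 * b + 1) * (2 * b + d).choose b := by
    intro d
    induction d with
    | zero =>
      intro _
      rw [pow_zero, mul_one, add_zero]
      rcases Nat.eq_zero_or_pos b with h0 | h0
      · subst h0; simp
      · have h1 := Nat.four_pow_le_two_mul_self_mul_centralBinom b h0
        rw [Nat.centralBinom_eq_two_mul_choose] at h1
        have h2 : (4 : ℝ) ^ b ≤ 2 * b * (2 * b).choose b := by exact_mod_cast h1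
        have h3 : (0 : ℝ) ≤ (2 * b).choose b := Nat.cast_nonneg _
        linarith
    | succ d ih =>
      intro hd
      have h1 := ih (by omega)
      have h2 := Nat.choose_mul_succ_eq (2 * b + d) b
      have h3 : ((2 * b + d).choose b : ℝ) * (2 * b + d + 1) =
          ((2 * b + d + 1).choose b : ℝ) * (2 * b + d + 1 - b) := by
        have h4 : (((2 * b + d + 1 - b : ℕ)) : ℝ) = 2 * b + d + 1 - b := by
          rw [Nat.cast_sub (by omega)]; push_cast; ring
        rw [← h4]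
        exact_mod_cast h2
      have h5 : (0 : ℝ) ≤ (2 * b + d).choose b := Nat.cast_nonneg _
      have hbn : (0 : ℝ) ≤ b := Nat.cast_nonneg _
      have hdn : (0 : ℝ) ≤ d := Nat.cast_nonneg _
      have hn : (2 * b + d + 1 : ℝ) ≤ n := by exact_mod_cast hd
      have h6 : β * (2 * b + d + 1 - b) ≤ b := by nlinarith
      have h7 : (0 : ℝ) < 2 * b + d + 1 - b := by linarith
      have h8 : (1 + β) * ((2 * b + d).choose b : ℝ) ≤ (2 * b + d + 1).choose b := by
        refine le_of_mul_le_mul_right ?_ h7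
        rw [← h3]
        nlinarith
      have h9 : (2 * b + (d + 1)) = 2 * b + d + 1 := rfl
      rw [h9, pow_succ, ← mul_assoc]
      have h10 : (4 : ℝ) ^ b * (1 + β) ^ d * (1 + β) ≤
          (2 * b + 1) * (2 * b + d).choose b * (1 + β) :=
        mul_le_mul_of_nonneg_right h1 (by linarith)
      have h11 : (2 * b + 1 : ℝ) * ((1 + β) * (2 * b + d).choose b) ≤
          (2 * b + 1) * (2 * b + d + 1).choose b :=
        mul_le_mul_of_nonneg_left h8 (by linarith)
      linarith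
  have := key (n - 2 * b) (by omega)
  rwa [show 2 * b + (n - 2 * b) = n by omega] at this

theorem sum_choose_le {m k : ℕ} (hk : 1 ≤ k) (hkm : k ≤ m) :
    ∑ i ∈ range (k + 1), (m.choose i : ℝ) ≤ (Real.exp 1 * m / k) ^ k := by
  have hk' : (0 : ℝ) < k := by exact_mod_cast hk
  have hm' : (0 : ℝ) < m := by exact_mod_cast (lt_of_lt_of_le hk hkm)
  have hx0 : (0 : ℝ) < k / m := div_pos hk' hm'
  have hx1 : (k / m : ℝ) ≤ 1 := by
    rw [div_le_one hm']; exact_mod_cast hkm
  refine le_of_mul_le_mul_left ?_ (pow_pos hx0 k)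
  have e1 : (k / m : ℝ) ^ k * (Real.exp 1 * m / k) ^ k = Real.exp k := by
    rw [← mul_pow]
    have : (k / m : ℝ) * (Real.exp 1 * m / k) = Real.exp 1 := by field_simp
    rw [this, ← Real.exp_nat_mul, mul_one]
  rw [e1, Finset.mul_sum]
  calc ∑ i ∈ range (k + 1), (k / m : ℝ) ^ k * (m.choose i : ℝ)
      ≤ ∑ i ∈ range (k + 1), (k / m : ℝ) ^ i * 1 ^ (m - i) * (m.choose i : ℝ) := by
        refine Finset.sum_le_sum fun i hi => ?_
        rw [one_pow, mul_one]
        refine mul_le_mul_of_nonneg_right ?_ (Nat.cast_nonneg _)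
        exact pow_le_pow_of_le_one hx0.le hx1 (by have := Finset.mem_range.1 hi; omega)
    _ ≤ ∑ i ∈ range (m + 1), (k / m : ℝ) ^ i * 1 ^ (m - i) * (m.choose i : ℝ) := by
        refine Finset.sum_le_sum_of_subset_of_nonneg (Finset.range_subset_range.2 (by omega)) ?_
        intro i _ _
        positivity
    _ = (k / m + 1 : ℝ) ^ m := by rw [add_pow]
    _ ≤ Real.exp (k / m) ^ m :=
        pow_le_pow_left₀ (by positivity) (Real.add_one_le_exp _) _
    _ = Real.exp k := by
        rw [← Real.exp_nat_mul]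
        congr 1
        field_simp

theorem sum_choose_ratio {m k : ℕ} (h : 16 * k ≤ m) :
    14 * ∑ i ∈ range k, m.choose i < m.choose k := by
  induction k with
  | zero => simp
  | succ k ih =>
    have h1 := ih (by omega)
    have h2 := Nat.choose_succ_right_eq m k
    have h3 : 15 * (k + 1) ≤ m - k := by omega
    have h4 : m.choose k * (15 * (k + 1)) ≤ m.choose (k + 1) * (k + 1) := by
      rw [h2]; exact Nat.mul_le_mul_left _ h3
    have h5 : 15 * m.choose k ≤ m.choose (k + 1) := by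
      refine Nat.le_of_mul_le_mul_right (c := k + 1) ?_ (Nat.succ_pos k)
      calc 15 * m.choose k * (k + 1) = m.choose k * (15 * (k + 1)) := by ring
        _ ≤ _ := h4
    rw [Finset.sum_range_succ]
    omega

theorem small_sets (n : ℕ) :
    (((univ : Finset (Finset (Fin n))).filter fun X => X.card ≤ n / 4).card : ℝ) ≤
      (4 / 3) ^ n * 3 ^ (n / 4) := by
  have h1 := Fintype.sum_pow_mul_eq_add_pow (R := ℝ) (Fin n) (1 / 3) 1
  simp only [one_pow, mul_one, Fintype.card_fin] at h1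
  have h2 : (((univ : Finset (Finset (Fin n))).filter fun X => X.card ≤ n / 4).card : ℝ) *
      (1 / 3) ^ (n / 4) ≤ ∑ X : Finset (Fin n), (1 / 3 : ℝ) ^ X.card := by
    rw [← nsmul_eq_mul, ← Finset.sum_const]
    calc ∑ _X ∈ (univ : Finset (Finset (Fin n))).filter (fun X => X.card ≤ n / 4), (1 / 3 : ℝ) ^ (n / 4)
        ≤ ∑ X ∈ (univ : Finset (Finset (Fin n))).filter (fun X => X.card ≤ n / 4), (1 / 3 : ℝ) ^ X.card := by
          refine Finset.sum_le_sum fun X hX => ?_
          exact pow_le_pow_of_le_one (by norm_num) (by norm_num) (Finset.mem_filter.1 hX).2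
      _ ≤ _ := Finset.sum_le_sum_of_subset_of_nonneg (Finset.filter_subset _ _)
          (fun X _ _ => by positivity)
  rw [h1] at h2
  have h3 : (1 / 3 : ℝ) ^ (n / 4) * 3 ^ (n / 4) = 1 := by
    rw [← mul_pow]; norm_num
  have h4 : (0 : ℝ) < 3 ^ (n / 4) := by positivity
  calc (((univ : Finset (Finset (Fin n))).filter fun X => X.card ≤ n / 4).card : ℝ)
      = (((univ : Finset (Finset (Fin n))).filter fun X => X.card ≤ n / 4).card : ℝ) *
        (1 / 3) ^ (n / 4) * 3 ^ (n / 4) := by rw [mul_assoc, h3, mul_one]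
    _ ≤ (1 / 3 + 1) ^ n * 3 ^ (n / 4) := mul_le_mul_of_nonneg_right h2 h4.le
    _ = (4 / 3) ^ n * 3 ^ (n / 4) := by norm_num

end Pool.Agent.H15.RU
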