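import Mathlib

/-! Random union-closed families: definitions. -/

set_option autoImplicit false

open Finset

namespace Pool.Agent.H15.RU

/-- `m` subsets of an `n`-element set -/
abbrev Mat (m n : ℕ) := Fin m → Finset (Fin n)

/-- The probability of the subset `E` if every point is chosen independently with probability `p`. -/
noncomputable def wr {n : ℕ} (p : ℝ) (E : Finset (Fin n)) : ℝ :=
  p ^ E.card * (1 - p) ^ (n - E.card)

/-- The probability of `M` if its `m` sets are independent random subsets. -/
noncomputable def wt {m n : ℕ} (p : ℝ) (M : Mat m n) : ℝ := ∏ i, wr p (M i)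

open Classical in
/-- The probability that `M` has the property `P`. -/
noncomputable def Pr {m n : ℕ} (p : ℝ) (P : Mat m n → Prop) : ℝ :=
  ∑ M : Mat m n, if P M then wt p M else 0

/-- The expectation of `f`. -/
noncomputable def Ex {m n : ℕ} (p : ℝ) (f : Mat m n → ℝ) : ℝ := ∑ M : Mat m n, wt p M * f M

/-- The union of the sets `M i`, `i ∈ S`. -/
def un {m n : ℕ} (M : Mat m n) (S : Finset (Fin m)) : Finset (Fin n) := S.biUnion M

/-- The union-closed family generated by the sets of `M` (the unions of all subcollections, the empty
union included). -/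
def fam {m n : ℕ} (M : Mat m n) : Finset (Finset (Fin n)) := univ.image (un M)

/-- The number of members of `A` that contain `x`. -/
def freq {n : ℕ} (A : Finset (Finset (Fin n))) (x : Fin n) : ℕ := (A.filter fun X => x ∈ X).card

/-- `A` consists of the unions of all subcollections of a collection `D` of pairwise disjoint sets;
that is, `A` becomes a power set when the points that lie in the same members are identified. -/
def PowerLike {n : ℕ} (A : Finset (Finset (Fin n))) : Prop :=
  ∃ D : Finset (Finset (Fin n)), (D : Set (Finset (Fin n))).PairwiseDisjoint id ∧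
    A = D.powerset.image fun S => S.sup id

/-- Some point lies in strictly more than half of the members, or `A` is a power set after
identification of the points that lie in the same members. -/
def Good {n : ℕ} (A : Finset (Finset (Fin n))) : Prop :=
  (∃ x, A.card < 2 * freq A x) ∨ PowerLike A

/-- The transposed matrix. -/
def tr {m n : ℕ} (M : Mat m n) : Mat n m := fun x => univ.filter fun i => x ∈ M i

/-- `X` and a set `S` of `k` rows inside `X`. -/
def insd {m n : ℕ} (M : Mat m n) (k s : ℕ) : Finset (Finset (Fin n) × Finset (Fin m)) :=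
  univ.filter fun XS => XS.1.card ≤ s ∧ XS.2.card = k ∧ ∀ i ∈ XS.2, M i ⊆ XS.1

/-- `W` is a member, `y ∉ W`, `W` has at least `s` elements, no row containing `y` is inside
`W ∪ {y}`, and there is at most one `x ∉ W ∪ {y}` such that a row containing `y` is inside
`W ∪ {y, x}`. -/
def BadP {m n : ℕ} (M : Mat m n) (s : ℕ) (y : Fin n) (W : Finset (Fin n)) : Prop :=
  W ∈ fam M ∧ y ∉ W ∧ s ≤ W.card ∧ (∀ i, ¬ (y ∈ M i ∧ M i ⊆ insert y W)) ∧
    ((univ : Finset (Fin n)).filter fun x => x ∉ insert y W ∧
      ∃ i, y ∈ M i ∧ M i ⊆ insert x (insert y W)).card ≤ 1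

instance {m n : ℕ} (M : Mat m n) (s : ℕ) (y : Fin n) (W : Finset (Fin n)) :
    Decidable (BadP M s y W) := by unfold BadP; infer_instance

/-- The pairs `(y, W)` with `BadP`. -/
def badS {m n : ℕ} (M : Mat m n) (s : ℕ) : Finset (Fin n × Finset (Fin n)) :=
  univ.filter fun yW => BadP M s yW.1 yW.2

end Pool.Agent.H15.RU
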