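import Pool.Agent.H15.RU.An

/-!
# Row Za: numbers for a moderate number of rows

Notation `ℓ = log n`, `λ = n p`, `L = -log (1 - p)`, so `p ≤ L ≤ p / δ`, `L ≤ 1 / δ`
(`L_bounds`), `(1 - p) ^ k = exp (-L k)`, `c = cA δ`. Proof. Take `k = ⌈16 log 2 / L⌉₊`, so
`16 log 2 ≤ k L ≤ 16 log 2 + L ≤ 16 log 2 + 1 / δ`.
(1) `16 k ≤ m`: from `λ (1 - p) ^ m < 3 ℓ` and `λ ≥ ℓ ^ (1 + δ)`: `exp (-m L) < 3 ℓ ^ (-δ)`, so
`m L > δ log ℓ - log 3 ≥ 16 (16 log 2 + 1 / δ) ≥ 16 k L` for large `n` (loglog_large).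
(2) `(1 - p) ^ k = exp (-k L) ≥ 2 ^ (-16) exp (-1 / δ) = 4 c`, so `2 m (1 - p (1 - p) ^ k) ^ n ≤
2 exp (c λ) exp (-n p (1 - p) ^ k) ≤ 2 exp (c λ - 4 c λ) = 2 exp (-3 c λ) ≤ ε / 2` for large `n`
(`λ ≥ K ℓ`, lam_large with `K = 1 / c`).
(3) `m.choose k ≤ m ^ k ≤ exp (c λ k)`, `c λ ≤ λ / 8 ≤ n L / 8` (`c ≤ 1 / 8`), and
`n - 3 * n / 4 ≥ n / 4` (real number on the right), so `(1 - p) ^ (k (n - 3 n / 4)) ≤
exp (-L k n / 4)`; the product is at most `2 ^ n exp (-k L n / 8) ≤ 2 ^ n exp (-2 n log 2) = 2 ^ (-n)`.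
-/

set_option autoImplicit false

namespace Pool.Agent.H15.RU

theorem Za_pow {p : ℝ} (h0 : p < 1) (k : ℕ) : (1 - p) ^ k = Real.exp (-(k * (-Real.log (1 - p)))) := by
  have h : (0 : ℝ) < 1 - p := by linarith
  rw [show -((k : ℝ) * (-Real.log (1 - p))) = (k : ℝ) * Real.log (1 - p) by ring, Real.exp_nat_mul, Real.exp_log h]

theorem Za_c {δ : ℝ} : 0 < cA δ := by
  unfold cA; positivity

theorem Za_c4 {δ : ℝ} : Real.exp (-(16 * Real.log 2 + 1 / δ)) = 4 * cA δ := by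
  have h : Real.exp (16 * Real.log 2) = 2 ^ 16 := by
    rw [show (16 : ℝ) * Real.log 2 = ((16 : ℕ) : ℝ) * Real.log 2 by norm_num, Real.exp_nat_mul,
      Real.exp_log (by norm_num)]
  unfold cA
  rw [show -(16 * Real.log 2 + 1 / δ) = -(1 / δ) - 16 * Real.log 2 by ring, Real.exp_sub, h]
  ring

theorem Za_c8 {δ : ℝ} (hδ : 0 < δ) : cA δ ≤ 1 / 8 := by
  unfold cA
  have h : Real.exp (-(1 / δ)) ≤ 1 := Real.exp_le_one_iff.2 (by
    have : 0 < 1 / δ := by positivity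
    linarith)
  rw [div_le_div_iff₀ (by norm_num) (by norm_num)]
  nlinarith

theorem zoneA_num {δ ε : ℝ} (hδ : 0 < δ) (hε : 0 < ε) :
    ∃ N : ℕ, ∀ n ≥ N, ∀ (m : ℕ) (p : ℝ), Reg δ n p →
      n * p * (1 - p) ^ m < 3 * Real.log n → (m : ℝ) ≤ Real.exp (cA δ * (n * p)) →
      ∃ k : ℕ, 16 * k ≤ m ∧ 2 * (m : ℝ) * (1 - p * (1 - p) ^ k) ^ n ≤ ε / 2 ∧
        (2 : ℝ) ^ n * m.choose k * (1 - p) ^ (k * (n - 3 * n / 4)) ≤ ε / 2 := by
  have hc := Za_c (δ := δ)
  obtain ⟨N1, hN1⟩ := loglog_large ((Real.log 3 + 16 * (16 * Real.log 2 + 1 / δ)) / δ)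
  obtain ⟨N2, hN2⟩ := lam_large hδ (1 / cA δ)
  obtain ⟨N3, hN3⟩ := log_large (Real.log (4 / ε))
  obtain ⟨N4, hN4⟩ := exists_pow_lt_of_lt_one (show (0 : ℝ) < ε / 2 by linarith) (show (1 / 2 : ℝ) < 1 by norm_num)
  obtain ⟨N5, hN5⟩ := log_large 1
  refine ⟨3 + N1 + N2 + N3 + N4 + N5, fun n hn m p hreg hm1 hm2 => ?_⟩
  obtain ⟨hp0, hp1, hδ1⟩ := reg_pos hδ (show 3 ≤ n by omega) hreg
  obtain ⟨hL1, hL2, hL3⟩ := L_bounds hδ hp0 hreg.2
  have hlam := hN2 n (by omega) p hreg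
  have hll := hN1 n (by omega)
  have hl3 := hN3 n (by omega)
  have hl1 := hN5 n (by omega)
  set L := -Real.log (1 - p) with hL
  have hLpos : 0 < L := lt_of_lt_of_le hp0 hL1
  have hlog2 : 0 < Real.log 2 := Real.log_pos (by norm_num)
  set k := ⌈16 * Real.log 2 / L⌉₊ with hk
  have hk1 : 16 * Real.log 2 ≤ k * L := by
    have := Nat.le_ceil (16 * Real.log 2 / L)
    rwa [div_le_iff₀ hLpos] at this
  have hk2 : k * L ≤ 16 * Real.log 2 + 1 / δ := by
    have h := (Nat.ceil_lt_add_one (show 0 ≤ 16 * Real.log 2 / L by positivity)).le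
    have h2 : (k : ℝ) * L ≤ (16 * Real.log 2 / L + 1) * L := mul_le_mul_of_nonneg_right h hLpos.le
    have h3 : (16 * Real.log 2 / L + 1) * L = 16 * Real.log 2 + L := by field_simp
    linarith
  have hlpos : 0 < Real.log n := by linarith
  have hn0 : (0 : ℝ) < n := by
    have : 0 < n := by omega
    exact_mod_cast this
  have hlam0 : 0 < (n : ℝ) * p := by positivity
  refine ⟨k, ?_, ?_, ?_⟩
  · -- 16 k ≤ m
    have h1 : Real.log n ^ (1 + δ) * (1 - p) ^ m < 3 * Real.log n := by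
      refine lt_of_le_of_lt ?_ hm1
      exact mul_le_mul_of_nonneg_right hreg.1 (pow_nonneg (by linarith) _)
    rw [Real.rpow_add hlpos, Real.rpow_one, Za_pow hp1, mul_assoc] at h1
    have h2 : Real.log n ^ δ * Real.exp (-(m * L)) < 3 := by
      have h1' : Real.log n * (Real.log n ^ δ * Real.exp (-(m * L))) < Real.log n * 3 := by
        rw [mul_comm (Real.log n) 3]; exact h1
      exact lt_of_mul_lt_mul_left h1' hlpos.le
    rw [Real.rpow_def_of_pos hlpos, ← Real.exp_add] at h2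
    have h3 : Real.log (Real.log n) * δ + -(m * L) < Real.log 3 := by
      rwa [Real.lt_log_iff_exp_lt (by norm_num)]
    have h4 : Real.log 3 + 16 * (16 * Real.log 2 + 1 / δ) ≤ Real.log (Real.log n) * δ := by
      rwa [div_le_iff₀ hδ] at hll
    have h5 : 16 * (k * L) < m * L := by linarith
    have h6 : (16 * k : ℝ) < m := by
      refine lt_of_mul_lt_mul_right (a := L) ?_ hLpos.le
      linarith
    have h7 : 16 * k < m := by exact_mod_cast h6
    omega
  · have h1 : 4 * cA δ ≤ (1 - p) ^ k := by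
      rw [Za_pow hp1, ← Za_c4]
      exact Real.exp_le_exp.2 (by linarith)
    have hq1 : (1 - p) ^ k ≤ 1 := pow_le_one₀ (by linarith) (by linarith)
    have hq0 : 0 ≤ (1 - p) ^ k := pow_nonneg (by linarith) _
    have h2 : 1 - p * (1 - p) ^ k ≤ Real.exp (-(p * (1 - p) ^ k)) := by
      have := Real.add_one_le_exp (-(p * (1 - p) ^ k))
      linarith
    have h2' : 0 ≤ 1 - p * (1 - p) ^ k := by nlinarith
    have h3 : (1 - p * (1 - p) ^ k) ^ n ≤ Real.exp (-(4 * cA δ * (n * p))) := by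
      refine (pow_le_pow_left₀ h2' h2 n).trans ?_
      rw [← Real.exp_nat_mul]
      refine Real.exp_le_exp.2 ?_
      have : (n : ℝ) * p * (4 * cA δ) ≤ n * p * (1 - p) ^ k := mul_le_mul_of_nonneg_left h1 hlam0.le
      nlinarith
    have h4 : 2 * (m : ℝ) * (1 - p * (1 - p) ^ k) ^ n ≤
        2 * Real.exp (cA δ * (n * p)) * Real.exp (-(4 * cA δ * (n * p))) := by
      refine mul_le_mul (by linarith) h3 (pow_nonneg h2' _) (by positivity)
    refine h4.trans ?_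
    rw [mul_assoc, ← Real.exp_add]
    have h5 : Real.log (4 / ε) ≤ 3 * (cA δ * (n * p)) := by
      have h6 : Real.log n ≤ cA δ * (n * p) := by
        have h7 := mul_le_mul_of_nonneg_left hlam hc.le
        rw [← mul_assoc, mul_one_div_cancel hc.ne', one_mul] at h7
        exact h7
      have : 0 < cA δ * (n * p) := by positivity
      linarith
    have h6 : Real.exp (cA δ * (n * p) + -(4 * cA δ * (n * p))) ≤ ε / 4 := by
      have : ε / 4 = Real.exp (-Real.log (4 / ε)) := by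
        rw [Real.exp_neg, Real.exp_log (by positivity)]
        field_simp
      rw [this]
      exact Real.exp_le_exp.2 (by linarith)
    linarith
  · have h1 : (m.choose k : ℝ) ≤ Real.exp (k * (n * L) / 8) := by
      have h2 : (m.choose k : ℝ) ≤ (m : ℝ) ^ k := by exact_mod_cast Nat.choose_le_pow m k
      refine h2.trans ((pow_le_pow_left₀ (Nat.cast_nonneg _) hm2 k).trans ?_)
      rw [← Real.exp_nat_mul]
      refine Real.exp_le_exp.2 ?_
      have h3 : cA δ * (n * p) ≤ 1 / 8 * (n * L) := by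
        refine mul_le_mul (Za_c8 hδ) (mul_le_mul_of_nonneg_left hL1 hn0.le) hlam0.le (by norm_num)
      have h4 : (k : ℝ) * (cA δ * (n * p)) ≤ k * (1 / 8 * (n * L)) := mul_le_mul_of_nonneg_left h3 (Nat.cast_nonneg _)
      linarith
    have h5 : (1 - p) ^ (k * (n - 3 * n / 4)) ≤ Real.exp (-(k * (n * L) / 4)) := by
      rw [Za_pow hp1]
      refine Real.exp_le_exp.2 ?_
      have h6 : (n : ℝ) / 4 ≤ ((n - 3 * n / 4 : ℕ) : ℝ) := by
        have h7 : n ≤ 4 * (n - 3 * n / 4) := by omega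
        have h8 : (n : ℝ) ≤ 4 * ((n - 3 * n / 4 : ℕ) : ℝ) := by exact_mod_cast h7
        linarith
      rw [Nat.cast_mul]
      have h9 : (k : ℝ) * L * (n / 4) ≤ k * L * ((n - 3 * n / 4 : ℕ) : ℝ) :=
        mul_le_mul_of_nonneg_left h6 (by positivity)
      nlinarith
    have h6 : (2 : ℝ) ^ n = Real.exp (n * Real.log 2) := by
      rw [Real.exp_nat_mul, Real.exp_log (by norm_num)]
    have h7 : (2 : ℝ) ^ n * m.choose k * (1 - p) ^ (k * (n - 3 * n / 4)) ≤
        Real.exp (n * Real.log 2) * Real.exp (k * (n * L) / 8) * Real.exp (-(k * (n * L) / 4)) := by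
      rw [h6]
      refine mul_le_mul (mul_le_mul_of_nonneg_left h1 (Real.exp_pos _).le) h5 (pow_nonneg (by linarith) _) (by positivity)
    refine h7.trans ?_
    rw [← Real.exp_add, ← Real.exp_add]
    have h8 : n * Real.log 2 + k * (n * L) / 8 + -(k * (n * L) / 4) ≤ n * (-Real.log 2) := by
      have : (n : ℝ) * (16 * Real.log 2) ≤ n * (k * L) := mul_le_mul_of_nonneg_left hk1 hn0.le
      nlinarith
    refine (Real.exp_le_exp.2 h8).trans ?_
    rw [Real.exp_nat_mul, Real.exp_neg, Real.exp_log (by norm_num)]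
    have h9 : ((2 : ℝ)⁻¹) ^ n ≤ (1 / 2) ^ N4 := by
      rw [inv_eq_one_div]
      exact pow_le_pow_of_le_one (by norm_num) (by norm_num) (by omega)
    linarith

end Pool.Agent.H15.RU
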