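import Pool.Agent.H15.RU.Defs

/-!
# Row Fm: the family generated by the rows

Proofs. `mem_fam`: if `X = un M S` then `x ∈ X` lies in some `M i`, `i ∈ S`, and `M i ⊆ X`;
conversely take `S = {i | M i ⊆ X}`. `eq_un`: the same `S`. `union_mem`: `mem_fam`.
`mem_fam_insert`: `mem_fam` for `W` and the row given.
-/

set_option autoImplicit false

open Finset

namespace Pool.Agent.H15.RU

variable {m n : ℕ}

theorem Fm_un {M : Mat m n} {X : Finset (Fin n)} (h : ∀ x ∈ X, ∃ i, x ∈ M i ∧ M i ⊆ X) :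
    un M (univ.filter fun i => M i ⊆ X) = X := by
  unfold un
  ext x
  rw [Finset.mem_biUnion]
  constructor
  · rintro ⟨i, hi, hx⟩
    exact (Finset.mem_filter.1 hi).2 hx
  · intro hx
    obtain ⟨i, hi1, hi2⟩ := h x hx
    exact ⟨i, Finset.mem_filter.2 ⟨Finset.mem_univ _, hi2⟩, hi1⟩

theorem mem_fam {M : Mat m n} {X : Finset (Fin n)} :
    X ∈ fam M ↔ ∀ x ∈ X, ∃ i, x ∈ M i ∧ M i ⊆ X := by
  constructor
  · intro h x hx
    obtain ⟨S, _, rfl⟩ := Finset.mem_image.1 h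
    obtain ⟨i, hi, hxi⟩ := Finset.mem_biUnion.1 hx
    exact ⟨i, hxi, Finset.subset_biUnion_of_mem M hi⟩
  · intro h
    exact Finset.mem_image.2 ⟨_, Finset.mem_univ _, Fm_un h⟩

theorem un_mem (M : Mat m n) (S : Finset (Fin m)) : un M S ∈ fam M :=
  Finset.mem_image_of_mem _ (Finset.mem_univ _)

theorem row_mem (M : Mat m n) (i : Fin m) : M i ∈ fam M :=
  mem_fam.2 fun _ hx => ⟨i, hx, Finset.Subset.refl _⟩

theorem empty_mem (M : Mat m n) : (∅ : Finset (Fin n)) ∈ fam M :=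
  mem_fam.2 fun x hx => absurd hx (Finset.notMem_empty x)

theorem union_mem {M : Mat m n} {X Y : Finset (Fin n)} (hX : X ∈ fam M) (hY : Y ∈ fam M) :
    X ∪ Y ∈ fam M := by
  rw [mem_fam] at hX hY ⊢
  intro x hx
  rcases Finset.mem_union.1 hx with h | h
  · obtain ⟨i, h1, h2⟩ := hX x h
    exact ⟨i, h1, h2.trans Finset.subset_union_left⟩
  · obtain ⟨i, h1, h2⟩ := hY x h
    exact ⟨i, h1, h2.trans Finset.subset_union_right⟩

theorem eq_un {M : Mat m n} {X : Finset (Fin n)} (hX : X ∈ fam M) :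
    un M (univ.filter fun i => M i ⊆ X) = X := Fm_un (mem_fam.1 hX)

theorem fam_pos (M : Mat m n) : 0 < (fam M).card := Finset.card_pos.2 ⟨∅, empty_mem M⟩

/-- the complement of `X` in the family: a point of `X` that is not covered -/
theorem exists_unc {M : Mat m n} {X : Finset (Fin n)} (hX : X ∉ fam M) :
    ∃ x ∈ X, ∀ i, ¬ (x ∈ M i ∧ M i ⊆ X) := by
  rw [mem_fam] at hX
  push Not at hX
  obtain ⟨x, hx, h⟩ := hX
  exact ⟨x, hx, fun i hi => h i hi.1 hi.2⟩

end Pool.Agent.H15.RU
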