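import Pool.Agent.H15.RU.Defs

/-!
# Row Sz: criteria by the sizes of the members

Proofs. `good_of_sum`: `∑ X ∈ A, X.card = ∑ x, freq A x` (double counting, e.g.
`Finset.sum_card_bipartiteAbove_eq_sum_card_bipartiteBelow` or `Finset.sum_comm` for indicators).
If `2 freq A x ≤ A.card` for all `x` then `∑ X ∈ A, 2 X.card ≤ n A.card`.
`good_of_34`: let `s` be the number of `X ∈ A` with `4 X.card ≤ 3 n`. For these
`2 X.card - n ≥ -n`, for the others `4 X.card ≥ 3 n + 1`, so `2 (2 X.card - n) ≥ n + 1`. As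
`A.card ≥ 3 s + 1`: `2 ∑ ≥ -2 n s + (A.card - s) (n + 1) ≥ -2 n s + (2 s + 1) (n + 1) > 0`.
`good_of_12`: the terms are `≥ -n` and `≥ 1`: `∑ ≥ -n s + (A.card - s) > 0`.
-/

set_option autoImplicit false

open Finset

namespace Pool.Agent.H15.RU

variable {n : ℕ}

theorem Sz_sum {A : Finset (Finset (Fin n))} :
    ∑ X ∈ A, X.card = ∑ x : Fin n, freq A x := by
  simp only [freq, Finset.card_eq_sum_ones, Finset.sum_filter]
  rw [Finset.sum_comm]
  refine Finset.sum_congr rfl fun X _ => ?_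
  rw [← Finset.sum_filter]
  simp

theorem good_of_sum {A : Finset (Finset (Fin n))} (h : 0 < ∑ X ∈ A, (2 * (X.card : ℤ) - n)) :
    ∃ x, A.card < 2 * freq A x := by
  by_contra hc
  push Not at hc
  have h1 : ∑ X ∈ A, (2 * (X.card : ℤ) - n) = 2 * ((∑ X ∈ A, X.card : ℕ) : ℤ) - A.card * n := by
    rw [Finset.sum_sub_distrib, ← Finset.mul_sum]
    push_cast
    simp
  have h2 : ∑ x : Fin n, 2 * freq A x ≤ ∑ _x : Fin n, A.card := Finset.sum_le_sum fun x _ => hc x
  rw [← Finset.mul_sum, ← Sz_sum, Finset.sum_const, Finset.card_univ, Fintype.card_fin,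
    smul_eq_mul] at h2
  rw [h1] at h
  have h3 : (2 * ((∑ X ∈ A, X.card : ℕ) : ℤ)) ≤ n * A.card := by exact_mod_cast h2
  nlinarith

theorem Sz_split {A : Finset (Finset (Fin n))} (P : Finset (Fin n) → Prop) [DecidablePred P]
    (a b : ℤ) (f : Finset (Fin n) → ℤ) (h1 : ∀ X, P X → a ≤ f X) (h2 : ∀ X, ¬ P X → b ≤ f X) :
    a * (A.filter P).card + b * ((A.card : ℤ) - (A.filter P).card) ≤ ∑ X ∈ A, f X := by
  have h3 : ((A.filter P).card : ℤ) + ((A.filter fun X => ¬ P X).card : ℤ) = A.card := by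
    exact_mod_cast Finset.card_filter_add_card_filter_not (s := A) P
  have h4 : ∑ X ∈ A.filter P, a ≤ ∑ X ∈ A.filter P, f X :=
    Finset.sum_le_sum fun X hX => h1 X (Finset.mem_filter.mp hX).2
  have h5 : ∑ X ∈ A.filter (fun X => ¬ P X), b ≤ ∑ X ∈ A.filter (fun X => ¬ P X), f X :=
    Finset.sum_le_sum fun X hX => h2 X (Finset.mem_filter.mp hX).2
  rw [Finset.sum_const, nsmul_eq_mul] at h4 h5
  rw [← Finset.sum_filter_add_sum_filter_not A P]
  have h6 : ((A.filter fun X => ¬ P X).card : ℤ) = (A.card : ℤ) - (A.filter P).card := by linarith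
  rw [h6] at h5
  linarith

theorem good_of_34 {A : Finset (Finset (Fin n))}
    (h : 3 * (A.filter fun X => X.card ≤ 3 * n / 4).card < A.card) :
    ∃ x, A.card < 2 * freq A x := by
  apply good_of_sum
  have h1 := Sz_split (A := A) (fun X => X.card ≤ 3 * n / 4) (-(2 * n : ℤ)) (n + 1)
    (fun X => 2 * (2 * (X.card : ℤ) - n)) (fun X _ => by
      have : (0 : ℤ) ≤ (X.card : ℤ) := Int.natCast_nonneg _
      linarith) (fun X hX => by
      have h2 : 3 * n + 1 ≤ 4 * X.card := by omega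
      have h3 : (3 * (n : ℤ) + 1) ≤ 4 * (X.card : ℤ) := by exact_mod_cast h2
      linarith)
  rw [← Finset.mul_sum] at h1
  have h2 : 3 * ((A.filter fun X => X.card ≤ 3 * n / 4).card : ℤ) + 1 ≤ A.card := by
    exact_mod_cast h
  have h3 : (0 : ℤ) ≤ ((A.filter fun X => X.card ≤ 3 * n / 4).card : ℤ) := Int.natCast_nonneg _
  have h4 : (0 : ℤ) ≤ (n : ℤ) := Int.natCast_nonneg _
  nlinarith

theorem good_of_12 {A : Finset (Finset (Fin n))}
    (h : (n + 1) * (A.filter fun X => X.card ≤ n / 2).card < A.card) :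
    ∃ x, A.card < 2 * freq A x := by
  apply good_of_sum
  have h1 := Sz_split (A := A) (fun X => X.card ≤ n / 2) (-(n : ℤ)) 1
    (fun X => 2 * (X.card : ℤ) - n) (fun X _ => by
      have : (0 : ℤ) ≤ (X.card : ℤ) := Int.natCast_nonneg _
      linarith) (fun X hX => by
      have h2 : n + 1 ≤ 2 * X.card := by omega
      have h3 : ((n : ℤ) + 1) ≤ 2 * (X.card : ℤ) := by exact_mod_cast h2
      linarith)
  have h2 : ((n : ℤ) + 1) * ((A.filter fun X => X.card ≤ n / 2).card : ℤ) + 1 ≤ A.card := by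
    exact_mod_cast h
  nlinarith

end Pool.Agent.H15.RU
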