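import Pool.Agent.H15.RU.Is
import Pool.Agent.H15.RU.Sz
import Pool.Agent.H15.RU.Fm

/-!
# Row Lc: the local criterion

Proof. `F := (fam M).filter (s ≤ card)`, `a = (up F).card`, `b = (dn F).card`, `B = (badS M s).card`,
`t` the number of members with fewer than `s` elements, `F.card + t = (fam M).card`.
(1) If `(X, x) ∈ up F` then `insert x X ∉ fam M` (it has at least `s` elements), and there is no row
`i` with `x ∈ M i ⊆ insert x X` (otherwise `insert x X ∈ fam M` by `mem_fam`: the points of `X` are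
covered inside `X`). So either `(x, X) ∈ badS M s`, or the set `Q(X, x)` of the
`x' ∉ insert x X` with a row `i`, `x ∈ M i ⊆ insert x' (insert x X)`, has at least 2 elements; let
`G` be the set of these pairs, `a ≤ B + G.card`.
(2) For `(X, x) ∈ up F` and `x' ∈ Q(X, x)`: `x' ∈ M i` (otherwise `M i ⊆ insert x X`), so
`Z' = insert x' (insert x X) ∈ fam M`, `Z' ∈ F`, `Z'.erase x' = insert x X ∉ F`: `(Z', x') ∈ dn F`.
The map `((X, x), x') ↦ (Z', x')` is injective: `insert x X = Z'.erase x'`, and if
`insert x X = insert y Y` with `(X, x), (Y, y) ∈ up F`, `x ≠ y`, then `x ∈ Y`, so `x` is covered by a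
row inside `Y ⊆ insert x X`, contrary to (1); so `x = y` and `X = Y`. Hence `2 G.card ≤ b`, and
`b ≥ 2 a - 2 B`.
(3) `iso`: `F.card ≤ a + b` (`2 F.card ≤ 2 (fam M).card ≤ 2 ^ n`). From these two inequalities
`3 (b - a) ≥ F.card - 4 B` (linear: `b ≥ 2a - 2B`, `a + b ≥ F.card`; `3b - 3a = ...` linarith).
(4) `size_id`: `∑ X ∈ F, (2 card - n) = b - a`; the other members contribute at least `-n` each. So
`3 ∑ X ∈ fam M, (2 card - n) ≥ F.card - 4 B - 3 n t = (fam M).card - 4 B - (3 n + 1) t > 0`, and
`good_of_sum`.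
-/

set_option autoImplicit false

open Finset

namespace Pool.Agent.H15.RU

variable {m n : ℕ}

/-- the candidate second points -/
def Lc_Q (M : Mat m n) (P : Finset (Fin n) × Fin n) : Finset (Fin n) :=
  (univ : Finset (Fin n)).filter fun x => x ∉ insert P.2 P.1 ∧
    ∃ i, P.2 ∈ M i ∧ M i ⊆ insert x (insert P.2 P.1)

theorem Lc_norow {M : Mat m n} {s : ℕ} {X : Finset (Fin n)} {x : Fin n}
    (h : (X, x) ∈ up ((fam M).filter fun X => s ≤ X.card)) :
    ∀ i, ¬ (x ∈ M i ∧ M i ⊆ insert x X) := by
  intro i hi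
  obtain ⟨h1, h2, h3⟩ := (Finset.mem_filter.1 h).2
  simp only at h1 h2 h3
  obtain ⟨hXf, hXs⟩ := Finset.mem_filter.1 h1
  apply h3
  refine Finset.mem_filter.2 ⟨mem_fam.2 ?_, ?_⟩
  · intro y hy
    rcases Finset.mem_insert.1 hy with rfl | hy
    · exact ⟨i, hi⟩
    · obtain ⟨j, hj1, hj2⟩ := mem_fam.1 hXf y hy
      exact ⟨j, hj1, hj2.trans (Finset.subset_insert _ _)⟩
  · exact hXs.trans (Finset.card_le_card (Finset.subset_insert _ _))

theorem Lc_two {M : Mat m n} {s : ℕ} :
    2 * ((up ((fam M).filter fun X => s ≤ X.card)).filter fun P => ¬ BadP M s P.2 P.1).card ≤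
      (dn ((fam M).filter fun X => s ≤ X.card)).card := by
  set F := (fam M).filter fun X => s ≤ X.card with hF
  set G := (up F).filter fun P => ¬ BadP M s P.2 P.1 with hG
  have key : (G.sigma fun P => Lc_Q M P).card ≤ (dn F).card := by
    refine Finset.card_le_card_of_injOn
      (fun S : (Σ _ : Finset (Fin n) × Fin n, Fin n) => (insert S.2 (insert S.1.2 S.1.1), S.2)) ?_ ?_
    · rintro ⟨⟨X, x⟩, x'⟩ hS
      have hS' : ((⟨(X, x), x'⟩ : Σ _ : Finset (Fin n) × Fin n, Fin n)) ∈
          G.sigma (fun P => Lc_Q M P) := hS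
      obtain ⟨hP, hQ⟩ := Finset.mem_sigma.1 hS'
      simp only at hP hQ
      have hU : (X, x) ∈ up F := (Finset.mem_filter.1 hP).1
      obtain ⟨h1, h2, h3⟩ := (Finset.mem_filter.1 hU).2
      simp only at h1 h2 h3
      obtain ⟨hQ1, i, hi1, hi2⟩ := (Finset.mem_filter.1 hQ).2
      simp only at hQ1 hi1 hi2
      obtain ⟨hXf, hXs⟩ := Finset.mem_filter.1 h1
      have hx'i : x' ∈ M i := by
        by_contra hn
        apply Lc_norow hU i
        refine ⟨hi1, fun z hz => ?_⟩
        rcases Finset.mem_insert.1 (hi2 hz) with rfl | hz'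
        · exact absurd hz hn
        · exact hz'
      refine Finset.mem_coe.2 (Finset.mem_filter.2 ⟨Finset.mem_univ _, ?_, ?_, ?_⟩)
      · refine Finset.mem_filter.2 ⟨mem_fam.2 ?_, ?_⟩
        · intro z hz
          rcases Finset.mem_insert.1 hz with hz | hz
          · exact ⟨i, by simpa [hz] using hx'i, hi2⟩
          · rcases Finset.mem_insert.1 hz with hz | hz
            · exact ⟨i, by simpa [hz] using hi1, hi2⟩
            · obtain ⟨j, hj1, hj2⟩ := mem_fam.1 hXf z hz
              exact ⟨j, hj1, hj2.trans ((Finset.subset_insert _ _).trans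
                (Finset.subset_insert _ _))⟩
        · exact hXs.trans (Finset.card_le_card ((Finset.subset_insert _ _).trans
            (Finset.subset_insert _ _)))
      · exact Finset.mem_insert_self _ _
      · show (insert x' (insert x X)).erase x' ∉ F
        rw [Finset.erase_insert hQ1]
        exact h3
    · rintro ⟨⟨X, x⟩, x'⟩ hS ⟨⟨Y, y⟩, y'⟩ hT he
      have hS' : ((⟨(X, x), x'⟩ : Σ _ : Finset (Fin n) × Fin n, Fin n)) ∈
          G.sigma (fun P => Lc_Q M P) := hS
      have hT' : ((⟨(Y, y), y'⟩ : Σ _ : Finset (Fin n) × Fin n, Fin n)) ∈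
          G.sigma (fun P => Lc_Q M P) := hT
      obtain ⟨hP, hQ⟩ := Finset.mem_sigma.1 hS'
      obtain ⟨hP2, hQ2⟩ := Finset.mem_sigma.1 hT'
      simp only at hP hQ hP2 hQ2
      have hU : (X, x) ∈ up F := (Finset.mem_filter.1 hP).1
      have hU2 : (Y, y) ∈ up F := (Finset.mem_filter.1 hP2).1
      have hQ1 : x' ∉ insert x X := (Finset.mem_filter.1 hQ).2.1
      have hQ21 : y' ∉ insert y Y := (Finset.mem_filter.1 hQ2).2.1
      have he1 : insert x' (insert x X) = insert y' (insert y Y) := congrArg Prod.fst he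
      have he2 : x' = y' := congrArg Prod.snd he
      subst he2
      have he3 : insert x X = insert y Y := by
        rw [← Finset.erase_insert hQ1, he1, Finset.erase_insert hQ21]
      have hxy : x = y := by
        by_contra hne
        have hxY : x ∈ Y := by
          have : x ∈ insert y Y := he3 ▸ Finset.mem_insert_self x X
          exact (Finset.mem_insert.1 this).resolve_left hne
        have hYF : Y ∈ F := (Finset.mem_filter.1 hU2).2.1
        obtain ⟨j, hj1, hj2⟩ := mem_fam.1 (Finset.mem_filter.1 hYF).1 x hxY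
        apply Lc_norow hU j
        refine ⟨hj1, ?_⟩
        rw [he3]
        exact hj2.trans (Finset.subset_insert _ _)
      subst hxy
      have hxX : x ∉ X := (Finset.mem_filter.1 hU).2.2.1
      have hxY : x ∉ Y := (Finset.mem_filter.1 hU2).2.2.1
      have hXY : X = Y := by
        rw [← Finset.erase_insert hxX, he3, Finset.erase_insert hxY]
      subst hXY
      rfl
  refine le_trans ?_ key
  rw [Finset.card_sigma, mul_comm, ← smul_eq_mul, ← Finset.sum_const]
  refine Finset.sum_le_sum fun P hP => ?_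
  obtain ⟨hP1, hP2⟩ := Finset.mem_filter.1 hP
  by_contra hlt
  apply hP2
  obtain ⟨h1, h2, h3⟩ := (Finset.mem_filter.1 hP1).2
  obtain ⟨hXf, hXs⟩ := Finset.mem_filter.1 h1
  refine ⟨hXf, h2, hXs, Lc_norow (X := P.1) (x := P.2) hP1, ?_⟩
  have : (Lc_Q M P).card ≤ 1 := by omega
  exact this

theorem Lc_bad {M : Mat m n} {s : ℕ} :
    ((up ((fam M).filter fun X => s ≤ X.card)).filter fun P => BadP M s P.2 P.1).card ≤
      (badS M s).card := by
  refine Finset.card_le_card_of_injOn (fun P => (P.2, P.1)) ?_ ?_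
  · intro P hP
    exact Finset.mem_coe.2 (Finset.mem_filter.2 ⟨Finset.mem_univ _,
      (Finset.mem_filter.1 (Finset.mem_coe.1 hP)).2⟩)
  · rintro ⟨X, x⟩ _ ⟨Y, y⟩ _ h
    simp only [Prod.mk.injEq] at h ⊢
    exact ⟨h.2, h.1⟩

theorem good_of_local {M : Mat m n} {s : ℕ} (hA : 2 * (fam M).card ≤ 2 ^ n)
    (h : 8 * (badS M s).card + (4 * n + 1) * ((fam M).filter fun X => X.card < s).card <
      (fam M).card) :
    ∃ x, (fam M).card < 2 * freq (fam M) x := by
  apply good_of_sum
  set F := (fam M).filter fun X => s ≤ X.card with hF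
  set T := (fam M).filter fun X => X.card < s with hT
  have hsplit : F.card + T.card = (fam M).card := by
    rw [hF, hT, ← Finset.card_filter_add_card_filter_not (s := fam M) (fun X => s ≤ X.card)]
    congr 2
    ext X
    simp
  have hG := Lc_two (M := M) (s := s)
  have hB := Lc_bad (M := M) (s := s)
  have hup := Finset.card_filter_add_card_filter_not (s := up F) (fun P => BadP M s P.2 P.1)
  have hFle : F.card ≤ (fam M).card := Finset.card_filter_le _ _
  have hiso := iso F (by omega)
  have hsz := size_id F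
  have hsum : ∑ X ∈ fam M, (2 * (X.card : ℤ) - n) =
      ∑ X ∈ F, (2 * (X.card : ℤ) - n) + ∑ X ∈ T, (2 * (X.card : ℤ) - n) := by
    rw [hF, hT, ← Finset.sum_filter_add_sum_filter_not (s := fam M) (fun X => s ≤ X.card)]
    congr 2
    ext X
    simp
  have hTs : -((n : ℤ) * T.card) ≤ ∑ X ∈ T, (2 * (X.card : ℤ) - n) := by
    have : ∑ _X ∈ T, (-(n : ℤ)) ≤ ∑ X ∈ T, (2 * (X.card : ℤ) - n) := by
      refine Finset.sum_le_sum fun X _ => ?_
      have : (0 : ℤ) ≤ X.card := by positivity
      linarith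
    rw [Finset.sum_const, nsmul_eq_mul] at this
    linarith [mul_comm (n : ℤ) (T.card : ℤ)]
  rw [hsum, hsz]
  set a := (up F).card
  set b := (dn F).card
  have h1 : (2 * ((up F).filter fun P => ¬ BadP M s P.2 P.1).card : ℤ) ≤ b := by exact_mod_cast hG
  have h2 : (((up F).filter fun P => BadP M s P.2 P.1).card : ℤ) ≤ (badS M s).card := by
    exact_mod_cast hB
  have h3 : (((up F).filter fun P => BadP M s P.2 P.1).card : ℤ) +
      ((up F).filter fun P => ¬ BadP M s P.2 P.1).card = a := by exact_mod_cast hup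
  have h4 : (F.card : ℤ) ≤ a + b := by exact_mod_cast hiso
  have h5 : (F.card : ℤ) + T.card = (fam M).card := by exact_mod_cast hsplit
  have h6 : 8 * ((badS M s).card : ℤ) + (4 * n + 1) * (T.card : ℤ) < (fam M).card := by
    exact_mod_cast h
  have h7 : (0 : ℤ) ≤ n * T.card := by positivity
  have h8 : (0 : ℤ) ≤ (badS M s).card := by positivity
  nlinarith

end Pool.Agent.H15.RU
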