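import Pool.Agent.H15.RU.Tr
import Pool.Agent.H15.RU.Fm
import Pool.Agent.H25.Trace

/-!
# Row Tw: dense families, twins

Proofs. `good_of_dense`: let `U = (fam M).sup id`. If `fam M = U.powerset` then `PowerLike` with
`D = U.image singleton` (pairwise disjoint; the subfamilies of `D` are the `S.image singleton`,
`S ⊆ U`, with union `S`). Otherwise `Pool.Agent.H25.dense_trace` (see
Pool/Agent/H25/OffTwoFifths.lean for the statement) with `X = univ`: nonempty, union
closed (`union_mem`), separating by `htw`: the row `M i` contains exactly one of `x, y`, and is a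
member (`row_mem`); `S ∩ univ = S`; `univ.card = n`.
`Pr_twins`: `Pr_exists` over the pairs `(x, y)` with `x ≠ y` (at most `n ^ 2`); for one pair the
indicator is `∏ i, (if (x ∈ M i ↔ y ∈ M i) then 1 else 0)`, with expectation
`(p * p + (1 - p) * (1 - p)) ^ m = (1 - 2 * p * (1 - p)) ^ m` (`Ex_prod`; the sum over the rows
containing both is `p ^ 2` and over the rows containing none of them `(1 - p) ^ 2`, by
`sum_wr_prod`).
-/

set_option autoImplicit false

open Finset

namespace Pool.Agent.H15.RU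

variable {m n : ℕ} {p : ℝ}

theorem Tw_sup_single (X : Finset (Fin n)) :
    (X.image fun x => ({x} : Finset (Fin n))).sup id = X := by
  ext y
  rw [Finset.mem_sup]
  constructor
  · rintro ⟨v, hv, hy⟩
    obtain ⟨x, hx, rfl⟩ := Finset.mem_image.mp hv
    rw [id, Finset.mem_singleton] at hy
    rw [hy]
    exact hx
  · intro hy
    exact ⟨{y}, Finset.mem_image.mpr ⟨y, hy, rfl⟩, Finset.mem_singleton_self y⟩

theorem good_of_dense {M : Mat m n} (hA : 2 * 2 ^ n ≤ 5 * (fam M).card)
    (htw : ∀ x y : Fin n, x ≠ y → ∃ i, ¬ (x ∈ M i ↔ y ∈ M i)) : Good (fam M) := by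
  by_cases h : fam M = ((fam M).sup id).powerset
  · right
    refine ⟨((fam M).sup id).image (fun x => {x}), ?_, ?_⟩
    · intro a ha b hb hab
      obtain ⟨x, _, rfl⟩ := Finset.mem_image.mp (Finset.mem_coe.mp ha)
      obtain ⟨y, _, rfl⟩ := Finset.mem_image.mp (Finset.mem_coe.mp hb)
      show Disjoint ({x} : Finset (Fin n)) {y}
      rw [Finset.disjoint_singleton]
      rintro rfl
      exact hab rfl
    · have e : ∀ U : Finset (Fin n), U.powerset =
          ((U.image fun x => ({x} : Finset (Fin n))).powerset).image fun S => S.sup id := by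
        intro U
        ext X
        rw [Finset.mem_powerset, Finset.mem_image]
        constructor
        · intro hX
          exact ⟨X.image fun x => {x}, Finset.mem_powerset.mpr (Finset.image_subset_image hX),
            Tw_sup_single X⟩
        · rintro ⟨S, hS, rfl⟩
          intro y hy
          obtain ⟨v, hv, hyv⟩ := Finset.mem_sup.mp hy
          obtain ⟨x, hx, rfl⟩ := Finset.mem_image.mp (Finset.mem_powerset.mp hS hv)
          rw [id, Finset.mem_singleton] at hyv
          rw [hyv]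
          exact hx
      exact h.trans (e _)
  · left
    obtain ⟨x, _, hx⟩ := Pool.Agent.H25.dense_trace (fam M) ⟨∅, empty_mem M⟩
      (fun S hS T hT => union_mem hS hT) (fun x _ y _ hxy => by
        obtain ⟨i, hi⟩ := htw x y hxy
        refine ⟨M i, row_mem M i, ?_⟩
        by_cases h1 : x ∈ M i
        · by_cases h2 : y ∈ M i
          · exact absurd (iff_of_true h1 h2) hi
          · exact Or.inl ⟨h1, h2⟩
        · by_cases h2 : y ∈ M i
          · exact Or.inr ⟨h2, h1⟩
          · exact absurd (iff_of_false h1 h2) hi) h Finset.univ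
      (fun S _ T _ hST => by simpa using hST) (by
        rw [Finset.card_univ, Fintype.card_fin]
        exact hA)
    exact ⟨x, hx⟩

theorem Tw_prod {x y : Fin n} (h : x ≠ y) (c : ℝ) :
    ∏ z : Fin n, (if z = x ∨ z = y then c else 1) = c ^ 2 := by
  rw [Finset.prod_ite, Finset.prod_const_one, mul_one, Finset.prod_const]
  congr 1
  have e : (Finset.univ : Finset (Fin n)).filter (fun z => z = x ∨ z = y) = {x, y} := by
    ext z
    simp
  rw [e, Finset.card_pair h]

theorem Tw_one {x y : Fin n} (h : x ≠ y) :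
    ∑ E : Finset (Fin n), wr p E * (if (x ∈ E ↔ y ∈ E) then (1 : ℝ) else 0) =
      1 - 2 * p * (1 - p) := by
  have h1 := sum_wr_prod (p := p) (fun _ : Fin n => (1 : ℝ)) (fun z => if z = x ∨ z = y then 0 else 1)
  have h2 := sum_wr_prod (p := p) (fun z : Fin n => if z = x ∨ z = y then (0 : ℝ) else 1) (fun _ => 1)
  have e1 : ∏ z : Fin n, (p * 1 + (1 - p) * (if z = x ∨ z = y then (0 : ℝ) else 1)) = p ^ 2 := by
    rw [← Tw_prod h p]
    apply Finset.prod_congr rfl
    intro z _
    split_ifs <;> ring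
  have e2 : ∏ z : Fin n, (p * (if z = x ∨ z = y then (0 : ℝ) else 1) + (1 - p) * 1) = (1 - p) ^ 2 := by
    rw [← Tw_prod h (1 - p)]
    apply Finset.prod_congr rfl
    intro z _
    split_ifs <;> ring
  rw [e1] at h1
  rw [e2] at h2
  have h3 : (1 : ℝ) - 2 * p * (1 - p) = p ^ 2 + (1 - p) ^ 2 := by ring
  rw [h3, ← h1, ← h2, ← Finset.sum_add_distrib]
  apply Finset.sum_congr rfl
  intro E _
  rw [← mul_add]
  congr 1
  have p1 : ∏ z : Fin n, (if z ∈ E then (1 : ℝ) else if z = x ∨ z = y then 0 else 1) =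
      if x ∈ E ∧ y ∈ E then 1 else 0 := by
    by_cases hxy : x ∈ E ∧ y ∈ E
    · rw [if_pos hxy]
      apply Finset.prod_eq_one
      intro z _
      by_cases hz : z ∈ E
      · rw [if_pos hz]
      · rw [if_neg hz, if_neg]
        rintro (rfl | rfl)
        · exact hz hxy.1
        · exact hz hxy.2
    · rw [if_neg hxy]
      rw [not_and_or] at hxy
      rcases hxy with hx | hy
      · apply Finset.prod_eq_zero (Finset.mem_univ x)
        rw [if_neg hx, if_pos (Or.inl rfl)]
      · apply Finset.prod_eq_zero (Finset.mem_univ y)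
        rw [if_neg hy, if_pos (Or.inr rfl)]
  have p2 : ∏ z : Fin n, (if z ∈ E then (if z = x ∨ z = y then (0 : ℝ) else 1) else 1) =
      if x ∉ E ∧ y ∉ E then 1 else 0 := by
    by_cases hxy : x ∉ E ∧ y ∉ E
    · rw [if_pos hxy]
      apply Finset.prod_eq_one
      intro z _
      by_cases hz : z ∈ E
      · rw [if_pos hz, if_neg]
        rintro (rfl | rfl)
        · exact hxy.1 hz
        · exact hxy.2 hz
      · rw [if_neg hz]
    · rw [if_neg hxy]
      rw [not_and_or, not_not, not_not] at hxy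
      rcases hxy with hx | hy
      · apply Finset.prod_eq_zero (Finset.mem_univ x)
        rw [if_pos hx, if_pos (Or.inl rfl)]
      · apply Finset.prod_eq_zero (Finset.mem_univ y)
        rw [if_pos hy, if_pos (Or.inr rfl)]
  rw [p1, p2]
  by_cases hx : x ∈ E <;> by_cases hy : y ∈ E <;> simp [hx, hy]

theorem Tw_pair {x y : Fin n} (h : x ≠ y) :
    Pr p (fun M : Mat m n => ∀ i, (x ∈ M i ↔ y ∈ M i)) = (1 - 2 * p * (1 - p)) ^ m := by
  classical
  have h1 := Ex_prod (p := p) (m := m) (n := n)
    (fun _ E => if (x ∈ E ↔ y ∈ E) then (1 : ℝ) else 0)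
  rw [Finset.prod_congr rfl (fun i _ => Tw_one (p := p) h), Finset.prod_const, Finset.card_univ,
    Fintype.card_fin] at h1
  rw [← h1, Pr_eq]
  congr 1
  funext M
  by_cases hM : ∀ i, (x ∈ M i ↔ y ∈ M i)
  · rw [if_pos hM]
    symm
    apply Finset.prod_eq_one
    intro i _
    rw [if_pos (hM i)]
  · rw [if_neg hM]
    push Not at hM
    obtain ⟨i, hi⟩ := hM
    symm
    apply Finset.prod_eq_zero (Finset.mem_univ i)
    rw [if_neg]
    tauto

theorem Pr_twins (h0 : 0 ≤ p) (h1 : p ≤ 1) :
    Pr p (fun M : Mat m n => ¬ ∀ x y : Fin n, x ≠ y → ∃ i, ¬ (x ∈ M i ↔ y ∈ M i)) ≤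
      (n : ℝ) ^ 2 * (1 - 2 * p * (1 - p)) ^ m := by
  classical
  have hp : 0 ≤ (1 - 2 * p * (1 - p)) ^ m := by
    apply pow_nonneg
    nlinarith [sq_nonneg p, sq_nonneg (1 - p)]
  have h2 : Pr p (fun M : Mat m n => ¬ ∀ x y : Fin n, x ≠ y → ∃ i, ¬ (x ∈ M i ↔ y ∈ M i)) ≤
      Pr p (fun M : Mat m n => ∃ q ∈ (Finset.univ : Finset (Fin n × Fin n)).filter (fun q => q.1 ≠ q.2),
        ∀ i, (q.1 ∈ M i ↔ q.2 ∈ M i)) := by
    apply Pr_mono h0 h1
    intro M hM
    push Not at hM
    obtain ⟨x, y, hxy, h3⟩ := hM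
    refine ⟨(x, y), Finset.mem_filter.mpr ⟨Finset.mem_univ _, hxy⟩, fun i => ?_⟩
    have := h3 i
    tauto
  refine h2.trans ((Pr_exists h0 h1 _ _).trans ?_)
  rw [Finset.sum_congr rfl (fun q hq => Tw_pair (Finset.mem_filter.mp hq).2), Finset.sum_const,
    nsmul_eq_mul]
  apply mul_le_mul_of_nonneg_right _ hp
  have h3 : ((Finset.univ : Finset (Fin n × Fin n)).filter (fun q => q.1 ≠ q.2)).card ≤ n ^ 2 := by
    refine (Finset.card_filter_le _ _).trans ?_
    rw [Finset.card_univ, Fintype.card_prod, Fintype.card_fin, sq]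
  exact_mod_cast h3

end Pool.Agent.H15.RU
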