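import Pool.Agent.H15.RU.Pb

/-!
# Row Tr: the transposed matrix

Proofs. `tr_tr`: ext. `wt_tr`: by `wr_prod` both sides are double products of
`if x ∈ M i then p else 1 - p` (`Finset.prod_comm`). `Ex_tr`: `tr` is an involution, hence a
bijection (`Fintype.sum_bijective` or `Equiv`), and preserves the weight. `Ex_col`: `Ex_tr` for
`F = ∏ x, g x (M' x)` on `Mat n m`, then `Ex_prod`. `sum_dis`, `sum_mem_dis`: `sum_wr_prod` for
`Fin m` with `a x = if x ∈ S then 0 else 1`, `b = 1` (and `b i = 0` at the given `i`), the product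
being `(1 - p) ^ S.card` (times `p`); the indicator is the product of the indicators.
-/

set_option autoImplicit false

open Finset

namespace Pool.Agent.H15.RU

variable {m n : ℕ} {p : ℝ}

theorem mem_tr {M : Mat m n} {i : Fin m} {x : Fin n} : i ∈ tr M x ↔ x ∈ M i := by
  simp [tr]

theorem tr_tr (M : Mat m n) : tr (tr M) = M := by
  funext i
  ext x
  rw [mem_tr, mem_tr]

theorem wt_tr (M : Mat m n) : wt p (tr M) = wt p M := by
  unfold wt
  have e1 : ∀ x ∈ (univ : Finset (Fin n)), wr p (tr M x) = ∏ i, (if x ∈ M i then p else 1 - p) := by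
    intro x _
    rw [wr_prod]
    refine Finset.prod_congr rfl fun i _ => ?_
    simp only [mem_tr]
  have e2 : ∀ i ∈ (univ : Finset (Fin m)), wr p (M i) = ∏ x, (if x ∈ M i then p else 1 - p) := by
    intro i _
    rw [wr_prod]
  rw [Finset.prod_congr rfl e1, Finset.prod_congr rfl e2, Finset.prod_comm]

theorem Ex_tr (F : Mat n m → ℝ) : Ex p (fun M : Mat m n => F (tr M)) = Ex p F := by
  unfold Ex
  refine Fintype.sum_bijective (fun M : Mat m n => (tr M : Mat n m)) ?_ _ _ ?_
  · exact ⟨fun M M' h => by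
      have h' : tr M = tr M' := h
      rw [← tr_tr M, h', tr_tr], fun M => ⟨tr M, tr_tr M⟩⟩
  · intro M
    rw [wt_tr]

/-- expectation of a product over the columns -/
theorem Ex_col (g : Fin n → Finset (Fin m) → ℝ) :
    Ex p (fun M : Mat m n => ∏ x, g x (tr M x)) = ∏ x, ∑ T : Finset (Fin m), wr p T * g x T := by
  rw [Ex_tr (fun M' : Mat n m => ∏ x, g x (M' x)), Ex_prod]

theorem Tr_prod_pow (S : Finset (Fin m)) (c : ℝ) :
    ∏ y, (if y ∈ S then c else 1) = c ^ S.card := by
  rw [Finset.prod_ite_mem, Finset.univ_inter, Finset.prod_const]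

theorem Tr_prod_pow' (S : Finset (Fin n)) (c : ℝ) :
    ∏ y, (if y ∈ S then 1 else c) = c ^ (n - S.card) := by
  have e : ∀ y ∈ (univ : Finset (Fin n)), (if y ∈ S then 1 else c) = if y ∈ Sᶜ then c else 1 := by
    intro y _
    by_cases h : y ∈ S <;> simp [h]
  rw [Finset.prod_congr rfl e, Tr_prod_pow, Finset.card_compl, Fintype.card_fin]

theorem sum_dis (S : Finset (Fin m)) :
    ∑ T : Finset (Fin m), wr p T * (if Disjoint T S then (1 : ℝ) else 0) = (1 - p) ^ S.card := by
  have h := sum_wr_prod (p := p) (fun y : Fin m => if y ∈ S then (0 : ℝ) else 1) (fun _ => 1)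
  have e : ∀ T : Finset (Fin m), (∏ y, (if y ∈ T then (if y ∈ S then (0 : ℝ) else 1) else 1)) =
      if Disjoint T S then (1 : ℝ) else 0 := by
    intro T
    by_cases hd : Disjoint T S
    · rw [if_pos hd]
      refine Finset.prod_eq_one fun y _ => ?_
      by_cases hy : y ∈ T
      · rw [if_pos hy, if_neg (Finset.disjoint_left.1 hd hy)]
      · rw [if_neg hy]
    · rw [if_neg hd]
      rw [Finset.not_disjoint_iff] at hd
      obtain ⟨y, hy1, hy2⟩ := hd
      refine Finset.prod_eq_zero (Finset.mem_univ y) ?_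
      rw [if_pos hy1, if_pos hy2]
  simp only [e] at h
  rw [h]
  have e2 : ∀ y ∈ (univ : Finset (Fin m)), p * (if y ∈ S then (0 : ℝ) else 1) + (1 - p) * 1 =
      if y ∈ S then 1 - p else 1 := by
    intro y _
    by_cases hy : y ∈ S <;> simp [hy]
  rw [Finset.prod_congr rfl e2, Tr_prod_pow]

theorem sum_mem_dis {S : Finset (Fin m)} {i : Fin m} (hi : i ∉ S) :
    ∑ T : Finset (Fin m), wr p T * (if i ∈ T ∧ Disjoint T S then (1 : ℝ) else 0) =
      p * (1 - p) ^ S.card := by
  have h := sum_wr_prod (p := p) (fun y : Fin m => if y ∈ S then (0 : ℝ) else 1)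
    (fun y => if y = i then 0 else 1)
  have e : ∀ T : Finset (Fin m), (∏ y, (if y ∈ T then (if y ∈ S then (0 : ℝ) else 1) else
      (if y = i then 0 else 1))) = if i ∈ T ∧ Disjoint T S then (1 : ℝ) else 0 := by
    intro T
    by_cases hiT : i ∈ T
    · by_cases hd : Disjoint T S
      · rw [if_pos ⟨hiT, hd⟩]
        refine Finset.prod_eq_one fun y _ => ?_
        by_cases hy : y ∈ T
        · rw [if_pos hy, if_neg (Finset.disjoint_left.1 hd hy)]
        · rw [if_neg hy, if_neg (fun h : y = i => hy (h.symm ▸ hiT))]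
      · rw [if_neg (fun h => hd h.2)]
        rw [Finset.not_disjoint_iff] at hd
        obtain ⟨y, hy1, hy2⟩ := hd
        refine Finset.prod_eq_zero (Finset.mem_univ y) ?_
        rw [if_pos hy1, if_pos hy2]
    · rw [if_neg (fun h => hiT h.1)]
      refine Finset.prod_eq_zero (Finset.mem_univ i) ?_
      rw [if_neg hiT, if_pos rfl]
  simp only [e] at h
  rw [h]
  have e2 : ∀ y ∈ (univ : Finset (Fin m)), p * (if y ∈ S then (0 : ℝ) else 1) +
      (1 - p) * (if y = i then 0 else 1) =
      (if y = i then p else 1) * (if y ∈ S then 1 - p else 1) := by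
    intro y _
    by_cases hyi : y = i
    · subst hyi
      simp [hi]
    · by_cases hy : y ∈ S <;> simp [hy, hyi]
  rw [Finset.prod_congr rfl e2, Finset.prod_mul_distrib, Tr_prod_pow, Finset.prod_ite_eq',
    if_pos (Finset.mem_univ i)]

/-- the sum over the subsets of `X` -/
theorem sum_sub (X : Finset (Fin n)) :
    ∑ E : Finset (Fin n), wr p E * (if E ⊆ X then (1 : ℝ) else 0) = (1 - p) ^ (n - X.card) := by
  have h := sum_wr_prod (p := p) (fun y : Fin n => if y ∈ X then (1 : ℝ) else 0) (fun _ => 1)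
  have e : ∀ T : Finset (Fin n), (∏ y, (if y ∈ T then (if y ∈ X then (1 : ℝ) else 0) else 1)) =
      if T ⊆ X then (1 : ℝ) else 0 := by
    intro T
    by_cases hd : T ⊆ X
    · rw [if_pos hd]
      refine Finset.prod_eq_one fun y _ => ?_
      by_cases hy : y ∈ T
      · rw [if_pos hy, if_pos (hd hy)]
      · rw [if_neg hy]
    · rw [if_neg hd]
      rw [Finset.not_subset] at hd
      obtain ⟨y, hy1, hy2⟩ := hd
      refine Finset.prod_eq_zero (Finset.mem_univ y) ?_
      rw [if_pos hy1, if_neg hy2]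
  simp only [e] at h
  rw [h]
  have e2 : ∀ y ∈ (univ : Finset (Fin n)), p * (if y ∈ X then (1 : ℝ) else 0) + (1 - p) * 1 =
      if y ∈ X then 1 else 1 - p := by
    intro y _
    by_cases hy : y ∈ X <;> simp [hy]
  rw [Finset.prod_congr rfl e2, Tr_prod_pow']

/-- the sum over the subsets of `X` that contain `x` -/
theorem sum_mem_sub {X : Finset (Fin n)} {x : Fin n} (hx : x ∈ X) :
    ∑ E : Finset (Fin n), wr p E * (if x ∈ E ∧ E ⊆ X then (1 : ℝ) else 0) =
      p * (1 - p) ^ (n - X.card) := by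
  have h := sum_wr_prod (p := p) (fun y : Fin n => if y ∈ X then (1 : ℝ) else 0)
    (fun y => if y = x then 0 else 1)
  have e : ∀ T : Finset (Fin n), (∏ y, (if y ∈ T then (if y ∈ X then (1 : ℝ) else 0) else
      (if y = x then 0 else 1))) = if x ∈ T ∧ T ⊆ X then (1 : ℝ) else 0 := by
    intro T
    by_cases hiT : x ∈ T
    · by_cases hd : T ⊆ X
      · rw [if_pos ⟨hiT, hd⟩]
        refine Finset.prod_eq_one fun y _ => ?_
        by_cases hy : y ∈ T
        · rw [if_pos hy, if_pos (hd hy)]
        · rw [if_neg hy, if_neg (fun h : y = x => hy (h.symm ▸ hiT))]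
      · rw [if_neg (fun h => hd h.2)]
        rw [Finset.not_subset] at hd
        obtain ⟨y, hy1, hy2⟩ := hd
        refine Finset.prod_eq_zero (Finset.mem_univ y) ?_
        rw [if_pos hy1, if_neg hy2]
    · rw [if_neg (fun h => hiT h.1)]
      refine Finset.prod_eq_zero (Finset.mem_univ x) ?_
      rw [if_neg hiT, if_pos rfl]
  simp only [e] at h
  rw [h]
  have e2 : ∀ y ∈ (univ : Finset (Fin n)), p * (if y ∈ X then (1 : ℝ) else 0) +
      (1 - p) * (if y = x then 0 else 1) =
      (if y = x then p else 1) * (if y ∈ X then 1 else 1 - p) := by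
    intro y _
    by_cases hyi : y = x
    · subst hyi
      simp [hx]
    · by_cases hy : y ∈ X <;> simp [hy, hyi]
  rw [Finset.prod_congr rfl e2, Finset.prod_mul_distrib, Tr_prod_pow', Finset.prod_ite_eq',
    if_pos (Finset.mem_univ x)]

end Pool.Agent.H15.RU
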