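import Pool.Agent.H15.RU.Sw
import Pool.Agent.H15.RU.Tr
import Pool.Agent.H15.RU.Fm

/-!
# Row Ue: the bad pairs

Proofs. For `W` and `x` let `RR W x` be the set of the rows in question (`y` fixed).
`sum_RR`: let `V = insert y W`, `y ∉ W`, `N = n - 1 - W.card`, the number of points outside `V`. The
weight of the rows `E` with `y ∈ E ⊆ V` is `p * (1 - p) ^ N` (`sum_mem_sub`). For every `x' ∉ V`,
`x' ≠ x` (at least `N - 1` points) the weight of the rows with `y, x' ∈ E ⊆ insert x' V` is
`p * p * (1 - p) ^ (N - 1)` (`sum_wr_prod` with `a = 1` on `V ∪ {x'}` and 0 elsewhere, `b = 0` at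
`y, x'` and 1 elsewhere); these sets of rows are disjoint.
`Pr_badS`: let `A y M = (fam M).filter (y ∉ ·)` (it contains `∅`) and
`h W M = if W ∈ A y M then 1 / (A y M).card else 0`. Whether `W ∈ A y M` depends only on the rows
that do not contain `y` (`mem_fam`: rows inside `W` do not contain `y`), so `h W` satisfies the
hypothesis `hinv` of `switch`. Let `BadP M s y W`, and let `Q` be the set in its last condition
(at most one element); let `x` be its element, or `x = y` if `Q = ∅`. Then no row is in `RR W x`: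
`y ∈ M i ⊆ insert y W` is excluded, and if `x' ∉ insert y W`, `x' ≠ x`, `y, x' ∈ M i ⊆
insert x' (insert y W)` then `x' ∈ Q`, so `x' = x`. Hence, with `B y M` the number of the `W` with
`BadP M s y W`:
`B y M / (A y M).card ≤ ∑ W with y ∉ W, s ≤ W.card, ∑ x, h W M * ∏ i, (if RR W x (M i) then 0 else 1)`.
By `switch` (with `sum_RR` and the hypothesis `ha` for `N = n - 1 - W.card`, `N + 1 + s ≤ n`) the
expectation of the right hand side is at most
`∑ W, ∑ x, Ex (h W M * ∏ i, (if y ∈ M i then 1 - a else 1)) ≤ n * Ex (∏ i, (if y ∈ M i then 1 - a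
else 1)) = n * (1 - p * a) ^ m`, because `∑ W, h W M = 1` (the factors are nonnegative, so the sum
over the `W` in question is at most the sum over all `W`) and `Ex_prod`, `sum_wr_prod`.
Finally `(badS M s).card = ∑ y, B y M ≤ (fam M).card * ∑ y, B y M / (A y M).card`, so
`η * (fam M).card ≤ (badS M s).card` implies `η ≤ ∑ y, B y M / (A y M).card`, and `markov` gives the
bound `n * (n * (1 - p * a) ^ m) / η`.
-/

set_option autoImplicit false

open Finset

namespace Pool.Agent.H15.RU

variable {m n : ℕ} {p : ℝ}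

/-- the row `E` contains `y` and is inside `W ∪ {y}` or has exactly one more point `x'`, not `x` -/
def RR (y : Fin n) (W : Finset (Fin n)) (x : Fin n) (E : Finset (Fin n)) : Prop :=
  y ∈ E ∧ (E ⊆ insert y W ∨
    ∃ x', x' ∉ insert y W ∧ x' ≠ x ∧ x' ∈ E ∧ E ⊆ insert x' (insert y W))

instance (y : Fin n) (W : Finset (Fin n)) (x : Fin n) : DecidablePred (RR y W x) := fun E => by
  unfold RR; infer_instance

theorem Ue_two {V : Finset (Fin n)} {y x' : Fin n} (hy : y ∈ V) (hx : x' ∉ V) {N : ℕ}
    (hN : N + V.card = n) :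
    ∑ E : Finset (Fin n), wr p E * (if (y ∈ E ∧ E ⊆ insert x' V) ∧ x' ∈ E then (1 : ℝ) else 0) =
      p * (p * (1 - p) ^ (N - 1)) := by
  have h1 : ∀ E : Finset (Fin n),
      wr p E * (if (y ∈ E ∧ E ⊆ insert x' V) ∧ x' ∈ E then (1 : ℝ) else 0) =
      wr p E * (if y ∈ E ∧ E ⊆ insert x' V then (1 : ℝ) else 0) -
      wr p E * (if y ∈ E ∧ E ⊆ V then (1 : ℝ) else 0) := by
    intro E
    rw [← mul_sub]
    congr 1
    by_cases hE : x' ∈ E
    · have h2 : ¬ E ⊆ V := fun h => hx (h hE)
      simp [hE, h2]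
    · have h2 : E ⊆ insert x' V ↔ E ⊆ V := Finset.subset_insert_iff_of_notMem hE
      simp [hE, h2]
  have hc : (insert x' V).card = V.card + 1 := Finset.card_insert_of_notMem hx
  have hcn : (insert x' V).card ≤ n := by simpa using Finset.card_le_univ (insert x' V)
  obtain ⟨k, rfl⟩ : ∃ k, N = k + 1 := ⟨N - 1, by omega⟩
  rw [Finset.sum_congr rfl fun E _ => h1 E, Finset.sum_sub_distrib,
    sum_mem_sub (Finset.mem_insert_of_mem hy), sum_mem_sub hy, hc,
    show n - (V.card + 1) = k by omega, show n - V.card = k + 1 by omega]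
  simp only [Nat.add_sub_cancel]
  ring

theorem sum_RR (h0 : 0 ≤ p) (h1 : p ≤ 1) {y : Fin n} {W : Finset (Fin n)} (hy : y ∉ W)
    (x : Fin n) {N : ℕ} (hN : N + 1 + W.card = n) :
    p * ((1 - p) ^ N + ((N - 1 : ℕ) : ℝ) * (p * (1 - p) ^ (N - 1))) ≤
      ∑ E ∈ univ.filter (RR y W x), wr p E := by
  have hc : (insert y W).card = W.card + 1 := Finset.card_insert_of_notMem hy
  have hyV : y ∈ insert y W := Finset.mem_insert_self _ _
  have hN' : N + (insert y W).card = n := by omega
  set D : Finset (Fin n) := (univ \ insert y W).erase x with hD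
  have hDc : N - 1 ≤ D.card := by
    have h2 : (univ \ insert y W).card = N := by
      rw [Finset.card_sdiff_of_subset (Finset.subset_univ _), Finset.card_univ, Fintype.card_fin]
      omega
    have h3 := Finset.pred_card_le_card_erase (s := univ \ insert y W) (a := x)
    rw [hD]
    omega
  have hpw : ∀ E : Finset (Fin n), (if y ∈ E ∧ E ⊆ insert y W then (1 : ℝ) else 0) +
      ∑ x' ∈ D, (if (y ∈ E ∧ E ⊆ insert x' (insert y W)) ∧ x' ∈ E then (1 : ℝ) else 0) ≤
      if RR y W x E then 1 else 0 := by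
    intro E
    by_cases hE : y ∈ E ∧ E ⊆ insert y W
    · have h2 : RR y W x E := ⟨hE.1, Or.inl hE.2⟩
      rw [if_pos hE, if_pos h2, Finset.sum_eq_zero, add_zero]
      intro x' hx'
      rw [if_neg]
      intro h3
      simp only [hD, Finset.mem_erase, Finset.mem_sdiff] at hx'
      exact hx'.2.2 (hE.2 h3.2)
    · rw [if_neg hE, zero_add]
      by_cases h2 : ∃ x' ∈ D, (y ∈ E ∧ E ⊆ insert x' (insert y W)) ∧ x' ∈ E
      · obtain ⟨x', hx', h3, h4⟩ := h2
        have hx2 := hx'
        simp only [hD, Finset.mem_erase, Finset.mem_sdiff] at hx2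
        have h5 : RR y W x E := ⟨h3.1, Or.inr ⟨x', hx2.2.2, hx2.1, h4, h3.2⟩⟩
        rw [if_pos h5]
        calc _ ≤ ∑ z ∈ D, (if z = x' then (1 : ℝ) else 0) := by
              refine Finset.sum_le_sum fun z hz => ?_
              split_ifs with h6 h7
              · exact le_rfl
              · exfalso
                have h8 := h6.1.2 h4
                rw [Finset.mem_insert] at h8
                rcases h8 with h8 | h8
                · exact h7 h8.symm
                · exact hx2.2.2 h8
              · norm_num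
              · exact le_rfl
          _ = 1 := by simp [hx']
      · rw [Finset.sum_eq_zero]
        · split_ifs <;> norm_num
        · intro x' hx'
          rw [if_neg]
          exact fun h3 => h2 ⟨x', hx', h3⟩
  have hRR : ∑ E ∈ univ.filter (RR y W x), wr p E =
      ∑ E : Finset (Fin n), wr p E * (if RR y W x E then 1 else 0) := by
    rw [Finset.sum_filter]
    exact Finset.sum_congr rfl fun E _ => by split_ifs <;> simp
  calc p * ((1 - p) ^ N + ((N - 1 : ℕ) : ℝ) * (p * (1 - p) ^ (N - 1)))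
      ≤ p * (1 - p) ^ N + (D.card : ℝ) * (p * (p * (1 - p) ^ (N - 1))) := by
        have h2 : ((N - 1 : ℕ) : ℝ) ≤ (D.card : ℝ) := by exact_mod_cast hDc
        have h3 : 0 ≤ p * (p * (1 - p) ^ (N - 1)) := by
          have : 0 ≤ 1 - p := by linarith
          positivity
        nlinarith
    _ = ∑ E : Finset (Fin n), wr p E * ((if y ∈ E ∧ E ⊆ insert y W then (1 : ℝ) else 0) +
      ∑ x' ∈ D, (if (y ∈ E ∧ E ⊆ insert x' (insert y W)) ∧ x' ∈ E then (1 : ℝ) else 0)) := by
        simp only [mul_add, Finset.sum_add_distrib, Finset.mul_sum]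
        rw [sum_mem_sub hyV, show n - (insert y W).card = N by omega, Finset.sum_comm,
          Finset.sum_congr rfl fun x' (hx' : x' ∈ D) => Ue_two (p := p) hyV (by
            simp only [hD, Finset.mem_erase, Finset.mem_sdiff] at hx'
            exact hx'.2.2) hN', Finset.sum_const, nsmul_eq_mul]
    _ ≤ _ := by
        rw [hRR]
        exact Finset.sum_le_sum fun E _ => mul_le_mul_of_nonneg_left (hpw E) (wr_nonneg h0 h1 E)

/-- the members without `y` -/
def Ue_A (y : Fin n) (M : Mat m n) : Finset (Finset (Fin n)) := (fam M).filter fun X => y ∉ X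

theorem Ue_A_pos (y : Fin n) (M : Mat m n) : 0 < (Ue_A y M).card :=
  Finset.card_pos.2 ⟨∅, Finset.mem_filter.2 ⟨empty_mem M, Finset.notMem_empty y⟩⟩

theorem Ue_A_sub (y : Fin n) (M : Mat m n) (i : Fin m) {E E' : Finset (Fin n)} (hE : y ∈ E) :
    Ue_A y (Function.update M i E) ⊆ Ue_A y (Function.update M i E') := by
  intro X hX
  rw [Ue_A, Finset.mem_filter, mem_fam] at hX ⊢
  refine ⟨fun x hx => ?_, hX.2⟩
  obtain ⟨j, hj, hj2⟩ := hX.1 x hx
  by_cases hji : j = i
  · subst hji
    rw [Function.update_self] at hj2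
    exact absurd (hj2 hE) hX.2
  · refine ⟨j, ?_⟩
    rw [Function.update_of_ne hji] at hj hj2 ⊢
    exact ⟨hj, hj2⟩

theorem Ue_A_upd (y : Fin n) (M : Mat m n) (i : Fin m) {E E' : Finset (Fin n)} (hE : y ∈ E)
    (hE' : y ∈ E') : Ue_A y (Function.update M i E) = Ue_A y (Function.update M i E') :=
  (Ue_A_sub y M i hE).antisymm (Ue_A_sub y M i hE')

/-- normalised indicator -/
noncomputable def Ue_h (y : Fin n) (W : Finset (Fin n)) (M : Mat m n) : ℝ :=
  if W ∈ Ue_A y M then 1 / ((Ue_A y M).card : ℝ) else 0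

theorem Ue_h_nonneg (y : Fin n) (W : Finset (Fin n)) (M : Mat m n) : 0 ≤ Ue_h y W M := by
  unfold Ue_h; split_ifs <;> positivity

theorem Ue_h_sum (y : Fin n) (M : Mat m n) (S : Finset (Finset (Fin n))) :
    ∑ W ∈ S, Ue_h y W M ≤ 1 := by
  calc ∑ W ∈ S, Ue_h y W M ≤ ∑ W, Ue_h y W M :=
        Finset.sum_le_sum_of_subset_of_nonneg (Finset.subset_univ _)
          fun W _ _ => Ue_h_nonneg y W M
    _ = 1 := by
        unfold Ue_h
        rw [← Finset.sum_filter, Finset.sum_const, nsmul_eq_mul]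
        have h1 : (univ.filter fun W => W ∈ Ue_A y M) = Ue_A y M := by ext; simp
        rw [h1]
        have h2 : ((Ue_A y M).card : ℝ) ≠ 0 := by
          have := Ue_A_pos y M
          positivity
        field_simp

theorem Ue_good {M : Mat m n} {s : ℕ} {y : Fin n} {W : Finset (Fin n)} (h : BadP M s y W) :
    ∃ x, ∀ i, ¬ RR y W x (M i) := by
  obtain ⟨_, _, _, h3, h4⟩ := h
  set Q := (univ : Finset (Fin n)).filter fun x => x ∉ insert y W ∧
      ∃ i, y ∈ M i ∧ M i ⊆ insert x (insert y W) with hQ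
  have h5 : ∃ x, ∀ x' ∈ Q, x' = x := by
    rcases Q.eq_empty_or_nonempty with h | ⟨x, hx⟩
    · exact ⟨y, fun x' hx' => absurd hx' (by simp [h])⟩
    · exact ⟨x, fun x' hx' => (Finset.card_le_one.1 h4) x' hx' x hx⟩
  obtain ⟨x, hx⟩ := h5
  refine ⟨x, fun i hi => ?_⟩
  obtain ⟨h6, h7 | ⟨x', h8, h9, _, h10⟩⟩ := hi
  · exact h3 i ⟨h6, h7⟩
  · exact h9 (hx x' (by rw [hQ, Finset.mem_filter]; exact ⟨Finset.mem_univ _, h8, i, h6, h10⟩))

theorem Ue_col (y : Fin n) (a : ℝ) :
    ∑ E : Finset (Fin n), wr p E * (if y ∈ E then 1 - a else 1) = 1 - p * a := by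
  have h1 := sum_wr_prod (p := p) (fun x : Fin n => if x = y then 1 - a else 1) fun _ => 1
  have h2 : ∀ E : Finset (Fin n), (if y ∈ E then 1 - a else 1) =
      ∏ x, (if x ∈ E then (if x = y then 1 - a else 1) else (1 : ℝ)) := by
    intro E
    rw [Finset.prod_eq_single y]
    · simp
    · intro x _ hx
      simp [hx]
    · simp
  rw [Finset.sum_congr rfl fun E _ => by rw [h2 E]]
  refine h1.trans ?_
  rw [Finset.prod_eq_single y]
  · simp; ring
  · intro x _ hx
    simp [hx]
  · simp

theorem Ue_B (h0 : 0 ≤ p) (h1 : p ≤ 1) {s : ℕ} {a : ℝ} (ha0 : 0 ≤ a) (ha1 : a ≤ 1)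
    (ha : ∀ N : ℕ, N + 1 + s ≤ n → a ≤ (1 - p) ^ N + ((N - 1 : ℕ) : ℝ) * (p * (1 - p) ^ (N - 1)))
    (y : Fin n) :
    Ex p (fun M : Mat m n => (((univ.filter fun W => BadP M s y W).card : ℝ) /
      ((Ue_A y M).card : ℝ))) ≤ (n : ℝ) * (1 - p * a) ^ m := by
  set S : Finset (Finset (Fin n)) := univ.filter fun W => y ∉ W ∧ s ≤ W.card with hS
  have hp0 : ∀ M : Mat m n, 0 ≤ ∏ i, (if y ∈ M i then 1 - a else 1) := by
    intro M
    refine Finset.prod_nonneg fun i _ => ?_
    split_ifs <;> linarith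
  have hq0 : ∀ (M : Mat m n) (W : Finset (Fin n)) (x : Fin n),
      0 ≤ ∏ i, (if RR y W x (M i) then (0 : ℝ) else 1) := by
    intro M W x
    refine Finset.prod_nonneg fun i _ => ?_
    split_ifs <;> norm_num
  have h2 : ∀ M : Mat m n, (((univ.filter fun W => BadP M s y W).card : ℝ) /
      ((Ue_A y M).card : ℝ)) ≤
      ∑ W ∈ S, ∑ x : Fin n, Ue_h y W M * ∏ i, (if RR y W x (M i) then (0 : ℝ) else 1) := by
    intro M
    have h3 : (((univ.filter fun W => BadP M s y W).card : ℝ) / ((Ue_A y M).card : ℝ)) =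
        ∑ W ∈ univ.filter fun W => BadP M s y W, Ue_h y W M := by
      rw [Finset.sum_congr rfl (g := fun _ => 1 / ((Ue_A y M).card : ℝ)), Finset.sum_const,
        nsmul_eq_mul]
      · ring
      · intro W hW
        rw [Finset.mem_filter] at hW
        unfold Ue_h
        rw [if_pos]
        exact Finset.mem_filter.2 ⟨hW.2.1, hW.2.2.1⟩
    rw [h3]
    calc _ ≤ ∑ W ∈ univ.filter fun W => BadP M s y W,
          ∑ x : Fin n, Ue_h y W M * ∏ i, (if RR y W x (M i) then (0 : ℝ) else 1) := by
          refine Finset.sum_le_sum fun W hW => ?_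
          rw [Finset.mem_filter] at hW
          obtain ⟨x, hx⟩ := Ue_good hW.2
          have h4 : Ue_h y W M = Ue_h y W M * ∏ i, (if RR y W x (M i) then (0 : ℝ) else 1) := by
            rw [Finset.prod_eq_one, mul_one]
            intro i _
            rw [if_neg (hx i)]
          calc Ue_h y W M = Ue_h y W M * ∏ i, (if RR y W x (M i) then (0 : ℝ) else 1) := h4
            _ ≤ _ := Finset.single_le_sum (f := fun x =>
                Ue_h y W M * ∏ i, (if RR y W x (M i) then (0 : ℝ) else 1))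
                (fun x _ => mul_nonneg (Ue_h_nonneg y W M) (hq0 M W x)) (Finset.mem_univ x)
      _ ≤ _ := by
          refine Finset.sum_le_sum_of_subset_of_nonneg ?_ fun W _ _ =>
            Finset.sum_nonneg fun x _ => mul_nonneg (Ue_h_nonneg y W M) (hq0 M W x)
          intro W hW
          rw [Finset.mem_filter] at hW
          rw [hS, Finset.mem_filter]
          exact ⟨Finset.mem_univ _, hW.2.2.1, hW.2.2.2.1⟩
  calc _ ≤ Ex p (fun M : Mat m n => ∑ W ∈ S, ∑ x : Fin n,
        Ue_h y W M * ∏ i, (if RR y W x (M i) then (0 : ℝ) else 1)) := Ex_mono h0 h1 h2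
    _ = ∑ W ∈ S, ∑ x : Fin n, Ex p (fun M : Mat m n =>
        Ue_h y W M * ∏ i, (if RR y W x (M i) then (0 : ℝ) else 1)) := by
        rw [Ex_sum]
        exact Finset.sum_congr rfl fun W _ => Ex_sum _ _
    _ ≤ ∑ W ∈ S, ∑ x : Fin n, Ex p (fun M : Mat m n =>
        Ue_h y W M * ∏ i, (if y ∈ M i then 1 - a else 1)) := by
        refine Finset.sum_le_sum fun W hW => Finset.sum_le_sum fun x _ => ?_
        rw [hS, Finset.mem_filter] at hW
        refine switch h0 h1 y (Ue_h y W) (Ue_h_nonneg y W) ?_ (RR y W x) (fun E hE => hE.1) ?_ ha0 ha1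
        · intro M i E E' hE hE'
          unfold Ue_h
          rw [Ue_A_upd y M i hE hE']
        · have hc : (insert y W).card ≤ n := by simpa using Finset.card_le_univ (insert y W)
          rw [Finset.card_insert_of_notMem hW.2.1] at hc
          refine le_trans ?_ (sum_RR h0 h1 hW.2.1 x (N := n - 1 - W.card) (by omega))
          refine mul_le_mul_of_nonneg_left (ha _ ?_) h0
          have := hW.2.2
          omega
    _ = ∑ x : Fin n, Ex p (fun M : Mat m n =>
        (∑ W ∈ S, Ue_h y W M) * ∏ i, (if y ∈ M i then 1 - a else 1)) := by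
        rw [Finset.sum_comm]
        refine Finset.sum_congr rfl fun x _ => ?_
        rw [← Ex_sum]
        simp only [Finset.sum_mul]
    _ ≤ ∑ x : Fin n, Ex p (fun M : Mat m n => ∏ i, (if y ∈ M i then 1 - a else 1)) := by
        refine Finset.sum_le_sum fun x _ => Ex_mono h0 h1 fun M => ?_
        exact mul_le_of_le_one_left (hp0 M) (Ue_h_sum y M S)
    _ = (n : ℝ) * (1 - p * a) ^ m := by
        have h5 := Ex_prod (m := m) (p := p) (fun _ (E : Finset (Fin n)) => if y ∈ E then 1 - a else 1)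
        rw [h5, Finset.prod_congr rfl fun i _ => Ue_col y a]
        simp

theorem Pr_badS (h0 : 0 ≤ p) (h1 : p ≤ 1) {s : ℕ} {a η : ℝ} (ha0 : 0 ≤ a) (ha1 : a ≤ 1)
    (hη : 0 < η)
    (ha : ∀ N : ℕ, N + 1 + s ≤ n → a ≤ (1 - p) ^ N + ((N - 1 : ℕ) : ℝ) * (p * (1 - p) ^ (N - 1))) :
    Pr p (fun M : Mat m n => η * ((fam M).card : ℝ) ≤ ((badS M s).card : ℝ)) ≤
      (n : ℝ) ^ 2 * (1 - p * a) ^ m / η := by
  have hn : ∀ M : Mat m n, 0 ≤ ∑ y : Fin n, (((univ.filter fun W => BadP M s y W).card : ℝ) /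
      ((Ue_A y M).card : ℝ)) := fun M => Finset.sum_nonneg fun y _ => by positivity
  calc _ ≤ Pr p (fun M : Mat m n => η ≤ ∑ y : Fin n,
        (((univ.filter fun W => BadP M s y W).card : ℝ) / ((Ue_A y M).card : ℝ))) := by
        refine Pr_mono h0 h1 fun M hM => ?_
        have hf : 0 < ((fam M).card : ℝ) := by exact_mod_cast fam_pos M
        have h3 : ((badS M s).card : ℝ) = ∑ y : Fin n,
            ((univ.filter fun W => BadP M s y W).card : ℝ) := by
          have h4 : (badS M s).card = ∑ y : Fin n, (univ.filter fun W => BadP M s y W).card := by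
            rw [badS, Finset.card_filter, Fintype.sum_prod_type]
            exact Finset.sum_congr rfl fun y _ => by rw [Finset.card_filter]
          rw [h4]; push_cast; rfl
        have h4 : ((badS M s).card : ℝ) ≤ ((fam M).card : ℝ) * ∑ y : Fin n,
            (((univ.filter fun W => BadP M s y W).card : ℝ) / ((Ue_A y M).card : ℝ)) := by
          rw [h3, Finset.mul_sum]
          refine Finset.sum_le_sum fun y _ => ?_
          have h5 : 0 < ((Ue_A y M).card : ℝ) := by exact_mod_cast Ue_A_pos y M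
          have h6 : ((Ue_A y M).card : ℝ) ≤ ((fam M).card : ℝ) := by
            exact_mod_cast Finset.card_le_card (Finset.filter_subset _ _)
          have h7 : (0 : ℝ) ≤ ((univ.filter fun W => BadP M s y W).card : ℝ) := by positivity
          rw [mul_div_assoc', le_div_iff₀ h5]
          nlinarith
        have h5 : ((fam M).card : ℝ) * η ≤ ((fam M).card : ℝ) * ∑ y : Fin n,
            (((univ.filter fun W => BadP M s y W).card : ℝ) / ((Ue_A y M).card : ℝ)) := by
          rw [mul_comm _ η]; exact hM.trans h4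
        exact le_of_mul_le_mul_left h5 hf
    _ ≤ _ := markov h0 h1 hn hη
    _ ≤ _ := by
        refine div_le_div_of_nonneg_right ?_ hη.le
        rw [Ex_sum]
        calc _ ≤ ∑ y : Fin n, (n : ℝ) * (1 - p * a) ^ m :=
              Finset.sum_le_sum fun y _ => Ue_B h0 h1 ha0 ha1 ha y
          _ = _ := by simp; ring

end Pool.Agent.H15.RU
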