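import Pool.Agent.H15.RU.Uc
import Pool.Agent.H15.RU.Ue
import Pool.Agent.H15.RU.Tw
import Pool.Agent.H15.RU.Lc
import Pool.Agent.H15.RU.Bn

/-!
# Row Pd: the critical window, probabilistic part

Proof. `C = n.choose b > 0`; `mid M` = the number of `X ∈ fam M` with `n ≤ 4 X.card`, `X.card < s`.
Events: (1) `C / 2 ≤ (unc M b).card`; (2) twins: `¬ ∀ x y, x ≠ y → ..`; (3)
`(1 / 32) (fam M).card ≤ (badS M s).card`; (4) `C / (8 (4 n + 1)) ≤ mid M`. Their probabilities are at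
most the four terms (`markov` with `Ex_unc`; `Pr_twins`; `Pr_badS` with `η = 1 / 32`; `markov` with
`hV`). It remains to show that `Good (fam M)` holds if none of them happens (`Pr_mono`, `Pr_or`).
By `choose_le_unc` `(fam M).card > C / 2`. If `2 * 2 ^ n ≤ 5 (fam M).card` use `good_of_dense`.
Otherwise `2 (fam M).card ≤ 2 ^ n`. A member with fewer than `s` elements has `4 card < n`, hence
`card ≤ n / 4`, or is counted by `mid M`; by `small_sets` and `hT`,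
`(4 n + 1) * #{X ∈ fam M | card < s} ≤ (4 n + 1) ((4 / 3) ^ n 3 ^ (n / 4)) + (4 n + 1) mid M
< C / 16 + C / 8 < (3 / 8) (fam M).card` (with `≤` in the first), and `8 (badS M s).card <
(fam M).card / 4`. So `good_of_local` applies.
-/

set_option autoImplicit false

open Finset

namespace Pool.Agent.H15.RU

/-- the members of middle size -/
def Pd_mid {m n : ℕ} (M : Mat m n) (s : ℕ) : Finset (Finset (Fin n)) :=
  (fam M).filter fun X => n ≤ 4 * X.card ∧ X.card < s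

theorem Pd_small {m n : ℕ} (M : Mat m n) (s : ℕ) :
    (((fam M).filter fun X => X.card < s).card : ℝ) ≤
      (4 / 3) ^ n * 3 ^ (n / 4) + ((Pd_mid M s).card : ℝ) := by
  have hsub : ((fam M).filter fun X => X.card < s) ⊆
      ((univ : Finset (Finset (Fin n))).filter fun X => X.card ≤ n / 4) ∪ Pd_mid M s := by
    intro X hX
    obtain ⟨hXf, hXs⟩ := Finset.mem_filter.1 hX
    rw [Finset.mem_union]
    by_cases h : n ≤ 4 * X.card
    · right
      exact Finset.mem_filter.2 ⟨hXf, h, hXs⟩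
    · left
      refine Finset.mem_filter.2 ⟨Finset.mem_univ _, ?_⟩
      omega
  have h1 : ((fam M).filter fun X => X.card < s).card ≤
      ((univ : Finset (Finset (Fin n))).filter fun X => X.card ≤ n / 4).card +
        (Pd_mid M s).card :=
    (Finset.card_le_card hsub).trans (Finset.card_union_le _ _)
  have h2 : (((fam M).filter fun X => X.card < s).card : ℝ) ≤
      (((univ : Finset (Finset (Fin n))).filter fun X => X.card ≤ n / 4).card : ℝ) +
        ((Pd_mid M s).card : ℝ) := by exact_mod_cast h1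
  have h3 := small_sets n
  linarith

theorem Pd_det {n m b s : ℕ} (hb : b ≤ n) (M : Mat m n)
    (hT : 16 * (4 * (n : ℝ) + 1) * ((4 / 3) ^ n * 3 ^ (n / 4)) ≤ n.choose b)
    (h1 : ¬ ((n.choose b : ℝ) / 2 ≤ ((unc M b).card : ℝ)))
    (h2 : ∀ x y : Fin n, x ≠ y → ∃ i, ¬ (x ∈ M i ↔ y ∈ M i))
    (h3 : ¬ (1 / 32 * ((fam M).card : ℝ) ≤ ((badS M s).card : ℝ)))
    (h4 : ¬ ((n.choose b : ℝ) / (8 * (4 * (n : ℝ) + 1)) ≤ ((Pd_mid M s).card : ℝ))) :
    Good (fam M) := by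
  have hn : (0 : ℝ) < 4 * (n : ℝ) + 1 := by positivity
  have hcu : (n.choose b : ℝ) ≤ ((fam M).card : ℝ) + ((unc M b).card : ℝ) := by
    exact_mod_cast choose_le_unc M hb
  rw [not_le] at h1 h3 h4
  have hfam : (n.choose b : ℝ) / 2 < ((fam M).card : ℝ) := by linarith
  by_cases hd : 2 * 2 ^ n ≤ 5 * (fam M).card
  · exact good_of_dense hd h2
  · left
    apply good_of_local (s := s) (by omega)
    have hmid : (4 * (n : ℝ) + 1) * ((Pd_mid M s).card : ℝ) < (n.choose b : ℝ) / 8 := by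
      rw [lt_div_iff₀ (by positivity)] at h4
      rw [lt_div_iff₀ (by norm_num)]
      calc (4 * (n : ℝ) + 1) * ((Pd_mid M s).card : ℝ) * 8 =
          ((Pd_mid M s).card : ℝ) * (8 * (4 * (n : ℝ) + 1)) := by ring
        _ < _ := h4
    have hsm : (4 * (n : ℝ) + 1) * ((4 / 3) ^ n * 3 ^ (n / 4)) ≤ (n.choose b : ℝ) / 16 := by
      rw [le_div_iff₀ (by norm_num)]
      calc (4 * (n : ℝ) + 1) * ((4 / 3) ^ n * 3 ^ (n / 4)) * 16 =
          16 * (4 * (n : ℝ) + 1) * ((4 / 3) ^ n * 3 ^ (n / 4)) := by ring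
        _ ≤ _ := hT
    have hs := mul_le_mul_of_nonneg_left (Pd_small M s) hn.le
    rw [mul_add] at hs
    have hfin : 8 * ((badS M s).card : ℝ) + (4 * (n : ℝ) + 1) *
        (((fam M).filter fun X => X.card < s).card : ℝ) < ((fam M).card : ℝ) := by
      linarith
    exact_mod_cast hfin

theorem zoneD_prob {n m b s : ℕ} {p a V : ℝ} (h0 : 0 ≤ p) (h1 : p ≤ 1) (hb : b ≤ n)
    (ha0 : 0 ≤ a) (ha1 : a ≤ 1)
    (ha : ∀ N : ℕ, N + 1 + s ≤ n →
      a ≤ (1 - p) ^ N + ((N - 1 : ℕ) : ℝ) * (p * (1 - p) ^ (N - 1)))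
    (hV : Ex p (fun M : Mat m n =>
      (((fam M).filter fun X => n ≤ 4 * X.card ∧ X.card < s).card : ℝ)) ≤ V)
    (hT : 16 * (4 * (n : ℝ) + 1) * ((4 / 3) ^ n * 3 ^ (n / 4)) ≤ n.choose b) :
    Pr p (fun M : Mat m n => ¬ Good (fam M)) ≤
      2 * (n : ℝ) * (1 - p * (1 - p) ^ b) ^ m + (n : ℝ) ^ 2 * (1 - 2 * p * (1 - p)) ^ m +
        32 * (n : ℝ) ^ 2 * (1 - p * a) ^ m + 8 * (4 * (n : ℝ) + 1) * V / n.choose b := by
  have hC : (0 : ℝ) < (n.choose b : ℝ) := by exact_mod_cast Nat.choose_pos hb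
  have hn : (0 : ℝ) < 4 * (n : ℝ) + 1 := by positivity
  have hmono : Pr p (fun M : Mat m n => ¬ Good (fam M)) ≤
      Pr p (fun M : Mat m n => (((n.choose b : ℝ) / 2 ≤ ((unc M b).card : ℝ)) ∨
        (¬ ∀ x y : Fin n, x ≠ y → ∃ i, ¬ (x ∈ M i ↔ y ∈ M i))) ∨
        ((1 / 32 * ((fam M).card : ℝ) ≤ ((badS M s).card : ℝ)) ∨
        ((n.choose b : ℝ) / (8 * (4 * (n : ℝ) + 1)) ≤ ((Pd_mid M s).card : ℝ)))) := by
    refine Pr_mono h0 h1 fun M hM => ?_
    by_contra hcon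
    rw [not_or, not_or, not_or, not_not] at hcon
    exact hM (Pd_det hb M hT hcon.1.1 hcon.1.2 hcon.2.1 hcon.2.2)
  have hor1 := Pr_or h0 h1
    (fun M : Mat m n => (((n.choose b : ℝ) / 2 ≤ ((unc M b).card : ℝ)) ∨
        (¬ ∀ x y : Fin n, x ≠ y → ∃ i, ¬ (x ∈ M i ↔ y ∈ M i))))
    (fun M : Mat m n => ((1 / 32 * ((fam M).card : ℝ) ≤ ((badS M s).card : ℝ)) ∨
        ((n.choose b : ℝ) / (8 * (4 * (n : ℝ) + 1)) ≤ ((Pd_mid M s).card : ℝ))))
  have hor2 := Pr_or h0 h1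
    (fun M : Mat m n => ((n.choose b : ℝ) / 2 ≤ ((unc M b).card : ℝ)))
    (fun M : Mat m n => (¬ ∀ x y : Fin n, x ≠ y → ∃ i, ¬ (x ∈ M i ↔ y ∈ M i)))
  have hor3 := Pr_or h0 h1
    (fun M : Mat m n => (1 / 32 * ((fam M).card : ℝ) ≤ ((badS M s).card : ℝ)))
    (fun M : Mat m n => ((n.choose b : ℝ) / (8 * (4 * (n : ℝ) + 1)) ≤ ((Pd_mid M s).card : ℝ)))
  have e1 : Pr p (fun M : Mat m n => ((n.choose b : ℝ) / 2 ≤ ((unc M b).card : ℝ))) ≤
      2 * (n : ℝ) * (1 - p * (1 - p) ^ b) ^ m := by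
    refine (markov h0 h1 (fun M => Nat.cast_nonneg _) (by positivity)).trans ?_
    rw [div_le_iff₀ (by positivity)]
    refine (Ex_unc h0 h1 hb).trans (le_of_eq ?_)
    ring
  have e2 : Pr p (fun M : Mat m n => ¬ ∀ x y : Fin n, x ≠ y → ∃ i, ¬ (x ∈ M i ↔ y ∈ M i)) ≤
      (n : ℝ) ^ 2 * (1 - 2 * p * (1 - p)) ^ m := Pr_twins h0 h1
  have e3 : Pr p (fun M : Mat m n => (1 / 32 * ((fam M).card : ℝ) ≤ ((badS M s).card : ℝ))) ≤
      32 * (n : ℝ) ^ 2 * (1 - p * a) ^ m := by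
    refine (Pr_badS h0 h1 ha0 ha1 (by norm_num) ha).trans (le_of_eq ?_)
    ring
  have e4 : Pr p (fun M : Mat m n =>
      ((n.choose b : ℝ) / (8 * (4 * (n : ℝ) + 1)) ≤ ((Pd_mid M s).card : ℝ))) ≤
      8 * (4 * (n : ℝ) + 1) * V / n.choose b := by
    refine (markov h0 h1 (fun M => Nat.cast_nonneg _) (by positivity)).trans ?_
    rw [div_le_iff₀ (by positivity)]
    refine le_trans hV (le_of_eq ?_)
    field_simp
  linarith

end Pool.Agent.H15.RU
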