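import Pool.Agent.H15.RU.Tr
import Pool.Agent.H15.RU.Fm

/-!
# Row Ud: members of middle size

Proof. Let `X ∈ fam M`, `T = {i | M i ⊆ X}`, `un M T = X` (eq_un). Either `k ≤ T.card`, and there is
`S ⊆ T` with `S.card = k`, or `X = un M S` with `S = T`, `S.card < k`. So the indicator of
`X ∈ fam M` is at most
`∑ S with S.card = k, ∏ i, (if i ∈ S then (if M i ⊆ X then 1 else 0) else 1)`
`+ ∑ S with S.card < k, (if un M S = X then 1 else 0)`.
The expectation of the product is `((1 - p) ^ (n - X.card)) ^ k` (`Ex_prod`, `sum_sub`, `sum_wr`), and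
the indicator of `un M S = X` is `∏ x, (if Disjoint (tr M x) S then (if x ∈ X then 0 else 1) else
(if x ∈ X then 1 else 0))`, with expectation (`Ex_col`, `sum_dis`, `sum_wr`)
`((1 - p) ^ S.card) ^ (n - X.card) * (1 - (1 - p) ^ S.card) ^ X.card`.
If `X.card < s` then `n - X.card ≥ n + 1 - s`, so `(1 - p) ^ (n - X.card) ≤ (1 - p) ^ (n + 1 - s) ≤ ρ`,
and the sum over `S` with `S.card = k` is at most `m.choose k * ρ ^ k`. If `n ≤ 4 X.card` then
`n / 4 ≤ X.card`; for `S.card < k`: `1 - (1 - p) ^ S.card ≤ 1 - (1 - p) ^ k`, in `[0, 1]`, so the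
second expectation is at most `ρ ^ S.card * (1 - (1 - p) ^ k) ^ (n / 4)`, and
`∑ S, ρ ^ S.card = (1 + ρ) ^ m` (`Finset.sum_pow_mul_eq_add_pow` or `Finset.prod_one_add`). There are
at most `2 ^ n` sets `X`.
-/

set_option autoImplicit false

open Finset

namespace Pool.Agent.H15.RU

variable {m n : ℕ} {p : ℝ}

theorem Ud_A (X : Finset (Fin n)) (S : Finset (Fin m)) :
    Ex p (fun M : Mat m n => if ∀ i ∈ S, M i ⊆ X then (1 : ℝ) else 0) =
      ((1 - p) ^ (n - X.card)) ^ S.card := by
  have e : (fun M : Mat m n => if ∀ i ∈ S, M i ⊆ X then (1 : ℝ) else 0) =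
      fun M : Mat m n => ∏ i, (fun (i : Fin m) (E : Finset (Fin n)) =>
        if i ∈ S then (if E ⊆ X then (1 : ℝ) else 0) else 1) i (M i) := by
    funext M
    by_cases h : ∀ i ∈ S, M i ⊆ X
    · rw [if_pos h]
      refine (Finset.prod_eq_one fun i _ => ?_).symm
      by_cases hi : i ∈ S
      · simp only [if_pos hi, if_pos (h i hi)]
      · simp only [if_neg hi]
    · rw [if_neg h]
      push Not at h
      obtain ⟨i, hi, hX⟩ := h
      refine (Finset.prod_eq_zero (Finset.mem_univ i) ?_).symm
      simp only [if_pos hi, if_neg hX]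
  rw [e]
  refine (Ex_prod (fun (i : Fin m) (E : Finset (Fin n)) =>
        if i ∈ S then (if E ⊆ X then (1 : ℝ) else 0) else 1)).trans ?_
  have e2 : ∀ i ∈ (univ : Finset (Fin m)),
      ∑ E : Finset (Fin n), wr p E * (if i ∈ S then (if E ⊆ X then (1 : ℝ) else 0) else 1) =
      if i ∈ S then (1 - p) ^ (n - X.card) else 1 := by
    intro i _
    by_cases hi : i ∈ S
    · simp only [if_pos hi]
      exact sum_sub X
    · simp only [if_neg hi, mul_one]
      exact sum_wr
  rw [Finset.prod_congr rfl e2, Finset.prod_ite_mem, Finset.univ_inter, Finset.prod_const]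

theorem Ud_un {M : Mat m n} {S : Finset (Fin m)} {X : Finset (Fin n)} :
    un M S = X ↔ ∀ x, (x ∈ X ↔ ¬ Disjoint (tr M x) S) := by
  unfold un
  rw [Finset.ext_iff]
  refine forall_congr' fun x => ?_
  rw [Finset.mem_biUnion, Finset.not_disjoint_iff]
  constructor
  · intro h
    rw [← h]
    constructor
    · rintro ⟨i, h1, h2⟩
      exact ⟨i, mem_tr.2 h2, h1⟩
    · rintro ⟨i, h1, h2⟩
      exact ⟨i, h2, mem_tr.1 h1⟩
  · intro h
    rw [h]
    constructor
    · rintro ⟨i, h1, h2⟩
      exact ⟨i, mem_tr.2 h2, h1⟩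
    · rintro ⟨i, h1, h2⟩
      exact ⟨i, h2, mem_tr.1 h1⟩

theorem Ud_B (X : Finset (Fin n)) (S : Finset (Fin m)) :
    Ex p (fun M : Mat m n => if un M S = X then (1 : ℝ) else 0) =
      (1 - (1 - p) ^ S.card) ^ X.card * ((1 - p) ^ S.card) ^ (n - X.card) := by
  have e : (fun M : Mat m n => if un M S = X then (1 : ℝ) else 0) =
      fun M : Mat m n => ∏ x, (fun (x : Fin n) (T : Finset (Fin m)) =>
        if x ∈ X then (if Disjoint T S then (0 : ℝ) else 1) else
          (if Disjoint T S then 1 else 0)) x (tr M x) := by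
    funext M
    by_cases h : un M S = X
    · rw [if_pos h]
      rw [Ud_un] at h
      refine (Finset.prod_eq_one fun x _ => ?_).symm
      by_cases hx : x ∈ X
      · simp only [if_pos hx, if_neg ((h x).1 hx)]
      · have hd : Disjoint (tr M x) S := by
          by_contra hd
          exact hx ((h x).2 hd)
        simp only [if_neg hx, if_pos hd]
    · rw [if_neg h]
      rw [Ud_un] at h
      push Not at h
      obtain ⟨x, hx⟩ := h
      refine (Finset.prod_eq_zero (Finset.mem_univ x) ?_).symm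
      by_cases hxX : x ∈ X
      · have hd : Disjoint (tr M x) S := by
          rcases hx with h | h
          · exact h.2
          · exact absurd hxX h.1
        simp only [if_pos hxX, if_pos hd]
      · have hd : ¬ Disjoint (tr M x) S := by
          rcases hx with h | h
          · exact absurd h.1 hxX
          · exact h.2
        simp only [if_neg hxX, if_neg hd]
  rw [e]
  refine (Ex_col (fun (x : Fin n) (T : Finset (Fin m)) =>
        if x ∈ X then (if Disjoint T S then (0 : ℝ) else 1) else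
          (if Disjoint T S then 1 else 0))).trans ?_
  have e2 : ∀ x ∈ (univ : Finset (Fin n)),
      ∑ T : Finset (Fin m), wr p T * (if x ∈ X then (if Disjoint T S then (0 : ℝ) else 1) else
          (if Disjoint T S then 1 else 0)) =
      (if x ∈ X then 1 - (1 - p) ^ S.card else 1) * (if x ∈ X then 1 else (1 - p) ^ S.card) := by
    intro x _
    by_cases hx : x ∈ X
    · simp only [if_pos hx, mul_one]
      have h1 : ∀ T ∈ (univ : Finset (Finset (Fin m))),
          wr p T * (if Disjoint T S then (0 : ℝ) else 1) =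
          wr p T - wr p T * (if Disjoint T S then (1 : ℝ) else 0) := by
        intro T _
        by_cases hd : Disjoint T S <;> simp [hd]
      rw [Finset.sum_congr rfl h1, Finset.sum_sub_distrib, sum_wr, sum_dis]
    · simp only [if_neg hx, one_mul]
      exact sum_dis S
  rw [Finset.prod_congr rfl e2, Finset.prod_mul_distrib, Tr_prod_pow, Tr_prod_pow']

theorem Ud_ind (M : Mat m n) (k : ℕ) (X : Finset (Fin n)) :
    (if X ∈ fam M then (1 : ℝ) else 0) ≤
      (∑ S ∈ univ.filter fun S : Finset (Fin m) => S.card = k,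
        if ∀ i ∈ S, M i ⊆ X then (1 : ℝ) else 0) +
      ∑ S ∈ univ.filter fun S : Finset (Fin m) => S.card < k,
        if un M S = X then (1 : ℝ) else 0 := by
  have hA : ∀ S ∈ (univ.filter fun S : Finset (Fin m) => S.card = k),
      (0 : ℝ) ≤ if ∀ i ∈ S, M i ⊆ X then (1 : ℝ) else 0 := by
    intro S _
    split_ifs <;> norm_num
  have hB : ∀ S ∈ (univ.filter fun S : Finset (Fin m) => S.card < k),
      (0 : ℝ) ≤ if un M S = X then (1 : ℝ) else 0 := by
    intro S _
    split_ifs <;> norm_num
  by_cases h : X ∈ fam M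
  · rw [if_pos h]
    have hun := eq_un h
    set T : Finset (Fin m) := univ.filter fun i => M i ⊆ X with hT
    by_cases hk : k ≤ T.card
    · obtain ⟨S, hS, hSk⟩ := Finset.exists_subset_card_eq hk
      have h1 : (1 : ℝ) ≤ ∑ S ∈ univ.filter fun S : Finset (Fin m) => S.card = k,
          if ∀ i ∈ S, M i ⊆ X then (1 : ℝ) else 0 := by
        refine le_trans ?_ (Finset.single_le_sum hA
          (Finset.mem_filter.2 ⟨Finset.mem_univ S, hSk⟩))
        rw [if_pos]
        intro i hi
        exact (Finset.mem_filter.1 (hS hi)).2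
      have h2 := Finset.sum_nonneg hB
      linarith
    · have h1 : (1 : ℝ) ≤ ∑ S ∈ univ.filter fun S : Finset (Fin m) => S.card < k,
          if un M S = X then (1 : ℝ) else 0 := by
        refine le_trans ?_ (Finset.single_le_sum hB
          (Finset.mem_filter.2 ⟨Finset.mem_univ T, not_le.1 hk⟩))
        rw [if_pos hun]
      have h2 := Finset.sum_nonneg hA
      linarith
  · rw [if_neg h]
    exact add_nonneg (Finset.sum_nonneg hA) (Finset.sum_nonneg hB)

theorem Ex_mid (h0 : 0 ≤ p) (h1 : p ≤ 1) (k s : ℕ) {ρ : ℝ} (hρ : (1 - p) ^ (n + 1 - s) ≤ ρ) :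
    Ex p (fun M : Mat m n =>
      (((fam M).filter fun X => n ≤ 4 * X.card ∧ X.card < s).card : ℝ)) ≤
      2 ^ n * (m.choose k * ρ ^ k + (1 - (1 - p) ^ k) ^ (n / 4) * (1 + ρ) ^ m) := by
  have hq0 : (0 : ℝ) ≤ 1 - p := by linarith
  have hq1 : (1 - p : ℝ) ≤ 1 := by linarith
  have hρ0 : 0 ≤ ρ := le_trans (pow_nonneg hq0 _) hρ
  have hc0 : (0 : ℝ) ≤ 1 - (1 - p) ^ k := by
    have := pow_le_one₀ (n := k) hq0 hq1
    linarith
  have hc1 : (1 - (1 - p) ^ k : ℝ) ≤ 1 := by
    have := pow_nonneg hq0 k
    linarith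
  set F : Finset (Finset (Fin n)) := univ.filter fun X => n ≤ 4 * X.card ∧ X.card < s with hF
  have e : ∀ M : Mat m n, (((fam M).filter fun X => n ≤ 4 * X.card ∧ X.card < s).card : ℝ) =
      ∑ X ∈ F, if X ∈ fam M then (1 : ℝ) else 0 := by
    intro M
    rw [← Finset.sum_filter, Finset.sum_const, nsmul_eq_mul, mul_one]
    congr 2
    ext X
    simp only [Finset.mem_filter, hF, Finset.mem_univ, true_and]
    tauto
  have step1 : Ex p (fun M : Mat m n =>
      (((fam M).filter fun X => n ≤ 4 * X.card ∧ X.card < s).card : ℝ)) ≤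
      Ex p (fun M : Mat m n => ∑ X ∈ F,
        ((∑ S ∈ univ.filter fun S : Finset (Fin m) => S.card = k,
          if ∀ i ∈ S, M i ⊆ X then (1 : ℝ) else 0) +
        ∑ S ∈ univ.filter fun S : Finset (Fin m) => S.card < k,
          if un M S = X then (1 : ℝ) else 0)) := by
    refine Ex_mono h0 h1 fun M => ?_
    rw [e M]
    exact Finset.sum_le_sum fun X _ => Ud_ind M k X
  refine step1.trans ?_
  rw [Ex_sum]
  have hX : ∀ X ∈ F, Ex p (fun M : Mat m n =>
        (∑ S ∈ univ.filter fun S : Finset (Fin m) => S.card = k,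
          if ∀ i ∈ S, M i ⊆ X then (1 : ℝ) else 0) +
        ∑ S ∈ univ.filter fun S : Finset (Fin m) => S.card < k,
          if un M S = X then (1 : ℝ) else 0) ≤
      m.choose k * ρ ^ k + (1 - (1 - p) ^ k) ^ (n / 4) * (1 + ρ) ^ m := by
    intro X hXF
    obtain ⟨-, hn4, hs⟩ := Finset.mem_filter.1 hXF
    have hr : (1 - p) ^ (n - X.card) ≤ ρ := by
      refine le_trans ?_ hρ
      exact pow_le_pow_of_le_one hq0 hq1 (by omega)
    rw [Ex_add, Ex_sum, Ex_sum]
    refine add_le_add ?_ ?_
    · have h2 : ∀ S ∈ (univ.filter fun S : Finset (Fin m) => S.card = k),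
          Ex p (fun M : Mat m n => if ∀ i ∈ S, M i ⊆ X then (1 : ℝ) else 0) ≤ ρ ^ k := by
        intro S hS
        rw [Ud_A, (Finset.mem_filter.1 hS).2]
        exact pow_le_pow_left₀ (pow_nonneg hq0 _) hr k
      refine (Finset.sum_le_card_nsmul _ _ _ h2).trans ?_
      rw [nsmul_eq_mul]
      refine mul_le_mul_of_nonneg_right ?_ (pow_nonneg hρ0 k)
      rw [Finset.univ_filter_card_eq, Finset.card_powersetCard, Finset.card_univ,
        Fintype.card_fin]
    · have h2 : ∀ S ∈ (univ.filter fun S : Finset (Fin m) => S.card < k),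
          Ex p (fun M : Mat m n => if un M S = X then (1 : ℝ) else 0) ≤
            (1 - (1 - p) ^ k) ^ (n / 4) * ρ ^ S.card := by
        intro S hS
        have hSk := (Finset.mem_filter.1 hS).2
        rw [Ud_B]
        refine mul_le_mul ?_ ?_ (pow_nonneg (pow_nonneg hq0 _) _) (pow_nonneg hc0 _)
        · have a1 : (0 : ℝ) ≤ 1 - (1 - p) ^ S.card := by
            have := pow_le_one₀ (n := S.card) hq0 hq1
            linarith
          have a2 : (1 - (1 - p) ^ S.card : ℝ) ≤ 1 - (1 - p) ^ k := by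
            have := pow_le_pow_of_le_one hq0 hq1 hSk.le
            linarith
          refine (pow_le_pow_left₀ a1 a2 _).trans ?_
          exact pow_le_pow_of_le_one hc0 hc1 (by omega)
        · rw [← pow_mul, mul_comm, pow_mul]
          exact pow_le_pow_left₀ (pow_nonneg hq0 _) hr _
      refine (Finset.sum_le_sum h2).trans ?_
      rw [← Finset.mul_sum]
      refine mul_le_mul_of_nonneg_left ?_ (pow_nonneg hc0 _)
      have h3 := Fintype.sum_pow_mul_eq_add_pow (Fin m) ρ 1
      simp only [one_pow, mul_one, Fintype.card_fin] at h3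
      rw [add_comm 1 ρ, ← h3]
      exact Finset.sum_le_sum_of_subset_of_nonneg (Finset.filter_subset _ _)
        fun S _ _ => pow_nonneg hρ0 _
  refine (Finset.sum_le_card_nsmul _ _ _ hX).trans ?_
  rw [nsmul_eq_mul]
  refine mul_le_mul_of_nonneg_right ?_ ?_
  · have h4 : F.card ≤ 2 ^ n := by
      refine (Finset.card_filter_le _ _).trans ?_
      rw [Finset.card_univ, Fintype.card_finset, Fintype.card_fin]
    exact_mod_cast h4
  · exact add_nonneg (mul_nonneg (Nat.cast_nonneg _) (pow_nonneg hρ0 _))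
      (mul_nonneg (pow_nonneg hc0 _) (pow_nonneg (by linarith) _))

end Pool.Agent.H15.RU
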