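import Pool.Agent.H15.RU.An

/-!
# Row Xa: the critical window, the number a

Notation `ℓ = log n`, `λ = n p`, `q = 1 - p`, `θ = λ ^ (-δ/4)`. Let `n` be large. Proof.
From `2 ℓ ≤ p m q ^ b`, `q ^ b ≤ exp (-p b)` and `n ≤ 4 b`: `p m ≥ 2 ℓ exp (p b) ≥ 2 ℓ exp (λ / 4) ≥
6 ℓ exp (1 / δ)` (λ large). Take `a = 6 ℓ / (p m) ∈ [0, 1]`. Then `(1 - p a) ^ m ≤ exp (-p a m) =
exp (-6 ℓ) = n ^ (-6)`, and `(1 - 2 p q) ^ m ≤ exp (-2 p q m) ≤ exp (-3 ℓ)` as `q ≥ exp (-1 / δ)`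
(one_sub_low).
Let `N + 1 + s ≤ n`; we need `6 ℓ ≤ p m (q ^ N + (N - 1) p q ^ (N - 1))`. If `5 N ≤ n`:
`p m q ^ N ≥ 2 ℓ q ^ N / q ^ b ≥ 2 ℓ exp (p (b - N)) ≥ 2 ℓ exp (λ / 20) ≥ 6 ℓ` (`b - N ≥ n / 20 ≥ 0`,
`q ^ (b - N) ≤ exp (-p (b - N))`). If `5 N > n`: `q ^ (N - 1) ≥ q ^ (n - s)` (as `N - 1 ≤ n - s`), so
`p m q ^ (N - 1) ≥ θ`, and `(N - 1) p ≥ (n / 5 - 1) p ≥ λ / 6` (`n ≥ 30`), so the second term is at least
`θ λ / 6 = λ ^ (1 - δ/4) / 6 ≥ 6 ℓ`: indeed `λ ≥ ℓ ^ (1 + δ)`, `δ < 1`, `(1 + δ) (1 - δ/4) ≥ 1 + δ/2`,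
and `ℓ ^ (δ/2) ≥ 36` for large `n`.
-/

set_option autoImplicit false

namespace Pool.Agent.H15.RU

theorem Xa_exp_log (n k : ℕ) (hn : 0 < n) :
    Real.exp (-((k : ℝ) * Real.log n)) = 1 / (n : ℝ) ^ k := by
  have hn' : (0 : ℝ) < n := by exact_mod_cast hn
  rw [Real.exp_neg, one_div, Real.exp_nat_mul, Real.exp_log hn']

theorem Xa_pow_large {δ : ℝ} (hδ : 0 < δ) (K : ℝ) :
    ∃ N : ℕ, ∀ n ≥ N, K ≤ Real.log n ^ (δ / 2) := by
  have h1 : Filter.Tendsto (fun n : ℕ => Real.log n ^ (δ / 2)) Filter.atTop Filter.atTop :=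
    (tendsto_rpow_atTop (by linarith)).comp
      (Real.tendsto_log_atTop.comp tendsto_natCast_atTop_atTop)
  have h2 := h1.eventually_ge_atTop K
  obtain ⟨N, hN⟩ := Filter.eventually_atTop.1 h2
  exact ⟨N, hN⟩

theorem Xa_lam {δ L lam : ℝ} (hδ : 0 < δ) (hδ1 : δ < 1) (hL : 1 ≤ L)
    (hlam : L ^ (1 + δ) ≤ lam) (h36 : 36 ≤ L ^ (δ / 2)) :
    36 * L ≤ lam * lam ^ (-(δ / 4)) := by
  have hL0 : 0 < L := by linarith
  have hlam0 : 0 < lam := lt_of_lt_of_le (Real.rpow_pos_of_pos hL0 _) hlam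
  have e1 : lam * lam ^ (-(δ / 4)) = lam ^ (1 - δ / 4) := by
    rw [sub_eq_add_neg, Real.rpow_add hlam0, Real.rpow_one]
  have e2 : (L ^ (1 + δ)) ^ (1 - δ / 4) ≤ lam ^ (1 - δ / 4) :=
    Real.rpow_le_rpow (Real.rpow_nonneg hL0.le _) hlam (by linarith)
  have e3 : (L ^ (1 + δ)) ^ (1 - δ / 4) = L ^ ((1 + δ) * (1 - δ / 4)) :=
    (Real.rpow_mul hL0.le _ _).symm
  have e4 : L ^ (1 + δ / 2) ≤ L ^ ((1 + δ) * (1 - δ / 4)) :=
    Real.rpow_le_rpow_of_exponent_le hL (by nlinarith)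
  have e5 : L ^ (1 + δ / 2) = L * L ^ (δ / 2) := by
    rw [Real.rpow_add hL0, Real.rpow_one]
  have e6 : 36 * L ≤ L * L ^ (δ / 2) := by nlinarith
  rw [e1]
  calc 36 * L ≤ L * L ^ (δ / 2) := e6
    _ = L ^ (1 + δ / 2) := e5.symm
    _ ≤ _ := e4
    _ = _ := e3.symm
    _ ≤ _ := e2

theorem zoneD_a {δ : ℝ} (hδ : 0 < δ) :
    ∃ N₀ : ℕ, ∀ n ≥ N₀, ∀ (m b s : ℕ) (p : ℝ), Reg δ n p → n ≤ 4 * b →
      2 * Real.log n ≤ p * m * (1 - p) ^ b →
      (n * p) ^ (-(δ / 4)) ≤ p * m * (1 - p) ^ (n - s) →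
      ∃ a : ℝ, 0 ≤ a ∧ a ≤ 1 ∧
        (∀ N : ℕ, N + 1 + s ≤ n →
          a ≤ (1 - p) ^ N + ((N - 1 : ℕ) : ℝ) * (p * (1 - p) ^ (N - 1))) ∧
        (1 - p * a) ^ m ≤ 1 / (n : ℝ) ^ 6 ∧ (1 - 2 * p * (1 - p)) ^ m ≤ 1 / (n : ℝ) ^ 3 := by
  obtain ⟨N1, h1⟩ := Xa_pow_large hδ 36
  obtain ⟨N2, h2⟩ := log_large 1
  obtain ⟨N3, h3⟩ := lam_large hδ (4 * (1 / δ + 2) + 40)
  refine ⟨max 30 (max N1 (max N2 N3)), ?_⟩
  intro n hn m b s p hR hb hpm hth
  have hn30 : 30 ≤ n := le_trans (le_max_left _ _) hn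
  have hnr : max N1 (max N2 N3) ≤ n := le_trans (le_max_right _ _) hn
  have hn1 : N1 ≤ n := le_trans (le_max_left _ _) hnr
  have hnr2 : max N2 N3 ≤ n := le_trans (le_max_right _ _) hnr
  have hn2 : N2 ≤ n := le_trans (le_max_left _ _) hnr2
  have hn3 : N3 ≤ n := le_trans (le_max_right _ _) hnr2
  have h36 := h1 n hn1
  have hL := h2 n hn2
  have hlam := h3 n hn3 p hR
  obtain ⟨hp0, hp1, hδ1⟩ := reg_pos hδ (by omega : 3 ≤ n) hR
  have hq0 : 0 < 1 - p := by linarith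
  have hnR : (30 : ℝ) ≤ n := by exact_mod_cast hn30
  have hbR : (n : ℝ) ≤ 4 * b := by exact_mod_cast hb
  have hδi : 0 < 1 / δ := by positivity
  set L := Real.log n with hLdef
  have hlam2 : 4 * (1 / δ + 2) + 40 ≤ n * p := by
    have : (4 * (1 / δ + 2) + 40) * 1 ≤ (4 * (1 / δ + 2) + 40) * L :=
      mul_le_mul_of_nonneg_left hL (by positivity)
    linarith
  have hexp2 : (3 : ℝ) ≤ Real.exp 2 := by
    have := Real.add_one_le_exp (2 : ℝ)
    linarith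
  have hpm0 : 0 ≤ p * m := by positivity
  -- `p m` is large
  have A1 : 2 * L * Real.exp (p * b) ≤ p * m := by
    have hq := pow_le_exp hp1.le b
    have h4 : 2 * L ≤ p * m * Real.exp (-(p * b)) :=
      hpm.trans (mul_le_mul_of_nonneg_left hq hpm0)
    have h5 : 2 * L * Real.exp (p * b) ≤ p * m * Real.exp (-(p * b)) * Real.exp (p * b) :=
      mul_le_mul_of_nonneg_right h4 (Real.exp_pos _).le
    have h6 : p * m * Real.exp (-(p * b)) * Real.exp (p * b) = p * m := by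
      rw [mul_assoc, ← Real.exp_add]
      simp
    linarith
  have A2 : 3 * Real.exp (1 / δ) ≤ Real.exp (p * b) := by
    have h4 : 1 / δ + 2 ≤ p * b := by nlinarith
    calc 3 * Real.exp (1 / δ) ≤ Real.exp 2 * Real.exp (1 / δ) :=
          mul_le_mul_of_nonneg_right hexp2 (Real.exp_pos _).le
      _ = Real.exp (1 / δ + 2) := by rw [← Real.exp_add]; ring_nf
      _ ≤ _ := Real.exp_le_exp.2 h4
  have A3 : 6 * L * Real.exp (1 / δ) ≤ p * m := by
    have : 2 * L * (3 * Real.exp (1 / δ)) ≤ 2 * L * Real.exp (p * b) :=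
      mul_le_mul_of_nonneg_left A2 (by linarith)
    linarith
  have A4 : 6 * L ≤ p * m := by
    have h4 : 1 ≤ Real.exp (1 / δ) := Real.one_le_exp hδi.le
    have : 6 * L * 1 ≤ 6 * L * Real.exp (1 / δ) :=
      mul_le_mul_of_nonneg_left h4 (by linarith)
    linarith
  have hpm1 : 0 < p * m := by linarith
  have hlow := one_sub_low hδ hp0 hR.2
  refine ⟨6 * L / (p * m), by positivity, (div_le_one hpm1).2 A4, ?_, ?_, ?_⟩
  · intro N hN
    rw [div_le_iff₀ hpm1]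
    by_cases h5 : 5 * N ≤ n
    · have h5R : 5 * (N : ℝ) ≤ n := by exact_mod_cast h5
      have hNb : N ≤ b := by omega
      have hsplit : (1 - p) ^ b = (1 - p) ^ (b - N) * (1 - p) ^ N := by
        rw [← pow_add, Nat.sub_add_cancel hNb]
      have hq := pow_le_exp hp1.le (b - N)
      rw [Nat.cast_sub hNb] at hq
      have hqN : 0 < (1 - p) ^ N := pow_pos hq0 N
      have B1 : 2 * L ≤ p * m * (1 - p) ^ N * Real.exp (-(p * (b - N))) := by
        calc 2 * L ≤ p * m * (1 - p) ^ b := hpm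
          _ = p * m * (1 - p) ^ N * (1 - p) ^ (b - N) := by rw [hsplit]; ring
          _ ≤ _ := mul_le_mul_of_nonneg_left hq (by positivity)
      have B2 : 2 * L * Real.exp (p * (b - N)) ≤ p * m * (1 - p) ^ N := by
        have h6 := mul_le_mul_of_nonneg_right B1 (Real.exp_pos (p * (b - N))).le
        have h7 : p * m * (1 - p) ^ N * Real.exp (-(p * (b - N))) * Real.exp (p * (b - N))
            = p * m * (1 - p) ^ N := by
          rw [mul_assoc, ← Real.exp_add]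
          simp
        linarith
      have B3 : (3 : ℝ) ≤ Real.exp (p * (b - N)) := by
        refine hexp2.trans (Real.exp_le_exp.2 ?_)
        have h8 : (n : ℝ) / 20 ≤ b - N := by linarith
        have h9 : p * (n / 20) ≤ p * (b - N) := mul_le_mul_of_nonneg_left h8 hp0.le
        have h10 : p * ((n : ℝ) / 20) = n * p / 20 := by ring
        linarith
      have B4 : 2 * L * 3 ≤ 2 * L * Real.exp (p * (b - N)) :=
        mul_le_mul_of_nonneg_left B3 (by linarith)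
      have B5 : 0 ≤ ((N - 1 : ℕ) : ℝ) * (p * (1 - p) ^ (N - 1)) * (p * m) := by positivity
      have B6 : ((1 - p) ^ N + ((N - 1 : ℕ) : ℝ) * (p * (1 - p) ^ (N - 1))) * (p * m)
          = p * m * (1 - p) ^ N + ((N - 1 : ℕ) : ℝ) * (p * (1 - p) ^ (N - 1)) * (p * m) := by
        ring
      rw [B6]
      linarith
    · push Not at h5
      have hN1 : 1 ≤ N := by omega
      have h5R : (n : ℝ) < 5 * N := by exact_mod_cast h5
      have hle : N - 1 ≤ n - s := by omega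
      have hmono : (1 - p) ^ (n - s) ≤ (1 - p) ^ (N - 1) :=
        pow_le_pow_of_le_one hq0.le (by linarith) hle
      have C1 : (n * p) ^ (-(δ / 4)) ≤ p * m * (1 - p) ^ (N - 1) :=
        hth.trans (mul_le_mul_of_nonneg_left hmono hpm0)
      have C2 : n * p / 6 ≤ ((N - 1 : ℕ) : ℝ) * p := by
        rw [Nat.cast_sub hN1]
        push_cast
        have : (n : ℝ) / 6 ≤ N - 1 := by linarith
        have h9 : (n : ℝ) / 6 * p ≤ (N - 1) * p := mul_le_mul_of_nonneg_right this hp0.le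
        have h10 : (n : ℝ) / 6 * p = n * p / 6 := by ring
        linarith
      have C3 : n * p / 6 * (n * p) ^ (-(δ / 4)) ≤
          ((N - 1 : ℕ) : ℝ) * p * (p * m * (1 - p) ^ (N - 1)) :=
        mul_le_mul C2 C1 (Real.rpow_nonneg (by positivity) _) (by positivity)
      have C4 := Xa_lam hδ hδ1 hL hR.1 h36
      have C5 : 0 ≤ (1 - p) ^ N * (p * m) := by positivity
      have C6 : ((1 - p) ^ N + ((N - 1 : ℕ) : ℝ) * (p * (1 - p) ^ (N - 1))) * (p * m)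
          = (1 - p) ^ N * (p * m) + ((N - 1 : ℕ) : ℝ) * p * (p * m * (1 - p) ^ (N - 1)) := by
        ring
      rw [C6]
      have C7 : n * p / 6 * (n * p) ^ (-(δ / 4)) = (n * p * (n * p) ^ (-(δ / 4))) / 6 := by ring
      linarith
  · have hpa : p * (6 * L / (p * m)) ≤ 1 := by
      have h4 : 6 * L / (p * m) ≤ 1 := (div_le_one hpm1).2 A4
      have h5 : 0 ≤ 6 * L / (p * m) := by positivity
      nlinarith
    refine (pow_le_exp hpa m).trans (le_of_eq ?_)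
    have h6 : p * (6 * L / (p * m)) * m = ((6 : ℕ) : ℝ) * L := by
      have : p * (6 * L / (p * m)) * m = 6 * L * ((p * m) / (p * m)) := by ring
      rw [this, div_self hpm1.ne']
      norm_num
    rw [h6, hLdef]
    exact Xa_exp_log n 6 (by omega)
  · have hpq : 2 * p * (1 - p) ≤ 1 := by nlinarith [sq_nonneg (2 * p - 1)]
    refine (pow_le_exp hpq m).trans ?_
    rw [← Xa_exp_log n 3 (by omega)]
    refine Real.exp_le_exp.2 (neg_le_neg ?_)
    have h7 : 6 * L ≤ p * m * (1 - p) := by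
      calc 6 * L = 6 * L * Real.exp (1 / δ) * Real.exp (-(1 / δ)) := by
            rw [mul_assoc, ← Real.exp_add]; simp
        _ ≤ p * m * (1 - p) := mul_le_mul A3 hlow (Real.exp_pos _).le hpm0
    have h8 : 2 * p * (1 - p) * m = 2 * (p * m * (1 - p)) := by ring
    rw [h8]
    push_cast
    linarith

end Pool.Agent.H15.RU
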