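import Pool.Agent.H15.RU.An
import Pool.Agent.H15.RU.Bn

/-!
# Row Xv: the critical window, members of middle size

Notation `ℓ = log n`, `λ = n p`, `L = -log (1 - p)` (`p ≤ L ≤ p / δ`, `L ≤ 1 / δ`, `L_bounds`),
`θ = λ ^ (-δ/4)`, `E = K (ℓ + log ℓ / p)`. Proof. Take `k = ⌈log λ / (2 L)⌉₊`; then `k ≥ 1`,
`p k ≥ δ L k ≥ δ log λ / 2`, `k ≥ δ log λ / (2 p)`, and `L k ≤ log λ / 2 + L ≤ log λ / 2 + 1 / δ`.
(1) If `k > m` then `m.choose k = 0`. Otherwise `m.choose k ≤ (exp 1 * m / k) ^ k` (sum_choose_le), so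
`m.choose k * ρ ^ k ≤ (exp 1 * m * ρ / k) ^ k`, and `m ρ ≤ θ / p`, so the base is at most
`exp 1 * θ / (p k) ≤ θ` once `log λ ≥ 2 exp 1 / δ`. So the first term is at most
`θ ^ k = exp (-(δ / 4) log λ k) ≤ exp (-(δ² / 8) (log λ)² / p)`. With `8 (4 n + 1) (n + 1) ≤ exp (4 ℓ)`
(large `n`) it is enough that `(δ² / 8) (log λ)² / p ≥ (K + K') (ℓ + log ℓ / p)`, `K' = 5`, and
`exp (-ℓ) ≤ ε / 2`: this is `an_sq` with the constant `8 (K + 5) / δ²`.
(2) `(1 - p) ^ k = exp (-L k) ≥ exp (-1 / δ) λ ^ (-1/2)`, so `(1 - (1 - p) ^ k) ^ (n / 4) ≤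
exp (-(n / 8) exp (-1 / δ) λ ^ (-1/2))` (`n / 4 ≥ n / 8` for the natural number division, `n ≥ 8`), and
`(1 + ρ) ^ m ≤ exp (m ρ) ≤ exp (θ / p) = exp (n λ ^ (-1 - δ/4)) ≤ exp ((n / 16) exp (-1 / δ) λ ^ (-1/2))`
for large `n` (`λ ^ (-1/2 - δ/4) ≤ exp (-1 / δ) / 16`). The product is at most
`exp (-(n / 16) exp (-1 / δ) λ ^ (-1/2))`, and `an_root` with the constant `16 exp (1 / δ) (K + 5)`
finishes as in (1).
-/

set_option autoImplicit false

namespace Pool.Agent.H15.RU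

theorem Xv_fin {n : ℕ} {p ε K T X : ℝ} (hn : 9 ≤ n) (hp : 0 < p)
    (hll : 0 ≤ Real.log (Real.log n)) (hε : Real.exp (-Real.log n) ≤ ε / 2)
    (hT : T ≤ Real.exp (-X))
    (hX : (K + 5) * (Real.log n + Real.log (Real.log n) / p) ≤ X) :
    8 * (4 * (n : ℝ) + 1) * (n + 1) * T ≤
      ε / 2 * Real.exp (-(K * (Real.log n + Real.log (Real.log n) / p))) := by
  have hn' : (9 : ℝ) ≤ n := by exact_mod_cast hn
  have hn0 : (0 : ℝ) < n := by linarith
  have h1 : 8 * (4 * (n : ℝ) + 1) * (n + 1) ≤ Real.exp (4 * Real.log n) := by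
    have h2 : Real.exp (4 * Real.log n) = (n : ℝ) ^ 4 := by
      rw [show (4 : ℝ) * Real.log n = ((4 : ℕ) : ℝ) * Real.log n by norm_num, Real.exp_nat_mul,
        Real.exp_log hn0]
    rw [h2]
    have h3 : (81 : ℝ) ≤ (n : ℝ) ^ 2 := by nlinarith
    have h4 : (81 : ℝ) * (n : ℝ) ^ 2 ≤ (n : ℝ) ^ 4 := by nlinarith
    nlinarith
  have hq : 0 ≤ Real.log (Real.log n) / p := div_nonneg hll hp.le
  have hP : 0 ≤ 8 * (4 * (n : ℝ) + 1) * (n + 1) := by positivity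
  generalize Real.log (Real.log n) / p = q at *
  generalize hℓ : Real.log n = ℓ at *
  calc 8 * (4 * (n : ℝ) + 1) * (n + 1) * T
      ≤ 8 * (4 * (n : ℝ) + 1) * (n + 1) * Real.exp (-X) := mul_le_mul_of_nonneg_left hT hP
    _ ≤ Real.exp (4 * ℓ) * Real.exp (-X) := mul_le_mul_of_nonneg_right h1 (Real.exp_pos _).le
    _ = Real.exp (4 * ℓ + -X) := (Real.exp_add _ _).symm
    _ ≤ Real.exp (-ℓ + -(K * (ℓ + q))) := by
        apply Real.exp_le_exp.2
        have h5 : (K + 5) * (ℓ + q) = K * (ℓ + q) + 5 * ℓ + 5 * q := by ring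
        linarith
    _ = Real.exp (-ℓ) * Real.exp (-(K * (ℓ + q))) := Real.exp_add _ _
    _ ≤ ε / 2 * Real.exp (-(K * (ℓ + q))) := mul_le_mul_of_nonneg_right hε (Real.exp_pos _).le

theorem Xv_T1 {m k : ℕ} {p ρ θ : ℝ} (hk : 1 ≤ k) (hρ : 0 ≤ ρ) (hθ : 0 ≤ θ)
    (hm : p * m * ρ ≤ θ) (hpk : Real.exp 1 ≤ p * k) : m.choose k * ρ ^ k ≤ θ ^ k := by
  rcases lt_or_ge m k with h | h
  · rw [Nat.choose_eq_zero_of_lt h, Nat.cast_zero, zero_mul]
    positivity
  · have hk0 : (0 : ℝ) < k := by exact_mod_cast hk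
    have h1 : (m.choose k : ℝ) ≤ (Real.exp 1 * m / k) ^ k := by
      refine le_trans ?_ (sum_choose_le hk h)
      exact Finset.single_le_sum (f := fun i => (m.choose i : ℝ)) (fun i _ => Nat.cast_nonneg _)
        (Finset.mem_range.2 (Nat.lt_succ_self k))
    have h2 : Real.exp 1 * m / k * ρ ≤ θ := by
      rw [div_mul_eq_mul_div, div_le_iff₀ hk0]
      have h3 : 0 ≤ (m : ℝ) * ρ := mul_nonneg (Nat.cast_nonneg _) hρ
      have h4 := mul_le_mul_of_nonneg_right hpk h3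
      have h5 := mul_le_mul_of_nonneg_right hm hk0.le
      calc Real.exp 1 * m * ρ = Real.exp 1 * (m * ρ) := by ring
        _ ≤ p * k * (m * ρ) := h4
        _ = p * m * ρ * k := by ring
        _ ≤ θ * k := h5
    calc (m.choose k : ℝ) * ρ ^ k ≤ (Real.exp 1 * m / k) ^ k * ρ ^ k :=
          mul_le_mul_of_nonneg_right h1 (by positivity)
      _ = (Real.exp 1 * m / k * ρ) ^ k := (mul_pow _ _ _).symm
      _ ≤ θ ^ k := pow_le_pow_left₀ (by positivity) h2 k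

theorem Xv_T2 {n m k : ℕ} {p ρ y : ℝ} (hn : 8 ≤ n) (hp : 0 < p) (hp1 : p < 1) (hρ : 0 ≤ ρ)
    (hy : y ≤ (1 - p) ^ k) (hy0 : 0 ≤ y) (hm : m * ρ ≤ n / 16 * y) :
    (1 - (1 - p) ^ k) ^ (n / 4) * (1 + ρ) ^ m ≤ Real.exp (-(n / 16 * y)) := by
  have h0 : 0 ≤ 1 - (1 - p) ^ k := by
    have := pow_le_one₀ (n := k) (by linarith : 0 ≤ 1 - p) (by linarith : 1 - p ≤ 1)
    linarith
  have h1 : 1 - (1 - p) ^ k ≤ Real.exp (-y) := by
    have := Real.add_one_le_exp (-y)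
    linarith
  have h2 : (1 - (1 - p) ^ k) ^ (n / 4) ≤ Real.exp (-(n / 8 * y)) := by
    calc (1 - (1 - p) ^ k) ^ (n / 4) ≤ Real.exp (-y) ^ (n / 4) := pow_le_pow_left₀ h0 h1 _
      _ = Real.exp (((n / 4 : ℕ) : ℝ) * -y) := (Real.exp_nat_mul _ _).symm
      _ ≤ Real.exp (-(n / 8 * y)) := by
          apply Real.exp_le_exp.2
          have h3 : n ≤ 8 * (n / 4) := by omega
          have h4 : (n : ℝ) ≤ 8 * ((n / 4 : ℕ) : ℝ) := by exact_mod_cast h3
          have h5 : (n : ℝ) / 8 ≤ ((n / 4 : ℕ) : ℝ) := by linarith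
          have h6 := mul_le_mul_of_nonneg_right h5 hy0
          linarith
  have h7 : (1 + ρ) ^ m ≤ Real.exp (n / 16 * y) := by
    calc (1 + ρ) ^ m ≤ Real.exp ρ ^ m := by
          refine pow_le_pow_left₀ (by linarith) ?_ _
          have := Real.add_one_le_exp ρ
          linarith
      _ = Real.exp (m * ρ) := (Real.exp_nat_mul _ _).symm
      _ ≤ Real.exp (n / 16 * y) := Real.exp_le_exp.2 hm
  calc (1 - (1 - p) ^ k) ^ (n / 4) * (1 + ρ) ^ m
      ≤ Real.exp (-(n / 8 * y)) * Real.exp (n / 16 * y) :=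
        mul_le_mul h2 h7 (by positivity) (Real.exp_pos _).le
    _ = Real.exp (-(n / 16 * y)) := by
        rw [← Real.exp_add]
        congr 1
        ring

theorem zoneD_V {δ ε : ℝ} (hδ : 0 < δ) (hε : 0 < ε) (K : ℝ) (hK : 0 ≤ K) :
    ∃ N : ℕ, ∀ n ≥ N, ∀ (m : ℕ) (p ρ : ℝ), Reg δ n p → 0 ≤ ρ →
      p * m * ρ ≤ (n * p) ^ (-(δ / 4)) →
      ∃ k : ℕ, 8 * (4 * (n : ℝ) + 1) * (n + 1) *
        (m.choose k * ρ ^ k + (1 - (1 - p) ^ k) ^ (n / 4) * (1 + ρ) ^ m) ≤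
        ε * Real.exp (-(K * (Real.log n + Real.log (Real.log n) / p))) := by
  obtain ⟨N1, hN1⟩ := an_sq hδ (8 * (K + 5) / δ ^ 2)
  obtain ⟨N2, hN2⟩ := an_root hδ (16 * Real.exp (1 / δ) * (K + 5))
  obtain ⟨N3, hN3⟩ := loglog_large 0
  obtain ⟨N4, hN4⟩ := log_large (max 1 (-Real.log (ε / 2)))
  obtain ⟨N5, hN5⟩ := lam_large hδ (Real.exp (2 * Real.exp 1 / δ + (Real.log 256 + 2 / δ)))
  refine ⟨N1 + N2 + N3 + N4 + N5 + 9, fun n hn m p ρ hreg hρ hm => ?_⟩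
  have e1 := hN1 n (by omega) p hreg
  have e2 := hN2 n (by omega) p hreg
  have e3 := hN3 n (by omega)
  have e4 := hN4 n (by omega)
  have e5 := hN5 n (by omega) p hreg
  obtain ⟨hp, hp1, hδ1⟩ := reg_pos hδ (by omega : 3 ≤ n) hreg
  have hn0 : (0 : ℝ) < n := by
    have : 0 < n := by omega
    exact_mod_cast this
  have hℓ1 : 1 ≤ Real.log n := (le_max_left _ _).trans e4
  have hεn : Real.exp (-Real.log n) ≤ ε / 2 := by
    have h1 : -Real.log (ε / 2) ≤ Real.log n := (le_max_right _ _).trans e4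
    calc Real.exp (-Real.log n) ≤ Real.exp (Real.log (ε / 2)) := Real.exp_le_exp.2 (by linarith)
      _ = ε / 2 := Real.exp_log (by linarith)
  obtain ⟨L1, L2, L3⟩ := L_bounds hδ hp hreg.2
  have hlam0 : 0 < (n : ℝ) * p := mul_pos hn0 hp
  have hq1 : 0 < 2 * Real.exp 1 / δ := by positivity
  have hq2 : 0 < Real.log 256 + 2 / δ := by
    have : 0 < Real.log 256 := Real.log_pos (by norm_num)
    positivity
  have hlamB : 2 * Real.exp 1 / δ + (Real.log 256 + 2 / δ) ≤ Real.log (n * p) := by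
    rw [Real.le_log_iff_exp_le hlam0]
    refine le_trans ?_ e5
    have := mul_le_mul_of_nonneg_left hℓ1
      (Real.exp_pos (2 * Real.exp 1 / δ + (Real.log 256 + 2 / δ))).le
    linarith
  set lam : ℝ := n * p with hlam
  set Λ : ℝ := Real.log lam with hΛ
  set L : ℝ := -Real.log (1 - p) with hL
  have hΛ0 : 0 < Λ := by linarith
  have hL0 : 0 < L := by linarith
  refine ⟨⌈Λ / (2 * L)⌉₊, ?_⟩
  have hk1 : Λ / (2 * L) ≤ (⌈Λ / (2 * L)⌉₊ : ℝ) := Nat.le_ceil _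
  have hk2 : (⌈Λ / (2 * L)⌉₊ : ℝ) < Λ / (2 * L) + 1 := Nat.ceil_lt_add_one (by positivity)
  have hk3 : 1 ≤ ⌈Λ / (2 * L)⌉₊ := Nat.one_le_ceil_iff.2 (by positivity)
  generalize ⌈Λ / (2 * L)⌉₊ = k at *
  have hk0 : (0 : ℝ) ≤ k := Nat.cast_nonneg _
  have hLk : Λ / 2 ≤ L * k := by
    have h1 := mul_le_mul_of_nonneg_left hk1 hL0.le
    have h2 : L * (Λ / (2 * L)) = Λ / 2 := by field_simp
    linarith
  have hLk2 : L * k ≤ Λ / 2 + 1 / δ := by
    have h1 := mul_le_mul_of_nonneg_left hk2.le hL0.le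
    have h2 : L * (Λ / (2 * L) + 1) = Λ / 2 + L := by field_simp
    linarith
  have hpL : δ * L ≤ p := by
    have := (le_div_iff₀ hδ).1 L2
    linarith
  have hpk : δ * Λ / 2 ≤ p * k := by
    have h1 := mul_le_mul_of_nonneg_right hpL hk0
    have h2 := mul_le_mul_of_nonneg_left hLk hδ.le
    nlinarith
  have hpke : Real.exp 1 ≤ p * k := by
    refine le_trans ?_ hpk
    have h1 : 2 * Real.exp 1 / δ ≤ Λ := by linarith
    rw [div_le_iff₀ hδ] at h1
    linarith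
  have hθ0 : 0 ≤ lam ^ (-(δ / 4)) := (Real.rpow_pos_of_pos hlam0 _).le
  -- first term
  have t1 : m.choose k * ρ ^ k ≤ Real.exp (-(δ ^ 2 / 8 * (Λ ^ 2 / p))) := by
    refine (Xv_T1 hk3 hρ hθ0 hm hpke).trans ?_
    rw [Real.rpow_def_of_pos hlam0, ← Real.exp_nat_mul]
    apply Real.exp_le_exp.2
    have h1 : δ * Λ / (2 * p) ≤ k := by
      rw [div_le_iff₀ (by positivity)]
      linarith
    have h2 : δ / 4 * Λ * (δ * Λ / (2 * p)) ≤ δ / 4 * Λ * k :=
      mul_le_mul_of_nonneg_left h1 (by positivity)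
    have h3 : δ / 4 * Λ * (δ * Λ / (2 * p)) = δ ^ 2 / 8 * (Λ ^ 2 / p) := by
      field_simp
      ring
    rw [h3] at h2
    have h4 : (k : ℝ) * (Real.log lam * -(δ / 4)) = -(δ / 4 * Λ * k) := by
      rw [← hΛ]
      ring
    rw [h4]
    linarith
  have x1 : (K + 5) * (Real.log n + Real.log (Real.log n) / p) ≤ δ ^ 2 / 8 * (Λ ^ 2 / p) := by
    have h1 : (K + 5) * (p * Real.log n + Real.log (Real.log n)) ≤ δ ^ 2 / 8 * Λ ^ 2 := by
      have h2 := mul_le_mul_of_nonneg_left e1 (by positivity : 0 ≤ δ ^ 2 / 8)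
      have h3 : δ ^ 2 / 8 * (8 * (K + 5) / δ ^ 2 * (p * Real.log n + Real.log (Real.log n))) =
          (K + 5) * (p * Real.log n + Real.log (Real.log n)) := by
        field_simp
      linarith
    have h4 : (K + 5) * (Real.log n + Real.log (Real.log n) / p) =
        ((K + 5) * (p * Real.log n + Real.log (Real.log n))) / p := by
      field_simp
    have h5 : δ ^ 2 / 8 * (Λ ^ 2 / p) = (δ ^ 2 / 8 * Λ ^ 2) / p := by ring
    rw [h4, h5]
    exact div_le_div_of_nonneg_right h1 hp.le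
  have f1 := Xv_fin (K := K) (by omega : 9 ≤ n) hp e3 hεn t1 x1
  -- second term
  have hy : Real.exp (-(1 / δ)) * lam ^ (-(1 / 2) : ℝ) ≤ (1 - p) ^ k := by
    have h1 : (1 - p) ^ k = Real.exp (-(L * k)) := by
      have h2 : (1 - p) = Real.exp (-L) := by
        rw [hL, neg_neg, Real.exp_log (by linarith)]
      rw [h2, ← Real.exp_nat_mul]
      congr 1
      ring
    rw [h1, Real.rpow_def_of_pos hlam0, ← Real.exp_add]
    apply Real.exp_le_exp.2
    have h3 : Real.log lam = Λ := rfl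
    rw [h3]
    linarith
  have hy0 : 0 ≤ Real.exp (-(1 / δ)) * lam ^ (-(1 / 2) : ℝ) := by
    have := Real.rpow_pos_of_pos hlam0 (-(1 / 2) : ℝ)
    positivity
  have hmr : m * ρ ≤ n / 16 * (Real.exp (-(1 / δ)) * lam ^ (-(1 / 2) : ℝ)) := by
    have h1 : m * ρ ≤ lam ^ (-(δ / 4)) / p := by
      rw [le_div_iff₀ hp]
      linarith
    have h2 : lam ^ (-(δ / 4)) / p = n * (lam ^ (-(δ / 4)) / lam) := by
      rw [hlam]
      field_simp
    have h3 : lam ^ (-(δ / 4)) / lam = Real.exp (-(δ / 4 * Λ) - Λ) := by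
      rw [Real.exp_sub, Real.rpow_def_of_pos hlam0]
      have h4 : Real.exp Λ = lam := Real.exp_log hlam0
      rw [h4]
      congr 2
      rw [← hΛ]
      ring
    have h5 : Real.exp (-(1 / δ)) * lam ^ (-(1 / 2) : ℝ) = Real.exp (-(1 / δ) - Λ / 2) := by
      rw [Real.rpow_def_of_pos hlam0, ← Real.exp_add]
      congr 1
      rw [← hΛ]
      ring
    have h6 : Real.exp (-(δ / 4 * Λ) - Λ) ≤ 1 / 16 * Real.exp (-(1 / δ) - Λ / 2) := by
      have h7 : (1 : ℝ) / 16 = Real.exp (-(Real.log 256 / 2)) := by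
        have h8 : Real.log 256 = 2 * Real.log 16 := by
          rw [show (256 : ℝ) = 16 ^ 2 by norm_num, Real.log_pow]
          push_cast
          ring
        rw [h8, mul_div_cancel_left₀ _ (two_ne_zero), Real.exp_neg, Real.exp_log (by norm_num)]
        norm_num
      rw [h7, ← Real.exp_add]
      apply Real.exp_le_exp.2
      have h9 : 0 ≤ δ / 4 * Λ := by positivity
      have h10 : Real.log 256 + 2 / δ ≤ Λ := by linarith
      have h11 : 2 / δ = 2 * (1 / δ) := by ring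
      linarith
    rw [h5]
    calc (m : ℝ) * ρ ≤ n * (lam ^ (-(δ / 4)) / lam) := h2 ▸ h1
      _ = n * Real.exp (-(δ / 4 * Λ) - Λ) := by rw [h3]
      _ ≤ n * (1 / 16 * Real.exp (-(1 / δ) - Λ / 2)) := mul_le_mul_of_nonneg_left h6 hn0.le
      _ = n / 16 * Real.exp (-(1 / δ) - Λ / 2) := by ring
  have t2 := Xv_T2 (by omega : 8 ≤ n) hp hp1 hρ hy hy0 hmr
  have x2 : (K + 5) * (Real.log n + Real.log (Real.log n) / p) ≤
      n / 16 * (Real.exp (-(1 / δ)) * lam ^ (-(1 / 2) : ℝ)) := by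
    have h2 := mul_le_mul_of_nonneg_left e2 (by positivity : 0 ≤ Real.exp (-(1 / δ)) / 16)
    have h4 : Real.exp (-(1 / δ)) * Real.exp (1 / δ) = 1 := by
      rw [← Real.exp_add, neg_add_cancel, Real.exp_zero]
    have h3 : Real.exp (-(1 / δ)) / 16 * (16 * Real.exp (1 / δ) * (K + 5) *
        (Real.log n + Real.log (Real.log n) / p)) =
        (Real.exp (-(1 / δ)) * Real.exp (1 / δ)) * ((K + 5) * (Real.log n + Real.log (Real.log n) / p)) := by
      ring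
    rw [h3, h4, one_mul] at h2
    calc (K + 5) * (Real.log n + Real.log (Real.log n) / p) ≤ _ := h2
      _ = n / 16 * (Real.exp (-(1 / δ)) * lam ^ (-(1 / 2) : ℝ)) := by ring
  have f2 := Xv_fin (K := K) (by omega : 9 ≤ n) hp e3 hεn t2 x2
  rw [mul_add]
  linarith

end Pool.Agent.H15.RU
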