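import Pool.Agent.H15.RU.Tr
import Pool.Agent.H15.RU.Fm

/-!
# Row Ub: collections of rows that are not closed

Proofs. `choose_le`: call `S` with `S.card = j` closed if there is no `i ∉ S` with `M i ⊆ un M S`.
A closed `S` is `{i | M i ⊆ un M S}`, so `un M` is injective on the closed sets, with values in
`fam M`; the number of the sets of cardinality `j` that are not closed is at most `(ncl M j).card`
(the first projection of `ncl M j`).
`Ex_ncl`: `(ncl M j).card` is the sum over the pairs `(S, i)`, `S.card = j`, `i ∉ S`, of the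
indicator of `M i ⊆ un M S`, i.e. of `∏ x, (if i ∈ tr M x ∧ Disjoint (tr M x) S then 0 else 1)`
(`x ∈ M i` and `x ∉ un M S`). By `Ex_col` its expectation is
`∏ x, (1 - p * (1 - p) ^ j) = (1 - p * (1 - p) ^ j) ^ n` (`sum_wr` minus `sum_mem_dis`). There are at
most `m.choose j * m` pairs.
-/

set_option autoImplicit false

open Finset

namespace Pool.Agent.H15.RU

variable {m n : ℕ} {p : ℝ}

/-- `S` has `j` elements and `i ∉ S` is a row inside the union of the rows of `S` -/
def ncl (M : Mat m n) (j : ℕ) : Finset (Finset (Fin m) × Fin m) :=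
  univ.filter fun Si => Si.1.card = j ∧ Si.2 ∉ Si.1 ∧ M Si.2 ⊆ un M Si.1

theorem choose_le (M : Mat m n) (j : ℕ) : m.choose j ≤ (fam M).card + (ncl M j).card := by
  classical
  have h0 : (powersetCard j (univ : Finset (Fin m))).card = m.choose j := by
    rw [card_powersetCard, card_univ, Fintype.card_fin]
  rw [← h0, ← card_filter_add_card_filter_not
    (s := powersetCard j (univ : Finset (Fin m))) (fun S => ∀ i, i ∉ S → ¬ M i ⊆ un M S)]
  have key : ∀ S ∈ (powersetCard j (univ : Finset (Fin m))).filter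
      (fun S => ∀ i, i ∉ S → ¬ M i ⊆ un M S), S = univ.filter fun i => M i ⊆ un M S := by
    intro S hS
    ext i
    rw [mem_filter]
    constructor
    · intro hi
      exact ⟨mem_univ i, subset_biUnion_of_mem M hi⟩
    · intro hi
      by_contra hcon
      exact (mem_filter.1 hS).2 i hcon hi.2
  refine Nat.add_le_add ?_ ?_
  · refine card_le_card_of_injOn (un M) (fun S _ => un_mem M S) ?_
    intro S hS S' hS' h
    rw [key S hS, key S' hS']
    have h' : un M S = un M S' := h
    rw [h']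
  · refine le_trans (card_le_card ?_) (card_image_le (s := ncl M j) (f := Prod.fst))
    intro S hS
    obtain ⟨hS1, hS2⟩ := mem_filter.1 hS
    push Not at hS2
    obtain ⟨i, hi1, hi2⟩ := hS2
    refine mem_image.2 ⟨(S, i), ?_, rfl⟩
    exact mem_filter.2 ⟨mem_univ _, (mem_powersetCard.1 hS1).2, hi1, hi2⟩

private theorem Ub_ind (M : Mat m n) (S : Finset (Fin m)) (i : Fin m) :
    (if M i ⊆ un M S then (1 : ℝ) else 0) =
      ∏ x, (if i ∈ tr M x ∧ Disjoint (tr M x) S then (0 : ℝ) else 1) := by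
  have key : ∀ x, (i ∈ tr M x ∧ Disjoint (tr M x) S) ↔ (x ∈ M i ∧ x ∉ un M S) := by
    intro x
    rw [mem_tr]
    refine and_congr_right fun _ => ?_
    rw [disjoint_right, un, mem_biUnion]
    push Not
    exact forall₂_congr fun a _ => by rw [mem_tr]
  by_cases h : M i ⊆ un M S
  · rw [if_pos h]
    symm
    refine prod_eq_one fun x _ => ?_
    rw [if_neg]
    rw [key]
    rintro ⟨h1, h2⟩
    exact h2 (h h1)
  · rw [if_neg h]
    obtain ⟨x, hx1, hx2⟩ := not_subset.1 h
    symm
    refine prod_eq_zero (mem_univ x) ?_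
    rw [if_pos ((key x).2 ⟨hx1, hx2⟩)]

private theorem Ub_Ex {S : Finset (Fin m)} {i : Fin m} (hi : i ∉ S) :
    Ex p (fun M : Mat m n => if M i ⊆ un M S then (1 : ℝ) else 0) =
      (1 - p * (1 - p) ^ S.card) ^ n := by
  simp only [Ub_ind]
  rw [Ex_col (fun _ T => if i ∈ T ∧ Disjoint T S then (0 : ℝ) else 1)]
  have h1 : ∑ T : Finset (Fin m), wr p T * (if i ∈ T ∧ Disjoint T S then (0 : ℝ) else 1) =
      1 - p * (1 - p) ^ S.card := by
    have h2 : ∑ T : Finset (Fin m), wr p T * (if i ∈ T ∧ Disjoint T S then (0 : ℝ) else 1) +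
        ∑ T : Finset (Fin m), wr p T * (if i ∈ T ∧ Disjoint T S then (1 : ℝ) else 0) = 1 := by
      rw [← sum_add_distrib]
      refine (sum_congr rfl fun T _ => ?_).trans (sum_wr (p := p) (n := m))
      split_ifs <;> ring
    rw [sum_mem_dis hi] at h2
    linarith
  rw [h1, prod_const, card_univ, Fintype.card_fin]

theorem Ex_ncl (h0 : 0 ≤ p) (h1 : p ≤ 1) (j : ℕ) :
    Ex p (fun M : Mat m n => ((ncl M j).card : ℝ)) ≤
      m.choose j * m * (1 - p * (1 - p) ^ j) ^ n := by
  have hq0 : 0 ≤ 1 - p := by linarith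
  have hq1 : (1 - p) ^ j ≤ 1 := pow_le_one₀ hq0 (by linarith)
  have hc : 0 ≤ 1 - p * (1 - p) ^ j := by
    have : p * (1 - p) ^ j ≤ 1 * 1 := mul_le_mul h1 hq1 (pow_nonneg hq0 j) zero_le_one
    linarith
  have e : (fun M : Mat m n => ((ncl M j).card : ℝ)) = fun M : Mat m n =>
      ∑ Si ∈ (univ : Finset (Finset (Fin m) × Fin m)).filter
        (fun Si => Si.1.card = j ∧ Si.2 ∉ Si.1), if M Si.2 ⊆ un M Si.1 then (1 : ℝ) else 0 := by
    funext M
    rw [← sum_filter, sum_const, nsmul_eq_mul, mul_one, filter_filter, ncl]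
    congr 2
    ext Si
    simp only [mem_filter, mem_univ, true_and, and_assoc]
  rw [e, Ex_sum]
  have h2 : ∀ Si ∈ (univ : Finset (Finset (Fin m) × Fin m)).filter
      (fun Si => Si.1.card = j ∧ Si.2 ∉ Si.1),
      Ex p (fun M : Mat m n => if M Si.2 ⊆ un M Si.1 then (1 : ℝ) else 0) =
        (1 - p * (1 - p) ^ j) ^ n := by
    intro Si hSi
    obtain ⟨_, hS1, hS2⟩ := mem_filter.1 hSi
    rw [Ub_Ex hS2, hS1]
  rw [sum_congr rfl h2, sum_const, nsmul_eq_mul]
  refine mul_le_mul_of_nonneg_right ?_ (pow_nonneg hc n)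
  have h3 : (univ : Finset (Finset (Fin m) × Fin m)).filter
      (fun Si => Si.1.card = j ∧ Si.2 ∉ Si.1) ⊆
        (powersetCard j (univ : Finset (Fin m))) ×ˢ (univ : Finset (Fin m)) := by
    intro Si hSi
    obtain ⟨_, hS1, _⟩ := mem_filter.1 hSi
    exact mem_product.2 ⟨mem_powersetCard.2 ⟨subset_univ _, hS1⟩, mem_univ _⟩
  have h4 := card_le_card h3
  rw [card_product, card_powersetCard, card_univ, Fintype.card_fin] at h4
  exact_mod_cast h4

end Pool.Agent.H15.RU
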