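import Pool.Agent.H15.RU.Tr
import Pool.Agent.H15.RU.Fm

/-!
# Row Uc: uncovered points

Proofs. `choose_le_unc`: a set `X` with `n - b` elements is in `fam M` or has an uncovered point
(`exists_unc`), i.e. is a first projection of an element of `unc M b`; there are
`n.choose (n - b) = n.choose b` such sets.
`Ex_unc`: `(unc M b).card` is the sum over the pairs `(X, x)`, `X.card = n - b`, `x ∈ X`, of
`∏ i, (if x ∈ M i ∧ M i ⊆ X then 0 else 1)`, with expectation
`(1 - p * (1 - p) ^ (n - X.card)) ^ m = (1 - p * (1 - p) ^ b) ^ m` (`Ex_prod`, `sum_wr` minus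
`sum_mem_sub`). There are at most `n.choose b * n` pairs.
-/

set_option autoImplicit false

open Finset

namespace Pool.Agent.H15.RU

variable {m n : ℕ} {p : ℝ}

/-- `X` has `n - b` elements and `x ∈ X` is in no row inside `X` -/
def unc (M : Mat m n) (b : ℕ) : Finset (Finset (Fin n) × Fin n) :=
  univ.filter fun Xx => Xx.1.card = n - b ∧ Xx.2 ∈ Xx.1 ∧ ∀ i, ¬ (Xx.2 ∈ M i ∧ M i ⊆ Xx.1)

theorem choose_le_unc (M : Mat m n) {b : ℕ} (hb : b ≤ n) :
    n.choose b ≤ (fam M).card + (unc M b).card := by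
  have h1 : (Finset.powersetCard (n - b) (univ : Finset (Fin n))) ⊆
      fam M ∪ (unc M b).image Prod.fst := by
    intro X hX
    rw [Finset.mem_powersetCard] at hX
    rw [Finset.mem_union]
    by_cases hf : X ∈ fam M
    · exact Or.inl hf
    · right
      obtain ⟨x, hx, hxi⟩ := exists_unc hf
      refine Finset.mem_image.2 ⟨(X, x), ?_, rfl⟩
      unfold unc
      rw [Finset.mem_filter]
      exact ⟨Finset.mem_univ _, hX.2, hx, hxi⟩
  have h2 : (Finset.powersetCard (n - b) (univ : Finset (Fin n))).card = n.choose b := by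
    rw [Finset.card_powersetCard, Finset.card_univ, Fintype.card_fin, Nat.choose_symm hb]
  rw [← h2]
  exact (Finset.card_le_card h1).trans ((Finset.card_union_le _ _).trans
    (Nat.add_le_add_left Finset.card_image_le _))

/-- the pairs -/
def Uc_pairs (n b : ℕ) : Finset (Finset (Fin n) × Fin n) :=
  univ.filter fun Xx => Xx.1.card = n - b ∧ Xx.2 ∈ Xx.1

theorem Uc_pairs_card {b : ℕ} (hb : b ≤ n) : (Uc_pairs n b).card ≤ n.choose b * n := by
  have h1 : Uc_pairs n b ⊆ (Finset.powersetCard (n - b) (univ : Finset (Fin n))) ×ˢ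
      (univ : Finset (Fin n)) := by
    intro q hq
    unfold Uc_pairs at hq
    rw [Finset.mem_filter] at hq
    rw [Finset.mem_product, Finset.mem_powersetCard]
    exact ⟨⟨Finset.subset_univ _, hq.2.1⟩, Finset.mem_univ _⟩
  refine (Finset.card_le_card h1).trans (le_of_eq ?_)
  rw [Finset.card_product, Finset.card_powersetCard, Finset.card_univ, Fintype.card_fin,
    Nat.choose_symm hb]

theorem Uc_card (M : Mat m n) (b : ℕ) : ((unc M b).card : ℝ) =
    ∑ Xx ∈ Uc_pairs n b, ∏ i, (if Xx.2 ∈ M i ∧ M i ⊆ Xx.1 then (0 : ℝ) else 1) := by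
  have h1 : unc M b = (Uc_pairs n b).filter fun Xx => ∀ i, ¬ (Xx.2 ∈ M i ∧ M i ⊆ Xx.1) := by
    unfold unc Uc_pairs
    rw [Finset.filter_filter]
    refine Finset.filter_congr fun q _ => ?_
    rw [and_assoc]
  rw [h1, Finset.card_filter]
  push_cast
  refine Finset.sum_congr rfl fun q _ => ?_
  by_cases h : ∀ i, ¬ (q.2 ∈ M i ∧ M i ⊆ q.1)
  · rw [if_pos h]
    symm
    refine Finset.prod_eq_one fun i _ => ?_
    rw [if_neg (h i)]
  · rw [if_neg h]
    push Not at h
    obtain ⟨i, hi1, hi2⟩ := h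
    symm
    refine Finset.prod_eq_zero (Finset.mem_univ i) ?_
    rw [if_pos ⟨hi1, hi2⟩]

theorem Ex_unc (h0 : 0 ≤ p) (h1 : p ≤ 1) {b : ℕ} (hb : b ≤ n) :
    Ex p (fun M : Mat m n => ((unc M b).card : ℝ)) ≤
      n.choose b * n * (1 - p * (1 - p) ^ b) ^ m := by
  have e1 : (fun M : Mat m n => ((unc M b).card : ℝ)) = fun M => ∑ Xx ∈ Uc_pairs n b,
      ∏ i, (if Xx.2 ∈ M i ∧ M i ⊆ Xx.1 then (0 : ℝ) else 1) := by
    funext M
    exact Uc_card M b
  rw [e1, Ex_sum]
  have e2 : ∀ Xx ∈ Uc_pairs n b, Ex p (fun M : Mat m n =>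
      ∏ i, (if Xx.2 ∈ M i ∧ M i ⊆ Xx.1 then (0 : ℝ) else 1)) = (1 - p * (1 - p) ^ b) ^ m := by
    intro Xx hX
    unfold Uc_pairs at hX
    rw [Finset.mem_filter] at hX
    have e3 := Ex_prod (p := p) (m := m) (n := n) (fun _ E =>
      if Xx.2 ∈ E ∧ E ⊆ Xx.1 then (0 : ℝ) else 1)
    rw [e3]
    have e4 : ∑ E : Finset (Fin n), wr p E * (if Xx.2 ∈ E ∧ E ⊆ Xx.1 then (0 : ℝ) else 1) =
        1 - p * (1 - p) ^ b := by
      have e5 := sum_mem_sub (p := p) hX.2.2
      have e6 : n - Xx.1.card = b := by rw [hX.2.1]; omega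
      rw [e6] at e5
      have e7 : ∑ E : Finset (Fin n), wr p E * (if Xx.2 ∈ E ∧ E ⊆ Xx.1 then (0 : ℝ) else 1) =
          ∑ E : Finset (Fin n), wr p E -
            ∑ E : Finset (Fin n), wr p E * (if Xx.2 ∈ E ∧ E ⊆ Xx.1 then (1 : ℝ) else 0) := by
        rw [← Finset.sum_sub_distrib]
        refine Finset.sum_congr rfl fun E _ => ?_
        split_ifs <;> ring
      rw [e7, e5, sum_wr]
    rw [e4, Finset.prod_const, Finset.card_univ, Fintype.card_fin]
  rw [Finset.sum_congr rfl e2, Finset.sum_const, nsmul_eq_mul]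
  have h2 : 0 ≤ 1 - p * (1 - p) ^ b := by
    have h3 : (1 - p) ^ b ≤ 1 := pow_le_one₀ (by linarith) (by linarith)
    have h4 : 0 ≤ (1 - p) ^ b := pow_nonneg (by linarith) _
    nlinarith
  refine mul_le_mul_of_nonneg_right ?_ (pow_nonneg h2 _)
  exact_mod_cast Uc_pairs_card hb

end Pool.Agent.H15.RU
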