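import Pool.Agent.H15.RU.Ua
import Pool.Agent.H15.RU.Ub
import Pool.Agent.H15.RU.Uc
import Pool.Agent.H15.RU.Bn
import Pool.Agent.H15.RU.Sz

/-!
# Row Pa: two zones, probabilistic part

Proofs. `zoneA_prob`: `k ≤ m`, so `C = m.choose k > 0`. If `insd M k (3 * n / 4)` is empty and
`2 (ncl M k).card < C` then by `choose_le` `2 (fam M).card > C`, by `small_le` the number of members
with at most `3 n / 4` elements is at most `∑ i ∈ range k, C(m, i) < C / 14` (sum_choose_ratio), so
`good_of_34` applies. Hence `¬ Good` implies `1 ≤ (insd ..).card` or `C / 2 ≤ (ncl ..).card`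
(`Pr_mono`, `Pr_or`), and `markov` with `Ex_insd`, `Ex_ncl` gives the bound.
`zoneB_prob`: `C = n.choose b > 0`. If `(unc M b).card < C / 2` and
`(insd M k (n / 2)).card < C / (8 (n + 1))` then `(fam M).card > C / 2` (choose_le_unc) and
`(n + 1)` times the number of members with at most `n / 2` elements is (small_le) at most
`(n + 1) ∑ + (n + 1) (insd ..).card < C / 8 + C / 8`, so `good_of_12` applies. `markov` for both events.
-/

set_option autoImplicit false

open Finset

namespace Pool.Agent.H15.RU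

theorem zoneA_prob {n m k : ℕ} {p : ℝ} (h0 : 0 ≤ p) (h1 : p ≤ 1) (hkm : 16 * k ≤ m) :
    Pr p (fun M : Mat m n => ¬ Good (fam M)) ≤
      2 * (m : ℝ) * (1 - p * (1 - p) ^ k) ^ n +
        (2 : ℝ) ^ n * m.choose k * (1 - p) ^ (k * (n - 3 * n / 4)) := by
  have hC : 0 < m.choose k := Nat.choose_pos (by omega)
  have hC' : (0 : ℝ) < m.choose k := by exact_mod_cast hC
  have key : ∀ M : Mat m n, ¬ Good (fam M) →
      (1 : ℝ) ≤ ((insd M k (3 * n / 4)).card : ℝ) ∨ (m.choose k : ℝ) / 2 ≤ ((ncl M k).card : ℝ) := by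
    intro M hM
    by_contra hcon
    rw [not_or, not_le, not_le] at hcon
    obtain ⟨c1, c2⟩ := hcon
    have c1' : (insd M k (3 * n / 4)).card = 0 := by
      have : (insd M k (3 * n / 4)).card < 1 := by exact_mod_cast c1
      omega
    have c2' : 2 * (ncl M k).card < m.choose k := by
      have : (2 : ℝ) * ((ncl M k).card : ℝ) < m.choose k := by linarith
      exact_mod_cast this
    have a1 := sum_choose_ratio hkm
    have a2 := small_le M k (3 * n / 4)
    have a3 := choose_le M k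
    exact hM (Or.inl (good_of_34 (by omega)))
  refine (Pr_mono h0 h1 key).trans ((Pr_or h0 h1 _ _).trans ?_)
  have b1 := markov (m := m) (n := n) h0 h1 (f := fun M => ((insd M k (3 * n / 4)).card : ℝ))
    (fun M => Nat.cast_nonneg _) (c := 1) one_pos
  have b2 := markov (m := m) (n := n) h0 h1 (f := fun M => ((ncl M k).card : ℝ))
    (fun M => Nat.cast_nonneg _) (c := (m.choose k : ℝ) / 2) (by positivity)
  have b3 := Ex_insd (m := m) (n := n) h0 h1 k (3 * n / 4)
  have b4 := Ex_ncl (m := m) (n := n) h0 h1 k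
  rw [div_one] at b1
  have b5 : Ex p (fun M : Mat m n => ((ncl M k).card : ℝ)) / ((m.choose k : ℝ) / 2) ≤
      2 * (m : ℝ) * (1 - p * (1 - p) ^ k) ^ n := by
    rw [div_le_iff₀ (by positivity)]
    refine b4.trans (le_of_eq ?_)
    ring
  calc _ ≤ Ex p (fun M : Mat m n => ((insd M k (3 * n / 4)).card : ℝ)) +
        Ex p (fun M : Mat m n => ((ncl M k).card : ℝ)) / ((m.choose k : ℝ) / 2) := add_le_add b1 b2
    _ ≤ _ := by linarith

theorem zoneB_prob {n m k b : ℕ} {p : ℝ} (h0 : 0 ≤ p) (h1 : p ≤ 1) (hb : b ≤ n)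
    (h : 8 * ((n : ℝ) + 1) * ∑ i ∈ range k, (m.choose i : ℝ) ≤ n.choose b) :
    Pr p (fun M : Mat m n => ¬ Good (fam M)) ≤
      2 * (n : ℝ) * (1 - p * (1 - p) ^ b) ^ m +
        8 * ((n : ℝ) + 1) * ((2 : ℝ) ^ n * m.choose k * (1 - p) ^ (k * (n - n / 2))) /
          n.choose b := by
  have hC : 0 < n.choose b := Nat.choose_pos hb
  have hC' : (0 : ℝ) < n.choose b := by exact_mod_cast hC
  have key : ∀ M : Mat m n, ¬ Good (fam M) →
      (n.choose b : ℝ) / 2 ≤ ((unc M b).card : ℝ) ∨
        (n.choose b : ℝ) / (8 * ((n : ℝ) + 1)) ≤ ((insd M k (n / 2)).card : ℝ) := by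
    intro M hM
    by_contra hcon
    rw [not_or, not_le, not_le] at hcon
    obtain ⟨c1, c2⟩ := hcon
    have c2' : ((insd M k (n / 2)).card : ℝ) * (8 * ((n : ℝ) + 1)) < n.choose b := by
      rwa [lt_div_iff₀ (by positivity)] at c2
    have a2 : ((((fam M).filter fun X => X.card ≤ n / 2).card : ℕ) : ℝ) ≤
        ∑ i ∈ range k, (m.choose i : ℝ) + ((insd M k (n / 2)).card : ℝ) := by
      exact_mod_cast small_le M k (n / 2)
    have a3 : (n.choose b : ℝ) ≤ ((fam M).card : ℝ) + ((unc M b).card : ℝ) := by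
      exact_mod_cast choose_le_unc M hb
    refine hM (Or.inl (good_of_12 ?_))
    have a4 : ((n : ℝ) + 1) * ((((fam M).filter fun X => X.card ≤ n / 2).card : ℕ) : ℝ) ≤
        ((n : ℝ) + 1) * (∑ i ∈ range k, (m.choose i : ℝ) + ((insd M k (n / 2)).card : ℝ)) :=
      mul_le_mul_of_nonneg_left a2 (by positivity)
    have a5 : ((n : ℝ) + 1) * ((((fam M).filter fun X => X.card ≤ n / 2).card : ℕ) : ℝ) < ((fam M).card : ℝ) := by
      nlinarith
    exact_mod_cast a5
  refine (Pr_mono h0 h1 key).trans ((Pr_or h0 h1 _ _).trans ?_)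
  have b1 := markov (m := m) (n := n) h0 h1 (f := fun M => ((unc M b).card : ℝ))
    (fun M => Nat.cast_nonneg _) (c := (n.choose b : ℝ) / 2) (by positivity)
  have b2 := markov (m := m) (n := n) h0 h1 (f := fun M => ((insd M k (n / 2)).card : ℝ))
    (fun M => Nat.cast_nonneg _) (c := (n.choose b : ℝ) / (8 * ((n : ℝ) + 1))) (by positivity)
  have b3 := Ex_insd (m := m) (n := n) h0 h1 k (n / 2)
  have b4 := Ex_unc (m := m) (n := n) h0 h1 hb
  refine add_le_add (b1.trans ?_) (b2.trans ?_)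
  · rw [div_le_iff₀ (by positivity)]
    refine b4.trans (le_of_eq ?_)
    ring
  · rw [div_div_eq_mul_div]
    refine div_le_div_of_nonneg_right ?_ hC'.le
    rw [mul_comm]
    exact mul_le_mul_of_nonneg_left b3 (by positivity)

end Pool.Agent.H15.RU
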