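import Pool.Agent.H15.RU.An

/-!
# Row Xb: the numbers b and k

Notation `ℓ = log n`, `λ = n p`, `L = -log (1 - p)`, `c = cA δ`. Proofs.
`exists_b`: for large `n`: `c λ ≥ 4 ℓ` (lam_large), `ℓ ≥ 1`, `2 ℓ ≤ n`, and `p ≥ 1 / n` (as `λ ≥ ℓ ≥ 1`).
So `p m > exp (c λ) / n ≥ n ^ 3 ≥ 2 ℓ`. As `(1 - p) ^ b → 0`, there is a least `b` with
`p m (1 - p) ^ (b + 1) < 2 ℓ` (Nat.find); by minimality (or `p m ≥ 2 ℓ` if `b = 0`)
`2 ℓ ≤ p m (1 - p) ^ b`. And `(1 - p) ^ (b + 1) < 2 ℓ / (p m) ≤ n · n · exp (-c λ) ≤ exp (-c λ / 2)`,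
while `(1 - p) ^ (b + 1) = exp (-L (b + 1)) ≥ exp (-(p / δ) (b + 1))`. So
`(p / δ) (b + 1) > c n p / 2`, `b + 1 > c δ n / 2 = 2 bet δ * n`, and `bet δ * n ≥ 1` for large `n`.
`exists_k`: the least `k` with `(1 - p) ^ k ≤ 1 / 4`; `k ≥ 1`. `k L ≥ log 4 ≥ 1` and `L ≤ p / δ` give
`δ ≤ p k`; `(k - 1) p ≤ (k - 1) L < log 4 < 2`, so `p k ≤ 3`.
`exists_s`: the least `s` with `θ ≤ p m (1 - p) ^ (n - s)` (it exists and is at most `n`).
-/

set_option autoImplicit false

namespace Pool.Agent.H15.RU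

theorem Xb_two_log {n : ℕ} (hn : 1 ≤ n) : 2 * Real.log n ≤ n := by
  have hn' : (0 : ℝ) < n := by exact_mod_cast hn
  have h1 := Real.log_le_sub_one_of_pos (show (0 : ℝ) < n / 2 by positivity)
  rw [Real.log_div hn'.ne' (by norm_num)] at h1
  have h2 := Real.log_two_lt_d9
  linarith

theorem exists_b {δ : ℝ} (hδ : 0 < δ) :
    ∃ N : ℕ, ∀ n ≥ N, ∀ (m : ℕ) (p : ℝ), Reg δ n p → Real.exp (cA δ * (n * p)) < m →
      ∃ b : ℕ, 2 * Real.log n ≤ p * m * (1 - p) ^ b ∧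
        p * m * (1 - p) ^ (b + 1) < 2 * Real.log n ∧ bet δ * n ≤ b := by
  have hc : 0 < cA δ := by unfold cA; positivity
  have hbet : 0 < bet δ := by unfold bet; positivity
  obtain ⟨N1, hN1⟩ := lam_large hδ (4 / cA δ)
  obtain ⟨N2, hN2⟩ := lam_large hδ 1
  obtain ⟨N3, hN3⟩ := log_large 1
  obtain ⟨N4, hN4⟩ := exists_nat_ge (1 / bet δ)
  refine ⟨N1 + N2 + N3 + N4 + 3, fun n hn m p hR hm => ?_⟩
  have h1 := hN1 n (by omega) p hR
  have h2 := hN2 n (by omega) p hR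
  have h3 := hN3 n (by omega)
  have h4 : 1 ≤ bet δ * n := by
    have : (N4 : ℝ) ≤ n := by exact_mod_cast (by omega : N4 ≤ n)
    have h5 : 1 / bet δ ≤ n := hN4.trans this
    rw [div_le_iff₀ hbet] at h5
    linarith
  obtain ⟨hp0, hp1, hd1⟩ := reg_pos hδ (by omega : 3 ≤ n) hR
  have hn0 : (0 : ℝ) < n := by exact_mod_cast (by omega : 0 < n)
  have hL := L_bounds hδ hp0 hR.2
  have h6 : 4 * Real.log n ≤ cA δ * (n * p) := by
    have := mul_le_mul_of_nonneg_left h1 hc.le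
    have h7 : cA δ * (4 / cA δ * Real.log n) = 4 * Real.log n := by field_simp
    linarith
  have h7 : 1 ≤ n * p := by linarith
  have h8 := Xb_two_log (by omega : 1 ≤ n)
  have hexpn : Real.exp (Real.log n) = n := Real.exp_log hn0
  have hm0 : (0 : ℝ) < m := lt_trans (Real.exp_pos _) hm
  have h9 : (n : ℝ) ^ 4 ≤ Real.exp (cA δ * (n * p)) := by
    calc (n : ℝ) ^ 4 = Real.exp (4 * Real.log n) := by
          rw [show (4 : ℝ) * Real.log n = ((4 : ℕ) : ℝ) * Real.log n by norm_num, Real.exp_nat_mul,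
            hexpn]
      _ ≤ _ := Real.exp_le_exp.mpr h6
  have h10 : 2 * Real.log n ≤ p * m := by
    have h11 : (n : ℝ) ^ 4 ≤ m := h9.trans hm.le
    have h12 : (n : ℝ) * (2 * Real.log n) ≤ (n : ℝ) * (p * m) := by
      have h13 : (m : ℝ) ≤ n * p * m := by nlinarith
      have h14 : (n : ℝ) * n ≤ (n : ℝ) ^ 4 := by
        have : (1 : ℝ) ≤ n := by exact_mod_cast (by omega : 1 ≤ n)
        nlinarith [sq_nonneg ((n : ℝ) ^ 2 - 1), pow_pos hn0 2, pow_pos hn0 3]
      nlinarith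
    exact le_of_mul_le_mul_left h12 hn0
  have hpm : 0 < p * m := by positivity
  have hex : ∃ b : ℕ, p * m * (1 - p) ^ (b + 1) < 2 * Real.log n := by
    obtain ⟨k, hk⟩ := exists_pow_lt_of_lt_one (show 0 < 2 * Real.log n / (p * m) by positivity)
      (show 1 - p < 1 by linarith)
    refine ⟨k, ?_⟩
    rw [lt_div_iff₀ hpm] at hk
    have h11 : (1 - p) ^ (k + 1) ≤ (1 - p) ^ k :=
      pow_le_pow_of_le_one (by linarith) (by linarith) (by omega)
    nlinarith
  classical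
  refine ⟨Nat.find hex, ?_, Nat.find_spec hex, ?_⟩
  · rcases Nat.eq_zero_or_pos (Nat.find hex) with h0 | h0
    · rw [h0]; simpa using h10
    · have h11 := Nat.find_min hex (m := Nat.find hex - 1) (by omega)
      rw [Nat.sub_add_cancel h0] at h11
      exact not_lt.mp h11
  · set b := Nat.find hex with hb
    have hs : p * m * (1 - p) ^ (b + 1) < 2 * Real.log n := Nat.find_spec hex
    have h11 : (1 - p) ^ (b + 1) < (n : ℝ) ^ 2 * Real.exp (-(cA δ * (n * p))) := by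
      have h12 : p * m * (1 - p) ^ (b + 1) < n := lt_of_lt_of_le hs h8
      have h13 : Real.exp (cA δ * (n * p)) * (1 - p) ^ (b + 1) < (n : ℝ) ^ 2 := by
        have hpos : 0 < (1 - p) ^ (b + 1) := pow_pos (by linarith) _
        have h14 : Real.exp (cA δ * (n * p)) * (1 - p) ^ (b + 1) < m * (1 - p) ^ (b + 1) :=
          mul_lt_mul_of_pos_right hm hpos
        have h15 : (m : ℝ) * (1 - p) ^ (b + 1) ≤ n * (p * m * (1 - p) ^ (b + 1)) := by
          have : 0 ≤ (m : ℝ) * (1 - p) ^ (b + 1) := by positivity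
          nlinarith
        nlinarith
      rw [Real.exp_neg, ← div_eq_mul_inv, lt_div_iff₀ (Real.exp_pos _)]
      linarith
    have h12 : (n : ℝ) ^ 2 = Real.exp (2 * Real.log n) := by
      rw [show (2 : ℝ) * Real.log n = ((2 : ℕ) : ℝ) * Real.log n by norm_num, Real.exp_nat_mul,
        hexpn]
    have h13 : Real.exp (-(p / δ) * ((b + 1 : ℕ) : ℝ)) ≤ (1 - p) ^ (b + 1) := by
      have h14 : (1 - p) ^ (b + 1) = Real.exp (((b + 1 : ℕ) : ℝ) * Real.log (1 - p)) := by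
        rw [Real.exp_nat_mul, Real.exp_log (by linarith)]
      rw [h14]
      apply Real.exp_le_exp.mpr
      have h15 : (0 : ℝ) ≤ ((b + 1 : ℕ) : ℝ) := Nat.cast_nonneg _
      nlinarith [hL.2.1]
    rw [h12, ← Real.exp_add] at h11
    have h14 := Real.exp_lt_exp.mp (lt_of_le_of_lt h13 h11)
    push_cast at h14
    have h15 : cA δ * (n * p) / 2 < p / δ * (b + 1) := by linarith
    have h16 : cA δ * δ / 2 * n < b + 1 := by
      have h17 : p * (cA δ * δ / 2 * n) < p * (b + 1) := by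
        have h18 := mul_lt_mul_of_pos_left h15 hδ
        have h19 : δ * (p / δ * ((b : ℝ) + 1)) = p * (b + 1) := by field_simp
        nlinarith
      exact lt_of_mul_lt_mul_left h17 hp0.le
    have h17 : cA δ * δ / 2 * n = 2 * (bet δ * n) := by unfold bet; ring
    linarith

theorem exists_k {δ p : ℝ} (hδ : 0 < δ) (h0 : 0 < p) (h1 : p ≤ 1 - δ) :
    ∃ k : ℕ, 1 ≤ k ∧ (1 - p) ^ k ≤ 1 / 4 ∧ 1 / 4 < (1 - p) ^ (k - 1) ∧ δ ≤ p * k ∧ p * k ≤ 3 := by
  classical
  have hex : ∃ k : ℕ, (1 - p) ^ k ≤ 1 / 4 := by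
    obtain ⟨k, hk⟩ := exists_pow_lt_of_lt_one (show (0 : ℝ) < 1 / 4 by norm_num)
      (show 1 - p < 1 by linarith)
    exact ⟨k, hk.le⟩
  have hs := Nat.find_spec hex
  set k := Nat.find hex with hk
  have hk1 : 1 ≤ k := by
    by_contra hcon
    have : k = 0 := by omega
    rw [this] at hs
    norm_num at hs
  have hmin : 1 / 4 < (1 - p) ^ (k - 1) := by
    have := Nat.find_min hex (m := k - 1) (by omega)
    exact not_le.mp this
  have hL := L_bounds hδ h0 h1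
  have hlog4 : Real.log 4 = 2 * Real.log 2 := by
    rw [show (4 : ℝ) = 2 ^ 2 by norm_num, Real.log_pow]; norm_num
  have hl1 := Real.log_two_gt_d9
  have hl2 := Real.log_two_lt_d9
  refine ⟨k, hk1, hs, hmin, ?_, ?_⟩
  · have h2 : Real.exp ((k : ℝ) * Real.log (1 - p)) ≤ Real.exp (-Real.log 4) := by
      rw [Real.exp_nat_mul, Real.exp_log (by linarith), Real.exp_neg, Real.exp_log (by norm_num)]
      linarith
    have h3 := Real.exp_le_exp.mp h2
    have h4 : (0 : ℝ) ≤ k := Nat.cast_nonneg _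
    have h5 : (1 : ℝ) ≤ k * (p / δ) := by nlinarith [hL.2.1]
    have h6 : δ * 1 ≤ δ * (k * (p / δ)) := mul_le_mul_of_nonneg_left h5 hδ.le
    have h7 : δ * ((k : ℝ) * (p / δ)) = p * k := by field_simp
    linarith
  · have h2 := pow_le_exp (p := p) (by linarith) (k - 1)
    have h3 : Real.exp (-Real.log 4) < Real.exp (-(p * ((k - 1 : ℕ) : ℝ))) := by
      rw [Real.exp_neg, Real.exp_log (by norm_num)]
      linarith
    have h4 := Real.exp_lt_exp.mp h3
    rw [Nat.cast_sub hk1, Nat.cast_one] at h4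
    nlinarith

theorem exists_s {n m : ℕ} {p θ : ℝ} (h : θ ≤ p * m) :
    ∃ s : ℕ, s ≤ n ∧ θ ≤ p * m * (1 - p) ^ (n - s) ∧
      (s = 0 ∨ p * m * (1 - p) ^ (n + 1 - s) < θ) := by
  classical
  have hex : ∃ s : ℕ, θ ≤ p * m * (1 - p) ^ (n - s) := ⟨n, by simpa using h⟩
  refine ⟨Nat.find hex, Nat.find_min' hex (by simpa using h), Nat.find_spec hex, ?_⟩
  rcases Nat.eq_zero_or_pos (Nat.find hex) with h0 | h0
  · exact Or.inl h0
  · right
    have h1 := Nat.find_min hex (m := Nat.find hex - 1) (by omega)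
    have h2 : n - (Nat.find hex - 1) = n + 1 - Nat.find hex := by
      have : Nat.find hex ≤ n := Nat.find_min' hex (by simpa using h)
      omega
    rw [h2] at h1
    exact not_le.mp h1

end Pool.Agent.H15.RU
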