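import Pool.Agent.H15.RU.Xd
import Pool.Agent.H15.RU.Xv
import Pool.Agent.H15.RU.Xa
import Pool.Agent.H15.RU.Ud
import Pool.Agent.H15.RU.Pd
import Pool.Agent.H15.RU.Zb

/-! Zone D: the critical window and above. -/

set_option autoImplicit false

open Finset

namespace Pool.Agent.H15.RU

theorem zoneD {δ ε : ℝ} (hδ : 0 < δ) (hε : 0 < ε) :
    ∃ N : ℕ, ∀ n ≥ N, ∀ (m b k : ℕ) (p : ℝ), Reg δ n p →
      2 * Real.log n ≤ p * m * (1 - p) ^ b → p * k ≤ 3 →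
      ¬ (2 * b ≤ n ∧
        16 * ((n : ℝ) + 1) ^ 3 * (C1 δ * Real.log n) ^ k ≤ (1 + bet δ) ^ (n - 2 * b)) →
      Pr p (fun M : Mat m n => ¬ Good (fam M)) ≤ ε := by
  obtain ⟨K, N1, hK, hN1⟩ := zoneD_low hδ
  obtain ⟨N2, hN2⟩ := zoneD_T hδ K hK
  obtain ⟨N3, hN3⟩ := zoneD_V hδ (show 0 < ε / 2 by linarith) K hK
  obtain ⟨N4, hN4⟩ := zoneD_a hδ
  obtain ⟨N5, hN5⟩ := log_large 2
  obtain ⟨N6, hN6⟩ := exists_nat_gt (70 / ε)
  obtain ⟨N7, hN7⟩ := lam_large hδ 1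
  refine ⟨3 + N1 + N2 + N3 + N4 + N5 + N6 + N7, ?_⟩
  intro n hn m b k p hreg hb1 hk5 hnot
  obtain ⟨hp0, hp1, hδ1⟩ := reg_pos hδ (by omega : 3 ≤ n) hreg
  have hlog := hN5 n (by omega)
  have hn0 : (0 : ℝ) < n := by exact_mod_cast (by omega : 0 < n)
  have hn1 : (1 : ℝ) ≤ n := by exact_mod_cast (by omega : 1 ≤ n)
  have hnε : 70 / (n : ℝ) ≤ ε := by
    have h1 : 70 / ε < n := lt_of_lt_of_le hN6 (by exact_mod_cast (by omega : N6 ≤ n))
    rw [div_lt_iff₀ hε] at h1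
    rw [div_le_iff₀ hn0]
    linarith
  have hlam : 1 * Real.log n ≤ n * p := hN7 n (by omega) p hreg
  have hlam1 : 1 ≤ (n : ℝ) * p := by linarith
  obtain ⟨hb4, hlow⟩ := hN1 n (by omega) b k p hreg hk5 hnot
  have hT := hN2 n (by omega) p hreg
  obtain ⟨b', hb'⟩ : ∃ b' : ℕ, b' = min b (n / 2) := ⟨_, rfl⟩
  rw [← hb'] at hb4 hlow
  have hb'b : b' ≤ b := by rw [hb']; exact min_le_left _ _
  have hb'n : b' ≤ n / 2 := by rw [hb']; exact min_le_right _ _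
  have hb'n' : b' ≤ n := by omega
  have hC0 : (0 : ℝ) < n.choose b' := by exact_mod_cast Nat.choose_pos hb'n'
  have hq0 : 0 < 1 - p := by linarith
  have hb2 : 2 * Real.log n ≤ p * m * (1 - p) ^ b' := by
    refine hb1.trans ?_
    apply mul_le_mul_of_nonneg_left _ (by positivity)
    exact pow_le_pow_of_le_one hq0.le (by linarith) hb'b
  have hpm : 1 ≤ p * m := by
    have h1 : (1 - p) ^ b' ≤ 1 := pow_le_one₀ hq0.le (by linarith)
    have h2 : 0 ≤ p * m := by positivity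
    nlinarith
  obtain ⟨θ, hθ⟩ : ∃ θ : ℝ, θ = ((n : ℝ) * p) ^ (-(δ / 4)) := ⟨_, rfl⟩
  have hθ1 : θ ≤ 1 := by
    rw [hθ]
    exact Real.rpow_le_one_of_one_le_of_nonpos hlam1 (by linarith)
  obtain ⟨s, hsn, hs1, hs2⟩ := exists_s (n := n) (m := m) (p := p) (θ := θ) (hθ1.trans hpm)
  obtain ⟨a, ha0, ha1, haN, ham, htw⟩ := hN4 n (by omega) m b' s p hreg hb4 hb2
    (by rw [← hθ]; exact hs1)
  obtain ⟨E, hE⟩ : ∃ E : ℝ, E = Real.exp (-(K * (Real.log n + Real.log (Real.log n) / p))) :=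
    ⟨_, rfl⟩
  rw [← hE] at hlow hT
  have hE0 : 0 < E := by rw [hE]; exact Real.exp_pos _
  have hn1' : (0 : ℝ) < (n : ℝ) + 1 := by linarith
  have hTT : 16 * (4 * (n : ℝ) + 1) * ((4 / 3) ^ n * 3 ^ (n / 4)) ≤ n.choose b' := by
    have h1 := hT.trans hlow
    rw [mul_comm ((n : ℝ) + 1)] at h1
    exact le_of_mul_le_mul_right h1 hn1'
  -- the bound for the members of middle size
  have hV : ∃ V : ℝ, Ex p (fun M : Mat m n =>
      (((fam M).filter fun X => n ≤ 4 * X.card ∧ X.card < s).card : ℝ)) ≤ V ∧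
      8 * (4 * (n : ℝ) + 1) * V / n.choose b' ≤ ε / 2 := by
    rcases hs2 with hs0 | hs2
    · refine ⟨0, ?_, by rw [mul_zero, zero_div]; linarith⟩
      subst hs0
      unfold Ex
      apply le_of_eq
      apply Finset.sum_eq_zero
      intro M _
      have : ((fam M).filter fun X => n ≤ 4 * X.card ∧ X.card < 0) = ∅ := by
        apply Finset.filter_false_of_mem
        intro X _ h
        exact absurd h.2 (Nat.not_lt_zero _)
      show wt p M * (((fam M).filter fun X => n ≤ 4 * X.card ∧ X.card < 0).card : ℝ) = 0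
      rw [this, Finset.card_empty, Nat.cast_zero, mul_zero]
    · have hρ0 : 0 ≤ (1 - p) ^ (n + 1 - s) := by positivity
      obtain ⟨kk, hkk⟩ := hN3 n (by omega) m p ((1 - p) ^ (n + 1 - s)) hreg hρ0
        (by rw [← hθ]; exact hs2.le)
      rw [← hE] at hkk
      refine ⟨_, Ex_mid hp0.le hp1.le kk s le_rfl, ?_⟩
      rw [div_le_iff₀ hC0]
      obtain ⟨Q, hQ⟩ : ∃ Q : ℝ, Q = (m.choose kk * ((1 - p) ^ (n + 1 - s)) ^ kk +
        (1 - (1 - p) ^ kk) ^ (n / 4) * (1 + (1 - p) ^ (n + 1 - s)) ^ m) := ⟨_, rfl⟩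
      rw [← hQ] at hkk ⊢
      have h1 : ((n : ℝ) + 1) * (8 * (4 * (n : ℝ) + 1) * (2 ^ n * Q)) ≤
          ((n : ℝ) + 1) * (ε / 2 * n.choose b') := by
        calc ((n : ℝ) + 1) * (8 * (4 * (n : ℝ) + 1) * (2 ^ n * Q))
            = 2 ^ n * (8 * (4 * (n : ℝ) + 1) * (n + 1) * Q) := by ring
          _ ≤ 2 ^ n * (ε / 2 * E) := mul_le_mul_of_nonneg_left hkk (by positivity)
          _ = ε / 2 * (2 ^ n * E) := by ring
          _ ≤ ε / 2 * ((n + 1) * n.choose b') := mul_le_mul_of_nonneg_left hlow (by linarith)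
          _ = ((n : ℝ) + 1) * (ε / 2 * n.choose b') := by ring
      exact le_of_mul_le_mul_left h1 hn1'
  obtain ⟨V, hV1, hV2⟩ := hV
  have hpr := zoneD_prob (m := m) (s := s) hp0.le hp1.le hb'n' ha0 ha1 haN hV1 hTT
  refine hpr.trans ?_
  have t1 : 2 * (n : ℝ) * (1 - p * (1 - p) ^ b') ^ m ≤ 2 / n := by
    have h2 := cover_pow (by omega : 1 ≤ n) hp0.le hp1.le hb2
    calc 2 * (n : ℝ) * (1 - p * (1 - p) ^ b') ^ m ≤ 2 * (n : ℝ) * (1 / (n : ℝ) ^ 2) :=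
          mul_le_mul_of_nonneg_left h2 (by positivity)
      _ = 2 / n := by field_simp
  have t2 : (n : ℝ) ^ 2 * (1 - 2 * p * (1 - p)) ^ m ≤ 1 / n := by
    calc (n : ℝ) ^ 2 * (1 - 2 * p * (1 - p)) ^ m ≤ (n : ℝ) ^ 2 * (1 / (n : ℝ) ^ 3) :=
          mul_le_mul_of_nonneg_left htw (by positivity)
      _ = 1 / n := by field_simp
  have t3 : 32 * (n : ℝ) ^ 2 * (1 - p * a) ^ m ≤ 32 / n := by
    calc 32 * (n : ℝ) ^ 2 * (1 - p * a) ^ m ≤ 32 * (n : ℝ) ^ 2 * (1 / (n : ℝ) ^ 6) :=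
          mul_le_mul_of_nonneg_left ham (by positivity)
      _ = 32 / (n : ℝ) ^ 4 := by field_simp
      _ ≤ 32 / n := by
          apply div_le_div_of_nonneg_left (by norm_num) hn0
          calc (n : ℝ) = (n : ℝ) ^ 1 := (pow_one _).symm
            _ ≤ (n : ℝ) ^ 4 := pow_le_pow_right₀ hn1 (by norm_num)
  have t4 : 2 / (n : ℝ) + 1 / n + 32 / n = 35 / n := by ring
  have t5 : 35 / (n : ℝ) ≤ ε / 2 := by
    have : 70 / (n : ℝ) = 2 * (35 / n) := by ring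
    linarith
  linarith

end Pool.Agent.H15.RU
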