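import Pool.Agent.H15.RU.Zo
import Pool.Agent.H15.RU.Za
import Pool.Agent.H15.RU.Zd

/-! The theorem. -/

set_option autoImplicit false

open Finset

namespace Pool.Agent.H15.RU

theorem main_bound {δ ε : ℝ} (hδ : 0 < δ) (hε : 0 < ε) :
    ∃ N : ℕ, ∀ n ≥ N, ∀ (m : ℕ) (p : ℝ), Reg δ n p →
      Pr p (fun M : Mat m n => ¬ Good (fam M)) ≤ ε := by
  obtain ⟨N0, h0⟩ := zone0 hδ hε
  obtain ⟨N1, h1⟩ := zoneA_num hδ hε
  obtain ⟨N2, h2⟩ := exists_b hδ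
  obtain ⟨N3, h3⟩ := zoneB hδ hε
  obtain ⟨N4, h4⟩ := zoneD hδ hε
  refine ⟨3 + N0 + N1 + N2 + N3 + N4, ?_⟩
  intro n hn m p hreg
  obtain ⟨hp0, hp1, hδ1⟩ := reg_pos hδ (by omega : 3 ≤ n) hreg
  rcases le_or_gt (3 * Real.log n) (n * p * (1 - p) ^ m) with hz | hz
  · exact h0 n (by omega) m p hreg hz
  rcases le_or_gt (m : ℝ) (Real.exp (cA δ * (n * p))) with hm | hm
  · obtain ⟨k, hk1, hk2, hk3⟩ := h1 n (by omega) m p hreg hz hm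
    have := zoneA_prob (n := n) hp0.le hp1.le hk1
    linarith
  obtain ⟨b, hb1, hb2, hb3⟩ := h2 n (by omega) m p hreg hm
  obtain ⟨k, hk1, hk2, hk3, hk4, hk5⟩ := exists_k hδ hp0 hreg.2
  by_cases hcase : 2 * b ≤ n ∧
      16 * ((n : ℝ) + 1) ^ 3 * (C1 δ * Real.log n) ^ k ≤ (1 + bet δ) ^ (n - 2 * b)
  · exact h3 n (by omega) m b k p hreg hb1 hb2 hb3 hk1 hk2 hk3 hk4 hk5 hcase.1 hcase.2
  · exact h4 n (by omega) m b k p hreg hb1 hk5 hcase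

theorem main_good {δ ε : ℝ} (hδ : 0 < δ) (hε : 0 < ε) :
    ∃ N : ℕ, ∀ n ≥ N, ∀ (m : ℕ) (p : ℝ), Real.log n ^ (1 + δ) ≤ n * p → p ≤ 1 - δ →
      1 - ε ≤ Pr p (fun M : Mat m n => Good (fam M)) := by
  obtain ⟨N, hN⟩ := main_bound hδ hε
  refine ⟨N, ?_⟩
  intro n hn m p h1 h2
  have h3 := hN n hn m p ⟨h1, h2⟩
  rw [Pr_compl] at h3
  linarith

end Pool.Agent.H15.RU
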