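import Pool.Agent.H15.RU.Defs

/-!
# Row Is: edge boundary in the cube

Proofs. `size_id`: `∑ X ∈ F, (2 X.card - n) = #{(X, x) | X ∈ F, x ∈ X} - #{(X, x) | X ∈ F, x ∉ X}`
(as `#{x | x ∉ X} = n - X.card`), and `(X, x) ↦ (X.erase x, x)` is a bijection from the pairs with
`X ∈ F`, `x ∈ X`, `X.erase x ∈ F` to the pairs with `X ∈ F`, `x ∉ X`, `insert x X ∈ F`. What remains
is `dn` and `up`.
`iso`: prove for every finite set `s` and every family `F ⊆ s.powerset` (any type with decidable
equality), with `β s F = #{(X, x) ∈ F × s | (if x ∈ X then X.erase x else insert x X) ∉ F}`, that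
`min F.card (2 ^ s.card - F.card) ≤ β s F` by induction on `s`: for `insert z s` let
`F₀ = {X ∈ F | z ∉ X}` and `F₁ = {X.erase z | X ∈ F, z ∈ X}`, both in `s.powerset`,
`a = F₀.card`, `b = F₁.card`, `N = 2 ^ s.card`. Then `β (insert z s) F = β s F₀ + β s F₁ +
#(F₀ \ F₁) + #(F₁ \ F₀) ≥ min a (N - a) + min b (N - b) + |a - b|`, and this is at least
`min (a + b) (2 N - (a + b))`: cases `a, b ≤ N / 2`; `a, b ≥ N / 2`; `a ≥ N / 2 ≥ b`, where the sum
is `N`; and symmetric. (In ℤ; omega after splitting.) For `s = univ` the pairs counted by `β` are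
those of `up F` and `dn F`.
-/

set_option autoImplicit false

open Finset

namespace Pool.Agent.H15.RU

variable {n : ℕ}

/-- upward boundary -/
def up (F : Finset (Finset (Fin n))) : Finset (Finset (Fin n) × Fin n) :=
  univ.filter fun Xx => Xx.1 ∈ F ∧ Xx.2 ∉ Xx.1 ∧ insert Xx.2 Xx.1 ∉ F

/-- downward boundary -/
def dn (F : Finset (Finset (Fin n))) : Finset (Finset (Fin n) × Fin n) :=
  univ.filter fun Xx => Xx.1 ∈ F ∧ Xx.2 ∈ Xx.1 ∧ Xx.1.erase Xx.2 ∉ F

theorem Is_cnt (F : Finset (Finset (Fin n))) (p : Finset (Fin n) → Fin n → Prop)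
    [∀ X, DecidablePred (p X)] [DecidablePred fun Xx : Finset (Fin n) × Fin n => Xx.1 ∈ F ∧ p Xx.1 Xx.2] :
    ((univ : Finset (Finset (Fin n) × Fin n)).filter fun Xx => Xx.1 ∈ F ∧ p Xx.1 Xx.2).card =
      ∑ X ∈ F, (univ.filter (p X)).card := by
  rw [card_filter, Fintype.sum_prod_type]
  have h : ∀ X : Finset (Fin n), (∑ x : Fin n, if (X, x).1 ∈ F ∧ p (X, x).1 (X, x).2 then 1 else 0) =
      if X ∈ F then (univ.filter (p X)).card else 0 := by
    intro X
    by_cases hX : X ∈ F
    · rw [if_pos hX, card_filter]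
      exact sum_congr rfl fun x _ => by simp only [hX, true_and]
    · rw [if_neg hX]
      exact sum_eq_zero fun x _ => if_neg fun h => hX h.1
  rw [sum_congr rfl fun X _ => h X]
  rw [sum_ite_mem, univ_inter]

theorem Is_cnt2 (F : Finset (Finset (Fin n))) (p : Finset (Fin n) → Fin n → Prop)
    [∀ x, DecidablePred fun X => p X x]
    [DecidablePred fun Xx : Finset (Fin n) × Fin n => Xx.1 ∈ F ∧ p Xx.1 Xx.2] :
    ((univ : Finset (Finset (Fin n) × Fin n)).filter fun Xx => Xx.1 ∈ F ∧ p Xx.1 Xx.2).card =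
      ∑ x : Fin n, (F.filter fun X => p X x).card := by
  rw [card_filter, Fintype.sum_prod_type_right]
  refine sum_congr rfl fun x _ => ?_
  rw [card_filter]
  have h : ∀ X : Finset (Fin n), (if (X, x).1 ∈ F ∧ p (X, x).1 (X, x).2 then 1 else 0) =
      if X ∈ F then (if p X x then 1 else 0) else 0 := by
    intro X
    by_cases hX : X ∈ F
    · simp [hX]
    · simp [hX]
  rw [sum_congr rfl fun X _ => h X]
  rw [sum_ite_mem, univ_inter]

theorem Is_bij (F : Finset (Finset (Fin n))) :
    (univ.filter fun Xx : Finset (Fin n) × Fin n => Xx.1 ∈ F ∧ (Xx.2 ∈ Xx.1 ∧ Xx.1.erase Xx.2 ∈ F)).card =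
    (univ.filter fun Xx : Finset (Fin n) × Fin n => Xx.1 ∈ F ∧ (Xx.2 ∉ Xx.1 ∧ insert Xx.2 Xx.1 ∈ F)).card := by
  refine card_bij' (fun Xx _ => (Xx.1.erase Xx.2, Xx.2)) (fun Xx _ => (insert Xx.2 Xx.1, Xx.2))
    ?_ ?_ ?_ ?_
  · rintro ⟨X, x⟩ h
    simp only [mem_filter, mem_univ, true_and] at h ⊢
    refine ⟨h.2.2, notMem_erase _ _, ?_⟩
    rw [insert_erase h.2.1]
    exact h.1
  · rintro ⟨X, x⟩ h
    simp only [mem_filter, mem_univ, true_and] at h ⊢
    refine ⟨h.2.2, mem_insert_self _ _, ?_⟩
    rw [erase_insert h.2.1]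
    exact h.1
  · rintro ⟨X, x⟩ h
    simp only [mem_filter, mem_univ, true_and] at h
    simp only [insert_erase h.2.1]
  · rintro ⟨X, x⟩ h
    simp only [mem_filter, mem_univ, true_and] at h
    simp only [erase_insert h.2.1]

theorem size_id (F : Finset (Finset (Fin n))) :
    ∑ X ∈ F, (2 * (X.card : ℤ) - n) = ((dn F).card : ℤ) - (up F).card := by
  classical
  have h1 : (dn F).card = ∑ X ∈ F, (univ.filter fun x => x ∈ X ∧ X.erase x ∉ F).card :=
    Is_cnt F fun X x => x ∈ X ∧ X.erase x ∉ F
  have h2 : (up F).card = ∑ X ∈ F, (univ.filter fun x => x ∉ X ∧ insert x X ∉ F).card :=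
    Is_cnt F fun X x => x ∉ X ∧ insert x X ∉ F
  have h3 := Is_bij F
  rw [Is_cnt F fun X x => x ∈ X ∧ X.erase x ∈ F, Is_cnt F fun X x => x ∉ X ∧ insert x X ∈ F] at h3
  have h4 : ∀ X : Finset (Fin n), ((univ.filter fun x => x ∈ X ∧ X.erase x ∉ F).card : ℤ) +
      (univ.filter fun x => x ∈ X ∧ X.erase x ∈ F).card = X.card := by
    intro X
    have h5 : X.card = (X.filter fun x => X.erase x ∈ F).card + (X.filter fun x => ¬ X.erase x ∈ F).card :=
      (card_filter_add_card_filter_not _).symm
    have h6 : (univ.filter fun x => x ∈ X ∧ X.erase x ∉ F) = X.filter fun x => ¬ X.erase x ∈ F := by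
      ext x; simp
    have h7 : (univ.filter fun x => x ∈ X ∧ X.erase x ∈ F) = X.filter fun x => X.erase x ∈ F := by
      ext x; simp
    rw [h6, h7, h5]
    push_cast
    ring
  have h8 : ∀ X : Finset (Fin n), ((univ.filter fun x => x ∉ X ∧ insert x X ∉ F).card : ℤ) +
      (univ.filter fun x => x ∉ X ∧ insert x X ∈ F).card = n - X.card := by
    intro X
    have h5 : (Xᶜ).card = (Xᶜ.filter fun x => insert x X ∈ F).card + (Xᶜ.filter fun x => ¬ insert x X ∈ F).card :=
      (card_filter_add_card_filter_not _).symm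
    have h6 : (univ.filter fun x => x ∉ X ∧ insert x X ∉ F) = Xᶜ.filter fun x => ¬ insert x X ∈ F := by
      ext x; simp
    have h7 : (univ.filter fun x => x ∉ X ∧ insert x X ∈ F) = Xᶜ.filter fun x => insert x X ∈ F := by
      ext x; simp
    have h9 : X.card + (Xᶜ).card = n := by
      rw [card_add_card_compl, Fintype.card_fin]
    rw [h6, h7]
    have h10 : (X.card : ℤ) + (Xᶜ).card = n := by exact_mod_cast h9
    have h11 : ((Xᶜ).card : ℤ) = (Xᶜ.filter fun x => insert x X ∈ F).card +
        (Xᶜ.filter fun x => ¬ insert x X ∈ F).card := by exact_mod_cast h5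
    linarith
  have h12 : ∀ X ∈ F, (2 * (X.card : ℤ) - n) =
      (((univ.filter fun x => x ∈ X ∧ X.erase x ∉ F).card : ℤ) +
        (univ.filter fun x => x ∈ X ∧ X.erase x ∈ F).card) -
      (((univ.filter fun x => x ∉ X ∧ insert x X ∉ F).card : ℤ) +
        (univ.filter fun x => x ∉ X ∧ insert x X ∈ F).card) := by
    intro X _
    rw [h4, h8]
    ring
  rw [sum_congr rfl h12, sum_sub_distrib, sum_add_distrib, sum_add_distrib, h1, h2]
  have h13 : (∑ X ∈ F, ((univ.filter fun x => x ∈ X ∧ X.erase x ∈ F).card : ℤ)) =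
      ∑ X ∈ F, ((univ.filter fun x => x ∉ X ∧ insert x X ∈ F).card : ℤ) := by
    exact_mod_cast h3
  push_cast
  rw [h13]
  ring

section

variable {α : Type*} [DecidableEq α]

/-- flip the element `x` -/
def Is_fl (X : Finset α) (x : α) : Finset α := if x ∈ X then X.erase x else insert x X

theorem Is_mem_fl {X : Finset α} {x z : α} (h : z ≠ x) : z ∈ Is_fl X x ↔ z ∈ X := by
  unfold Is_fl
  split_ifs
  · simp [h]
  · simp [h]

theorem Is_fl_erase {X : Finset α} {x z : α} (h : z ≠ x) :
    Is_fl (X.erase z) x = (Is_fl X x).erase z := by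
  unfold Is_fl
  by_cases hx : x ∈ X
  · have h1 : x ∈ X.erase z := mem_erase.2 ⟨h.symm, hx⟩
    rw [if_pos hx, if_pos h1, erase_right_comm]
  · have h1 : x ∉ X.erase z := fun h2 => hx (mem_of_mem_erase h2)
    rw [if_neg hx, if_neg h1]
    ext y
    simp only [mem_insert, mem_erase]
    constructor
    · rintro (rfl | h2)
      · exact ⟨h.symm, Or.inl rfl⟩
      · exact ⟨h2.1, Or.inr h2.2⟩
    · rintro ⟨h2, h3 | h3⟩
      · exact Or.inl h3
      · exact Or.inr ⟨h2, h3⟩

/-- the boundary in the direction `x` -/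
def Is_c (F : Finset (Finset α)) (x : α) : ℕ := (F.filter fun X => Is_fl X x ∉ F).card

theorem Is_split {F : Finset (Finset α)} {x z : α} (h : z ≠ x) :
    Is_c (F.filter fun X => z ∉ X) x + Is_c ((F.filter fun X => z ∈ X).image fun X => X.erase z) x ≤
      Is_c F x := by
  unfold Is_c
  have h1 : (F.filter fun X => Is_fl X x ∉ F).card =
      ((F.filter fun X => Is_fl X x ∉ F).filter fun X => z ∈ X).card +
      ((F.filter fun X => Is_fl X x ∉ F).filter fun X => ¬ z ∈ X).card :=
    (card_filter_add_card_filter_not _).symm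
  have h2 : ((F.filter fun X => z ∉ X).filter fun X => Is_fl X x ∉ F.filter fun X => z ∉ X) ⊆
      ((F.filter fun X => Is_fl X x ∉ F).filter fun X => ¬ z ∈ X) := by
    intro X hX
    simp only [mem_filter] at hX ⊢
    refine ⟨⟨hX.1.1, fun h3 => hX.2 ⟨h3, ?_⟩⟩, hX.1.2⟩
    rw [Is_mem_fl h]
    exact hX.1.2
  have h4 : ((((F.filter fun X => z ∈ X).image fun X => X.erase z)).filter fun X =>
      Is_fl X x ∉ (F.filter fun X => z ∈ X).image fun X => X.erase z) ⊆
      (((F.filter fun X => Is_fl X x ∉ F).filter fun X => z ∈ X)).image fun X => X.erase z := by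
    intro Y hY
    rw [mem_filter, mem_image] at hY
    obtain ⟨⟨X, hX, rfl⟩, hY⟩ := hY
    rw [mem_filter] at hX
    refine mem_image.2 ⟨X, ?_, rfl⟩
    rw [mem_filter, mem_filter]
    refine ⟨⟨hX.1, fun h5 => hY ?_⟩, hX.2⟩
    refine mem_image.2 ⟨Is_fl X x, ?_, (Is_fl_erase h).symm⟩
    exact mem_filter.2 ⟨h5, (Is_mem_fl h).2 hX.2⟩
  have h5 := card_le_card h2
  have h6 := (card_le_card h4).trans card_image_le
  omega

theorem Is_z1 {F : Finset (Finset α)} {z : α} :
    (F.filter fun X => z ∉ X).card ≤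
      ((F.filter fun X => z ∈ X).image fun X => X.erase z).card + Is_c F z := by
  have h : (F.filter fun X => z ∉ X) ⊆
      ((F.filter fun X => z ∈ X).image fun X => X.erase z) ∪ (F.filter fun X => Is_fl X z ∉ F) := by
    intro X hX
    rw [mem_filter] at hX
    by_cases h1 : insert z X ∈ F
    · refine mem_union_left _ (mem_image.2 ⟨insert z X, ?_, ?_⟩)
      · exact mem_filter.2 ⟨h1, mem_insert_self _ _⟩
      · exact erase_insert hX.2
    · refine mem_union_right _ (mem_filter.2 ⟨hX.1, ?_⟩)
      unfold Is_fl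
      rw [if_neg hX.2]
      exact h1
  exact (card_le_card h).trans (card_union_le _ _)

theorem Is_z2 {F : Finset (Finset α)} {z : α} :
    ((F.filter fun X => z ∈ X).image fun X => X.erase z).card ≤
      (F.filter fun X => z ∉ X).card + Is_c F z := by
  have h : ((F.filter fun X => z ∈ X).image fun X => X.erase z) ⊆
      (F.filter fun X => z ∉ X) ∪ (F.filter fun X => Is_fl X z ∉ F).image fun X => X.erase z := by
    intro Y hY
    rw [mem_image] at hY
    obtain ⟨X, hX, rfl⟩ := hY
    rw [mem_filter] at hX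
    by_cases h1 : X.erase z ∈ F
    · exact mem_union_left _ (mem_filter.2 ⟨h1, notMem_erase _ _⟩)
    · refine mem_union_right _ (mem_image.2 ⟨X, mem_filter.2 ⟨hX.1, ?_⟩, rfl⟩)
      unfold Is_fl
      rw [if_pos hX.2]
      exact h1
  refine (card_le_card h).trans ((card_union_le _ _).trans ?_)
  exact Nat.add_le_add_left card_image_le _

theorem Is_main (s : Finset α) : ∀ F : Finset (Finset α), F ⊆ s.powerset →
    min F.card (2 ^ s.card - F.card) ≤ ∑ x ∈ s, Is_c F x := by
  induction s using Finset.induction_on with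
  | empty =>
    intro F hF
    have h1 := card_le_card hF
    rw [card_powerset, card_empty] at h1
    rw [card_empty, sum_empty]
    simp only [pow_zero] at h1 ⊢
    omega
  | insert z s hz ih =>
    intro F hF
    have hF0 : (F.filter fun X => z ∉ X) ⊆ s.powerset := by
      intro X hX
      rw [mem_filter] at hX
      have h1 := mem_powerset.1 (hF hX.1)
      rw [mem_powerset]
      intro y hy
      rcases mem_insert.1 (h1 hy) with h2 | h2
      · exact absurd (h2 ▸ hy) hX.2
      · exact h2
    have hF1 : ((F.filter fun X => z ∈ X).image fun X => X.erase z) ⊆ s.powerset := by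
      intro Y hY
      rw [mem_image] at hY
      obtain ⟨X, hX, rfl⟩ := hY
      rw [mem_filter] at hX
      have h1 := mem_powerset.1 (hF hX.1)
      rw [mem_powerset]
      intro y hy
      rw [mem_erase] at hy
      rcases mem_insert.1 (h1 hy.2) with h2 | h2
      · exact absurd h2 hy.1
      · exact h2
    have hc : ((F.filter fun X => z ∈ X).image fun X => X.erase z).card =
        (F.filter fun X => z ∈ X).card := by
      refine card_image_of_injOn fun X hX Y hY hXY => ?_
      have h1 : z ∈ X := (mem_filter.1 (mem_coe.1 hX)).2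
      have h2 : z ∈ Y := (mem_filter.1 (mem_coe.1 hY)).2
      have h3 : X.erase z = Y.erase z := hXY
      rw [← insert_erase h1, h3, insert_erase h2]
    have hcF : F.card = (F.filter fun X => z ∈ X).card + (F.filter fun X => ¬ z ∈ X).card :=
      (card_filter_add_card_filter_not _).symm
    have i0 := ih _ hF0
    have i1 := ih _ hF1
    have c0 := card_le_card hF0
    have c1 := card_le_card hF1
    rw [card_powerset] at c0 c1
    have hs : (∑ x ∈ s, Is_c (F.filter fun X => z ∉ X) x) +
        (∑ x ∈ s, Is_c ((F.filter fun X => z ∈ X).image fun X => X.erase z) x) ≤ ∑ x ∈ s, Is_c F x := by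
      rw [← sum_add_distrib]
      refine sum_le_sum fun x hx => Is_split ?_
      rintro rfl
      exact hz hx
    have z1 := Is_z1 (F := F) (z := z)
    have z2 := Is_z2 (F := F) (z := z)
    rw [sum_insert hz, card_insert_of_notMem hz, pow_succ]
    generalize (∑ x ∈ s, Is_c (F.filter fun X => z ∉ X) x) = A at *
    generalize (∑ x ∈ s, Is_c ((F.filter fun X => z ∈ X).image fun X => X.erase z) x) = B at *
    generalize (∑ x ∈ s, Is_c F x) = C at *
    generalize ((F.filter fun X => z ∈ X).image fun X => X.erase z).card = b at *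
    generalize (F.filter fun X => z ∈ X).card = b' at *
    generalize (F.filter fun X => z ∉ X).card = a at *
    generalize 2 ^ s.card = N at *
    generalize Is_c F z = D at *
    omega

end

theorem iso (F : Finset (Finset (Fin n))) (h : 2 * F.card ≤ 2 ^ n) :
    F.card ≤ (up F).card + (dn F).card := by
  classical
  have h1 : (up F).card = ∑ x : Fin n, (F.filter fun X => x ∉ X ∧ insert x X ∉ F).card :=
    Is_cnt2 F fun X x => x ∉ X ∧ insert x X ∉ F
  have h2 : (dn F).card = ∑ x : Fin n, (F.filter fun X => x ∈ X ∧ X.erase x ∉ F).card :=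
    Is_cnt2 F fun X x => x ∈ X ∧ X.erase x ∉ F
  have h3 := Is_main (univ : Finset (Fin n)) F (fun X _ => mem_powerset.2 (subset_univ X))
  rw [card_univ, Fintype.card_fin] at h3
  have h4 : ∀ x : Fin n, Is_c F x ≤ (F.filter fun X => x ∉ X ∧ insert x X ∉ F).card +
      (F.filter fun X => x ∈ X ∧ X.erase x ∉ F).card := by
    intro x
    unfold Is_c
    have h5 : (F.filter fun X => Is_fl X x ∉ F) ⊆ (F.filter fun X => x ∉ X ∧ insert x X ∉ F) ∪
        (F.filter fun X => x ∈ X ∧ X.erase x ∉ F) := by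
      intro X hX
      rw [mem_filter] at hX
      by_cases hx : x ∈ X
      · refine mem_union_right _ (mem_filter.2 ⟨hX.1, hx, ?_⟩)
        have h6 := hX.2
        unfold Is_fl at h6
        rw [if_pos hx] at h6
        exact h6
      · refine mem_union_left _ (mem_filter.2 ⟨hX.1, hx, ?_⟩)
        have h6 := hX.2
        unfold Is_fl at h6
        rw [if_neg hx] at h6
        exact h6
    exact (card_le_card h5).trans (card_union_le _ _)
  have h7 : ∑ x : Fin n, Is_c F x ≤ (up F).card + (dn F).card := by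
    rw [h1, h2, ← sum_add_distrib]
    exact sum_le_sum fun x _ => h4 x
  have h8 : min F.card (2 ^ n - F.card) = F.card := by
    apply min_eq_left
    omega
  rw [h8] at h3
  exact h3.trans h7

end Pool.Agent.H15.RU
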