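import Pool.Agent.H15.RU.Defs

/-! Parameters. -/

set_option autoImplicit false

namespace Pool.Agent.H15.RU

/-- The range of the probability `p`. -/
def Reg (δ : ℝ) (n : ℕ) (p : ℝ) : Prop := Real.log n ^ (1 + δ) ≤ n * p ∧ p ≤ 1 - δ

/-- a constant -/
noncomputable def cA (δ : ℝ) : ℝ := Real.exp (-(1 / δ)) / 2 ^ 18

/-- a constant -/
noncomputable def bet (δ : ℝ) : ℝ := cA δ * δ / 4

/-- a constant -/
noncomputable def C1 (δ : ℝ) : ℝ := 4 * Real.exp 1 * Real.exp (1 / δ) / δ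

end Pool.Agent.H15.RU
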