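import Pool.Agent.H15.RU.Defs

/-!
# Row Pb: probability basics

Proofs. `wr_prod`: `Finset.prod_ite` and cardinalities (`∏ x, if x ∈ E then p else 1 - p`
`= p ^ E.card * (1 - p) ^ (univ \ E).card`). `sum_wr_prod`: `wr_prod`, then the product over `x` of
`if x ∈ E then p * a x else (1 - p) * b x` summed over all `E` is
`∏ x, (p * a x + (1 - p) * b x)` (`Finset.prod_add`, `Finset.powerset_univ`). `sum_wr`: `a = b = 1`.
`Ex_prod`: `wt p M * ∏ i, g i (M i) = ∏ i, wr p (M i) * g i (M i)`, then `Finset.prod_univ_sum`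
(`Fintype.piFinset_univ`). `Ex_one`: `Ex_prod` with `g = 1`. `Pr_or`, `Pr_exists`, `markov`: compare
the indicators (`c * (if c ≤ f M then 1 else 0) ≤ f M`).
-/

set_option autoImplicit false

open Finset

namespace Pool.Agent.H15.RU

variable {m n : ℕ} {p : ℝ}

theorem wr_nonneg (h0 : 0 ≤ p) (h1 : p ≤ 1) (E : Finset (Fin n)) : 0 ≤ wr p E := by
  unfold wr
  exact mul_nonneg (pow_nonneg h0 _) (pow_nonneg (by linarith) _)

theorem wt_nonneg (h0 : 0 ≤ p) (h1 : p ≤ 1) (M : Mat m n) : 0 ≤ wt p M :=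
  Finset.prod_nonneg fun i _ => wr_nonneg h0 h1 (M i)

theorem wr_prod (E : Finset (Fin n)) : wr p E = ∏ x, (if x ∈ E then p else 1 - p) := by
  rw [Finset.prod_ite, Finset.prod_const, Finset.prod_const]
  have h1 : (univ : Finset (Fin n)).filter (fun x => x ∈ E) = E := by
    ext x; simp
  have h2 : ((univ : Finset (Fin n)).filter (fun x => x ∉ E)).card = n - E.card := by
    have : (univ : Finset (Fin n)).filter (fun x => x ∉ E) = Eᶜ := by
      ext x; simp
    rw [this, Finset.card_compl, Fintype.card_fin]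
  rw [h1, h2, wr]

theorem sum_wr_prod (a b : Fin n → ℝ) :
    ∑ E : Finset (Fin n), wr p E * ∏ x, (if x ∈ E then a x else b x) =
      ∏ x, (p * a x + (1 - p) * b x) := by
  rw [Finset.prod_add, Finset.powerset_univ]
  refine Finset.sum_congr rfl fun E _ => ?_
  rw [wr_prod, ← Finset.prod_mul_distrib]
  have h : ∀ x ∈ (univ : Finset (Fin n)), (if x ∈ E then p else 1 - p) * (if x ∈ E then a x else b x) =
      (if x ∈ E then p * a x else (1 - p) * b x) := by
    intro x _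
    split_ifs <;> rfl
  rw [Finset.prod_congr rfl h, Finset.prod_ite]
  have h1 : (univ : Finset (Fin n)).filter (fun x => x ∈ E) = E := by
    ext x; simp
  have h2 : (univ : Finset (Fin n)).filter (fun x => x ∉ E) = univ \ E := by
    ext x; simp
  rw [h1, h2]

theorem sum_wr : ∑ E : Finset (Fin n), wr p E = 1 := by
  have h := sum_wr_prod (p := p) (fun _ : Fin n => 1) (fun _ => 1)
  simpa using h

theorem Ex_prod (g : Fin m → Finset (Fin n) → ℝ) :
    Ex p (fun M : Mat m n => ∏ i, g i (M i)) = ∏ i, ∑ E, wr p E * g i E := by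
  rw [Finset.prod_univ_sum, Fintype.piFinset_univ]
  unfold Ex wt
  refine Finset.sum_congr rfl fun M _ => ?_
  rw [← Finset.prod_mul_distrib]

theorem Ex_one : Ex p (fun _ : Mat m n => (1 : ℝ)) = 1 := by
  have h := Ex_prod (p := p) (m := m) (n := n) (fun _ _ => 1)
  simpa [sum_wr] using h

theorem Ex_nonneg (h0 : 0 ≤ p) (h1 : p ≤ 1) {f : Mat m n → ℝ} (hf : ∀ M, 0 ≤ f M) :
    0 ≤ Ex p f :=
  Finset.sum_nonneg fun M _ => mul_nonneg (wt_nonneg h0 h1 M) (hf M)

theorem Ex_mono (h0 : 0 ≤ p) (h1 : p ≤ 1) {f g : Mat m n → ℝ} (h : ∀ M, f M ≤ g M) :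
    Ex p f ≤ Ex p g :=
  Finset.sum_le_sum fun M _ => mul_le_mul_of_nonneg_left (h M) (wt_nonneg h0 h1 M)

theorem Ex_add (f g : Mat m n → ℝ) : Ex p (fun M => f M + g M) = Ex p f + Ex p g := by
  unfold Ex
  rw [← Finset.sum_add_distrib]
  exact Finset.sum_congr rfl fun M _ => by ring

theorem Ex_const_mul (c : ℝ) (f : Mat m n → ℝ) : Ex p (fun M => c * f M) = c * Ex p f := by
  unfold Ex
  rw [Finset.mul_sum]
  exact Finset.sum_congr rfl fun M _ => by ring

theorem Ex_sum {ι : Type*} (s : Finset ι) (f : ι → Mat m n → ℝ) :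
    Ex p (fun M => ∑ j ∈ s, f j M) = ∑ j ∈ s, Ex p (f j) := by
  unfold Ex
  rw [Finset.sum_comm]
  exact Finset.sum_congr rfl fun M _ => by rw [Finset.mul_sum]

theorem Pr_eq (P : Mat m n → Prop) [DecidablePred P] :
    Pr p P = Ex p (fun M => if P M then (1 : ℝ) else 0) := by
  unfold Pr Ex
  refine Finset.sum_congr rfl fun M _ => ?_
  by_cases h : P M <;> simp [h]

theorem Pr_nonneg (h0 : 0 ≤ p) (h1 : p ≤ 1) (P : Mat m n → Prop) : 0 ≤ Pr p P := by
  classical
  rw [Pr_eq]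
  exact Ex_nonneg h0 h1 fun M => by split_ifs <;> norm_num

theorem Pr_mono (h0 : 0 ≤ p) (h1 : p ≤ 1) {P Q : Mat m n → Prop} (h : ∀ M, P M → Q M) :
    Pr p P ≤ Pr p Q := by
  classical
  rw [Pr_eq, Pr_eq]
  refine Ex_mono h0 h1 fun M => ?_
  by_cases hP : P M
  · rw [if_pos hP, if_pos (h M hP)]
  · rw [if_neg hP]
    split_ifs <;> norm_num

theorem Pr_or (h0 : 0 ≤ p) (h1 : p ≤ 1) (P Q : Mat m n → Prop) :
    Pr p (fun M => P M ∨ Q M) ≤ Pr p P + Pr p Q := by
  classical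
  rw [Pr_eq, Pr_eq, Pr_eq, ← Ex_add]
  refine Ex_mono h0 h1 fun M => ?_
  by_cases hP : P M <;> by_cases hQ : Q M <;> simp [hP, hQ]

theorem Pr_compl (P : Mat m n → Prop) : Pr p (fun M => ¬ P M) = 1 - Pr p P := by
  classical
  have e : (fun M : Mat m n => (if ¬ P M then (1 : ℝ) else 0) + (if P M then (1 : ℝ) else 0)) =
      fun _ => 1 := by
    funext M
    by_cases hP : P M <;> simp [hP]
  rw [eq_sub_iff_add_eq, Pr_eq, Pr_eq, ← Ex_add, e, Ex_one]

theorem Pr_exists {ι : Type*} (h0 : 0 ≤ p) (h1 : p ≤ 1) (s : Finset ι)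
    (P : ι → Mat m n → Prop) : Pr p (fun M => ∃ j ∈ s, P j M) ≤ ∑ j ∈ s, Pr p (P j) := by
  classical
  have e : ∀ j ∈ s, Pr p (P j) = Ex p (fun M => if P j M then (1 : ℝ) else 0) := fun j _ => Pr_eq _
  rw [Finset.sum_congr rfl e, Pr_eq, ← Ex_sum]
  refine Ex_mono h0 h1 fun M => ?_
  have hn : ∀ j ∈ s, (0 : ℝ) ≤ if P j M then (1 : ℝ) else 0 := fun j _ => by
    split_ifs <;> norm_num
  by_cases h : ∃ j ∈ s, P j M
  · rw [if_pos h]
    obtain ⟨j, hj, hP⟩ := h
    refine le_trans ?_ (Finset.single_le_sum hn hj)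
    rw [if_pos hP]
  · rw [if_neg h]
    exact Finset.sum_nonneg hn

theorem markov (h0 : 0 ≤ p) (h1 : p ≤ 1) {f : Mat m n → ℝ} (hf : ∀ M, 0 ≤ f M) {c : ℝ}
    (hc : 0 < c) : Pr p (fun M => c ≤ f M) ≤ Ex p f / c := by
  classical
  rw [le_div_iff₀ hc, mul_comm, Pr_eq, ← Ex_const_mul]
  refine Ex_mono h0 h1 fun M => ?_
  by_cases h : c ≤ f M
  · rw [if_pos h, mul_one]; exact h
  · rw [if_neg h, mul_zero]; exact hf M

end Pool.Agent.H15.RU
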