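import Pool.Agent.H15.RU.Fm

/-!
# Row Pv: every row has a private point

Proof. For every `i` let `z i` be a point with `z i ∈ M j ↔ j = i`. Then `z i ∈ un M S ↔ i ∈ S`, so
`un M` is injective and `(fam M).card = 2 ^ m`. Case 1: some `x` lies in two different rows `i ≠ j`.
A member `un M S` does not contain `x` iff `S` avoids `J = {k | x ∈ M k}`, `J.card ≥ 2`; there are
`2 ^ (m - J.card) ≤ 2 ^ (m - 2)` such `S` (powerset of the complement of `J`; `m ≥ 2`), so
`freq (fam M) x ≥ 2 ^ m - 2 ^ (m - 2)` and `2 freq > 2 ^ m`. Case 2: the rows are pairwise disjoint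
for `i ≠ j`: `PowerLike` with `D = univ.image M`: different elements of `D` come from different
indices, and `un M S = (S.image M).sup id`; every subset of `D` is of the form `S.image M`.
-/

set_option autoImplicit false

open Finset

namespace Pool.Agent.H15.RU

variable {m n : ℕ}

theorem Pv_sup (M : Mat m n) (S : Finset (Fin m)) : (S.image M).sup id = un M S := by
  rw [sup_image, Function.id_comp, un, sup_eq_biUnion]

theorem Pv_pow {M : Mat m n} (h : ∀ i j, i ≠ j → Disjoint (M i) (M j)) : PowerLike (fam M) := by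
  refine ⟨univ.image M, ?_, ?_⟩
  · intro a ha b hb hab
    rw [coe_image] at ha hb
    obtain ⟨i, _, rfl⟩ := ha
    obtain ⟨j, _, rfl⟩ := hb
    exact h i j fun hij => hab (by rw [hij])
  · ext X
    rw [fam, mem_image, mem_image]
    constructor
    · rintro ⟨S, _, rfl⟩
      refine ⟨S.image M, ?_, Pv_sup M S⟩
      exact mem_powerset.2 (image_subset_image (subset_univ S))
    · rintro ⟨T, hT, rfl⟩
      rw [mem_powerset] at hT
      obtain ⟨S, hS⟩ : ∃ S : Finset (Fin m), S.image M = T := by
        refine ⟨univ.filter fun i => M i ∈ T, ?_⟩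
        ext Y
        rw [mem_image]
        constructor
        · rintro ⟨i, hi, rfl⟩
          exact (mem_filter.1 hi).2
        · intro hY
          obtain ⟨i, _, hi⟩ := mem_image.1 (hT hY)
          exact ⟨i, mem_filter.2 ⟨mem_univ _, hi.symm ▸ hY⟩, hi⟩
      exact ⟨S, mem_univ _, by rw [← hS, Pv_sup]⟩

theorem good_of_private {M : Mat m n} (h : ∀ i, ∃ x, ∀ j, x ∈ M j ↔ j = i) : Good (fam M) := by
  classical
  choose z hz using h
  have hzu : ∀ i S, z i ∈ un M S ↔ i ∈ S := by
    intro i S
    rw [un, mem_biUnion]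
    constructor
    · rintro ⟨j, hj, hj'⟩
      rw [hz] at hj'
      exact hj' ▸ hj
    · intro hi
      exact ⟨i, hi, (hz i i).2 rfl⟩
  have hinj : Function.Injective (un M) := by
    intro S T hST
    ext i
    rw [← hzu i S, ← hzu i T, hST]
  have hcard : (fam M).card = 2 ^ m := by
    rw [fam, card_image_of_injective _ hinj, card_univ, Fintype.card_finset, Fintype.card_fin]
  by_cases hx : ∃ x i j, i ≠ j ∧ x ∈ M i ∧ x ∈ M j
  · obtain ⟨x, i, j, hij, hi, hj⟩ := hx
    refine Or.inl ⟨x, ?_⟩
    have h1 : (fam M).card = freq (fam M) x + ((fam M).filter fun X => ¬ x ∈ X).card :=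
      (card_filter_add_card_filter_not _).symm
    have h2 : ((fam M).filter fun X => ¬ x ∈ X) ⊆ ((({i, j} : Finset (Fin m))ᶜ).powerset).image (un M) := by
      intro X hX
      rw [mem_filter, fam, mem_image] at hX
      obtain ⟨⟨S, _, rfl⟩, hxS⟩ := hX
      refine mem_image.2 ⟨S, ?_, rfl⟩
      rw [mem_powerset]
      intro k hk
      rw [mem_compl, mem_insert, mem_singleton]
      rintro (rfl | rfl)
      · exact hxS (mem_biUnion.2 ⟨k, hk, hi⟩)
      · exact hxS (mem_biUnion.2 ⟨k, hk, hj⟩)
    have h3 := (card_le_card h2).trans card_image_le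
    rw [card_powerset, card_compl, Fintype.card_fin, card_pair hij] at h3
    have h4 : 2 ≤ m := by
      have h5 := card_le_univ ({i, j} : Finset (Fin m))
      rw [card_pair hij, Fintype.card_fin] at h5
      exact h5
    obtain ⟨k, rfl⟩ := Nat.exists_eq_add_of_le h4
    have h6 : 2 + k - 2 = k := by omega
    rw [h6] at h3
    rw [hcard] at h1 ⊢
    have h7 : (2 : ℕ) ^ (2 + k) = 4 * 2 ^ k := by rw [pow_add]; norm_num
    have h8 : 0 < (2 : ℕ) ^ k := by positivity
    rw [h7] at h1 ⊢
    omega
  · refine Or.inr (Pv_pow fun i j hij => ?_)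
    rw [disjoint_left]
    intro x hi hj
    exact hx ⟨x, i, j, hij, hi, hj⟩

end Pool.Agent.H15.RU
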