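import Pool.Agent.H15.RU.Tr

/-!
# Row Pz: rows without private points

Proof. `Pr_exists` over `i` (the `m` rows): the event that row `i` has no private point has the
indicator `∏ x, (if tr M x = {i} then 0 else 1)` (`x ∈ M j ↔ j = i` for all `j` iff `tr M x = {i}`),
with expectation `∏ x, (1 - wr p {i}) = (1 - p * (1 - p) ^ (m - 1)) ^ n` (`Ex_col`, `sum_wr`).
-/

set_option autoImplicit false

open Finset

namespace Pool.Agent.H15.RU

variable {m n : ℕ} {p : ℝ}

theorem Pr_private (h0 : 0 ≤ p) (h1 : p ≤ 1) :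
    Pr p (fun M : Mat m n => ¬ ∀ i, ∃ x, ∀ j, x ∈ M j ↔ j = i) ≤
      m * (1 - p * (1 - p) ^ (m - 1)) ^ n := by
  classical
  have key : ∀ (M : Mat m n) (i : Fin m) (x : Fin n),
      tr M x = {i} ↔ ∀ j, x ∈ M j ↔ j = i := by
    intro M i x
    rw [Finset.ext_iff]
    refine forall_congr' fun j => ?_
    rw [mem_tr, Finset.mem_singleton]
  have h2 : Pr p (fun M : Mat m n => ¬ ∀ i, ∃ x, ∀ j, x ∈ M j ↔ j = i) ≤
      Pr p (fun M : Mat m n => ∃ i ∈ (univ : Finset (Fin m)), ∀ x, tr M x ≠ {i}) := by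
    refine Pr_mono h0 h1 fun M hM => ?_
    push Not at hM
    obtain ⟨i, hi⟩ := hM
    refine ⟨i, Finset.mem_univ _, fun x hx => ?_⟩
    obtain ⟨j, hj⟩ := hi x
    have h3 := (key M i x).1 hx j
    rcases hj with ⟨ha, hb⟩ | ⟨ha, hb⟩
    · exact hb (h3.1 ha)
    · exact ha (h3.2 hb)
  have h3 : ∀ i : Fin m, Pr p (fun M : Mat m n => ∀ x, tr M x ≠ {i}) =
      (1 - p * (1 - p) ^ (m - 1)) ^ n := by
    intro i
    rw [Pr_eq]
    have e : (fun M : Mat m n => (if ∀ x, tr M x ≠ {i} then (1 : ℝ) else 0)) =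
        fun M : Mat m n => ∏ x, (fun (_ : Fin n) (T : Finset (Fin m)) =>
          (if T = {i} then (0 : ℝ) else 1)) x (tr M x) := by
      funext M
      by_cases h : ∀ x, tr M x ≠ {i}
      · rw [if_pos h]
        refine (Finset.prod_eq_one fun x _ => ?_).symm
        simp only [if_neg (h x)]
      · rw [if_neg h]
        push Not at h
        obtain ⟨x, hx⟩ := h
        refine (Finset.prod_eq_zero (Finset.mem_univ x) ?_).symm
        simp only [if_pos hx]
    rw [e]
    refine (Ex_col (p := p) (m := m) (fun (_ : Fin n) (T : Finset (Fin m)) =>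
      (if T = {i} then (0 : ℝ) else 1))).trans ?_
    have h4 : ∑ T : Finset (Fin m), wr p T * (if T = {i} then (0 : ℝ) else 1) =
        1 - p * (1 - p) ^ (m - 1) := by
      have h5 : ∀ T : Finset (Fin m), wr p T * (if T = {i} then (0 : ℝ) else 1) =
          wr p T - (if T = {i} then wr p T else 0) := by
        intro T
        by_cases h : T = {i}
        · rw [if_pos h, if_pos h]; ring
        · rw [if_neg h, if_neg h]; ring
      rw [Finset.sum_congr rfl fun T _ => h5 T, Finset.sum_sub_distrib, sum_wr,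
        Finset.sum_ite_eq' Finset.univ ({i} : Finset (Fin m)) (fun T => wr p T),
        if_pos (Finset.mem_univ _)]
      congr 1
      unfold wr
      rw [Finset.card_singleton, pow_one]
    rw [Finset.prod_congr rfl fun x _ => h4, Finset.prod_const, Finset.card_univ,
      Fintype.card_fin]
  refine le_trans h2 (le_trans (Pr_exists h0 h1 _ _) ?_)
  rw [Finset.sum_congr rfl fun i _ => h3 i, Finset.sum_const, Finset.card_univ,
    Fintype.card_fin, nsmul_eq_mul]

end Pool.Agent.H15.RU
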