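import Pool.Agent.H15.RU.Pb

/-!
# Row Sw: exchanging the rows that contain `y`

Proof. Put `f E = if R E then 0 else 1`, `g E = if y ∈ E then 1 - a else 1`. Then `0 ≤ f, g ≤ 1`,
`f E = g E = 1` if `y ∉ E`, and `∑ E with y ∈ E, wr p E * f E = p - ∑ E with R E, wr p E ≤ p (1 - a) =
∑ E with y ∈ E, wr p E * g E` (`∑ E with y ∈ E, wr p E = p`: `sum_wr_prod` with `b y = 0`, all other
`a, b` equal to 1).
For a set `T` of rows let `Φ T = Ex p (fun M => h M * ∏ i, (if i ∈ T then g (M i) else f (M i)))`.
Claim: `Φ T ≤ Φ (insert j T)` for `j ∉ T`; then `Φ ∅ ≤ Φ univ` by induction on `T`, which is the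
theorem. Proof of the claim: split the sum over `M` as a sum over the rows `i ≠ j` (a function `M'`)
and over `E = M j` (`Fintype.sum_equiv` with `Equiv.piSplitAt` / `Equiv.funSplitAt j _`, or
`Fintype.sum_prod_type`); for fixed `M'` the weights and the factors with `i ≠ j` are a constant
`c ≥ 0`, so we need `∑ E, wr p E * f E * h (M', E) ≤ ∑ E, wr p E * g E * h (M', E)`. The terms with
`y ∉ E` agree; for `y ∈ E` the number `h (M', E) = H ≥ 0` does not depend on `E` (hinv), so this is
`H` times the inequality above.
-/

set_option autoImplicit false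

open Finset

namespace Pool.Agent.H15.RU

variable {m n : ℕ} {p : ℝ}

theorem Sw_wt (M : Mat m n) (j : Fin m) (E : Finset (Fin n)) :
    wt p (Function.update M j E) * wr p (M j) = wt p M * wr p E := by
  unfold wt
  rw [← Finset.mul_prod_erase univ (fun i => wr p (Function.update M j E i)) (Finset.mem_univ j),
    ← Finset.mul_prod_erase univ (fun i => wr p (M i)) (Finset.mem_univ j), Function.update_self,
    Finset.prod_congr rfl (g := fun i => wr p (M i))]
  · ring
  · intro i hi
    rw [Function.update_of_ne (Finset.ne_of_mem_erase hi)]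

/-- resampling of one row -/
theorem Sw_res (j : Fin m) (F : Mat m n → ℝ) :
    Ex p F = Ex p (fun M => ∑ E, wr p E * F (Function.update M j E)) := by
  have h1 : Ex p (fun M => ∑ E, wr p E * F (Function.update M j E)) =
      ∑ q : Mat m n × Finset (Fin n), wt p q.1 * (wr p q.2 * F (Function.update q.1 j q.2)) := by
    rw [Fintype.sum_prod_type]
    unfold Ex
    exact Finset.sum_congr rfl fun M _ => by rw [Finset.mul_sum]
  have h2 : Ex p F = ∑ q : Mat m n × Finset (Fin n), wt p q.1 * (wr p q.2 * F q.1) := by
    rw [Fintype.sum_prod_type]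
    unfold Ex
    refine Finset.sum_congr rfl fun M _ => ?_
    simp only
    rw [← Finset.mul_sum, ← Finset.sum_mul, sum_wr, one_mul]
  rw [h1, h2]
  let e : Mat m n × Finset (Fin n) ≃ Mat m n × Finset (Fin n) :=
    { toFun := fun q => (Function.update q.1 j q.2, q.1 j)
      invFun := fun q => (Function.update q.1 j q.2, q.1 j)
      left_inv := fun q => by simp
      right_inv := fun q => by simp }
  refine (Fintype.sum_equiv e _ _ fun q => ?_).symm
  change wt p q.1 * (wr p q.2 * F (Function.update q.1 j q.2)) =
    wt p (Function.update q.1 j q.2) * (wr p (q.1 j) * F (Function.update q.1 j q.2))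
  rw [← mul_assoc, ← mul_assoc, Sw_wt]

theorem Sw_mem (y : Fin n) :
    ∑ E : Finset (Fin n), wr p E * (if y ∈ E then (1 : ℝ) else 0) = p := by
  have h1 := sum_wr_prod (p := p) (fun _ : Fin n => (1 : ℝ)) fun x => if x = y then 0 else 1
  have h2 : ∀ E : Finset (Fin n), (if y ∈ E then (1 : ℝ) else 0) =
      ∏ x, (if x ∈ E then (1 : ℝ) else (if x = y then 0 else 1)) := by
    intro E
    rw [Finset.prod_eq_single y]
    · simp
    · intro x _ hx
      simp [hx]
    · simp
  rw [Finset.sum_congr rfl fun E _ => by rw [h2 E]]
  refine h1.trans ?_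
  rw [Finset.prod_eq_single y]
  · simp
  · intro x _ hx
    simp [hx]
  · simp

theorem switch (h0 : 0 ≤ p) (h1 : p ≤ 1) (y : Fin n) (h : Mat m n → ℝ) (hh : ∀ M, 0 ≤ h M)
    (hinv : ∀ (M : Mat m n) (i : Fin m) (E E' : Finset (Fin n)), y ∈ E → y ∈ E' →
      h (Function.update M i E) = h (Function.update M i E'))
    (R : Finset (Fin n) → Prop) [DecidablePred R] (hR : ∀ E, R E → y ∈ E) {a : ℝ}
    (ha : p * a ≤ ∑ E ∈ univ.filter R, wr p E) (ha0 : 0 ≤ a) (ha1 : a ≤ 1) :
    Ex p (fun M => h M * ∏ i, (if R (M i) then (0 : ℝ) else 1)) ≤
      Ex p (fun M => h M * ∏ i, (if y ∈ M i then 1 - a else 1)) := by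
  set f : Finset (Fin n) → ℝ := fun E => if R E then 0 else 1 with hf
  set g : Finset (Fin n) → ℝ := fun E => if y ∈ E then 1 - a else 1 with hg
  have hf0 : ∀ E, 0 ≤ f E := fun E => by simp only [hf]; split_ifs <;> norm_num
  have hg0 : ∀ E, 0 ≤ g E := fun E => by simp only [hg]; split_ifs <;> linarith
  have key : ∀ T : Finset (Fin m), Ex p (fun M => h M * ∏ i, f (M i)) ≤
      Ex p (fun M => h M * ∏ i, (if i ∈ T then g (M i) else f (M i))) := by
    intro T
    induction T using Finset.induction_on with
    | empty => simp
    | insert j T hj ih =>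
      refine ih.trans ?_
      rw [Sw_res j, Sw_res (p := p) j
        (fun M => h M * ∏ i, (if i ∈ insert j T then g (M i) else f (M i)))]
      refine Ex_mono h0 h1 fun M => ?_
      set c : ℝ := ∏ i ∈ univ.erase j, (if i ∈ T then g (M i) else f (M i)) with hc
      have hc0 : 0 ≤ c := Finset.prod_nonneg fun i _ => by
        split_ifs
        · exact hg0 _
        · exact hf0 _
      have e1 : ∀ E, ∏ i, (if i ∈ T then g (Function.update M j E i) else
          f (Function.update M j E i)) = f E * c := by
        intro E
        rw [← Finset.mul_prod_erase univ _ (Finset.mem_univ j), if_neg hj, Function.update_self, hc]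
        congr 1
        refine Finset.prod_congr rfl fun i hi => ?_
        rw [Function.update_of_ne (Finset.ne_of_mem_erase hi)]
      have e2 : ∀ E, ∏ i, (if i ∈ insert j T then g (Function.update M j E i) else
          f (Function.update M j E i)) = g E * c := by
        intro E
        rw [← Finset.mul_prod_erase univ _ (Finset.mem_univ j), if_pos (Finset.mem_insert_self _ _),
          Function.update_self, hc]
        congr 1
        refine Finset.prod_congr rfl fun i hi => ?_
        have hi' := Finset.ne_of_mem_erase hi
        rw [Function.update_of_ne hi']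
        simp [hi']
      have e3 : ∑ E, wr p E * (h (Function.update M j E) *
          ∏ i, (if i ∈ insert j T then g (Function.update M j E i) else
          f (Function.update M j E i))) - ∑ E, wr p E * (h (Function.update M j E) *
          ∏ i, (if i ∈ T then g (Function.update M j E i) else
          f (Function.update M j E i))) = c * h (Function.update M j {y}) *
          ((∑ E, wr p E * (if R E then (1 : ℝ) else 0)) -
            a * ∑ E : Finset (Fin n), wr p E * (if y ∈ E then (1 : ℝ) else 0)) := by
        rw [← Finset.sum_sub_distrib, Finset.mul_sum (a := a), ← Finset.sum_sub_distrib,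
          Finset.mul_sum]
        refine Finset.sum_congr rfl fun E _ => ?_
        rw [e1, e2]
        by_cases hE : y ∈ E
        · rw [hinv M j E {y} hE (Finset.mem_singleton_self y)]
          simp only [hf, hg, if_pos hE]
          by_cases hRE : R E
          · simp only [if_pos hRE]; ring
          · simp only [if_neg hRE]; ring
        · have hRE : ¬ R E := fun h' => hE (hR E h')
          simp only [hf, hg, if_neg hE, if_neg hRE]
          ring
      have e4 : ∑ E, wr p E * (if R E then (1 : ℝ) else 0) = ∑ E ∈ univ.filter R, wr p E := by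
        rw [Finset.sum_filter]
        exact Finset.sum_congr rfl fun E _ => by split_ifs <;> simp
      rw [e4, Sw_mem] at e3
      have e5 : 0 ≤ c * h (Function.update M j {y}) *
          ((∑ E ∈ univ.filter R, wr p E) - a * p) :=
        mul_nonneg (mul_nonneg hc0 (hh _)) (by linarith)
      rw [← e3] at e5
      exact sub_nonneg.1 e5
  have := key univ
  simpa using this

end Pool.Agent.H15.RU
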