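import Pool.Agent.H15.RU.Tr
import Pool.Agent.H15.RU.Fm

/-!
# Row Ua: small members

Proofs. `small_le`: let `X ∈ fam M`, `X.card ≤ s`, `T = {i | M i ⊆ X}`, `un M T = X` (eq_un). If
`k ≤ T.card` choose `S ⊆ T` with `S.card = k` (`Finset.exists_subset_card_eq`): `(X, S) ∈ insd M k s`.
Otherwise `X` is in the image under `un M` of the sets of cardinality `< k`, of which there are
`∑ i ∈ range k, m.choose i` (`card_powersetCard`, disjoint union over `range k`, or
`Finset.card_le_card` in the `biUnion`). So the filter is contained in the union of this image and of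
the first projections of `insd M k s`.
`Ex_insd`: `(insd M k s).card` is the sum over the pairs `(X, S)` with `X.card ≤ s`, `S.card = k` of
`∏ i, (if i ∈ S then (if M i ⊆ X then 1 else 0) else 1)`. By `Ex_sum`, `Ex_prod`, `sum_sub`, `sum_wr`
the expectation of the product is `((1 - p) ^ (n - X.card)) ^ k ≤ (1 - p) ^ (k * (n - s))`. There are
at most `2 ^ n` sets `X` and `m.choose k` sets `S`.
-/

set_option autoImplicit false

open Finset

namespace Pool.Agent.H15.RU

variable {m n : ℕ} {p : ℝ}

theorem Ua_cnt (k : ℕ) :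
    ((univ : Finset (Finset (Fin m))).filter fun T => T.card < k).card ≤
      ∑ i ∈ range k, m.choose i := by
  rw [Finset.card_eq_sum_card_fiberwise (f := Finset.card) (t := range k)
    (fun T hT => Finset.mem_coe.2 (Finset.mem_range.2
      (Finset.mem_filter.1 (Finset.mem_coe.1 hT)).2))]
  refine Finset.sum_le_sum fun i _ => ?_
  have h : (((univ : Finset (Finset (Fin m))).filter fun T => T.card < k).filter
      fun T => T.card = i) ⊆ Finset.powersetCard i univ := by
    intro T hT
    rw [Finset.mem_powersetCard]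
    exact ⟨Finset.subset_univ _, (Finset.mem_filter.1 hT).2⟩
  refine (Finset.card_le_card h).trans ?_
  rw [Finset.card_powersetCard, Finset.card_univ, Fintype.card_fin]

theorem small_le (M : Mat m n) (k s : ℕ) :
    ((fam M).filter fun X => X.card ≤ s).card ≤
      ∑ i ∈ range k, m.choose i + (insd M k s).card := by
  have hsub : ((fam M).filter fun X => X.card ≤ s) ⊆
      (((univ : Finset (Finset (Fin m))).filter fun T => T.card < k).image (un M)) ∪
        ((insd M k s).image Prod.fst) := by
    intro X hX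
    obtain ⟨hXf, hXs⟩ := Finset.mem_filter.1 hX
    rw [Finset.mem_union]
    by_cases hk : k ≤ ((univ : Finset (Fin m)).filter fun i => M i ⊆ X).card
    · right
      obtain ⟨S, hS, hSk⟩ := Finset.exists_subset_card_eq hk
      refine Finset.mem_image.2 ⟨(X, S), ?_, rfl⟩
      unfold insd
      rw [Finset.mem_filter]
      exact ⟨Finset.mem_univ _, hXs, hSk, fun i hi => (Finset.mem_filter.1 (hS hi)).2⟩
    · left
      refine Finset.mem_image.2 ⟨(univ : Finset (Fin m)).filter fun i => M i ⊆ X, ?_, eq_un hXf⟩
      rw [Finset.mem_filter]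
      exact ⟨Finset.mem_univ _, not_le.1 hk⟩
  refine (Finset.card_le_card hsub).trans ((Finset.card_union_le _ _).trans ?_)
  exact add_le_add (Finset.card_image_le.trans (Ua_cnt k)) Finset.card_image_le

theorem Ua_one (X : Finset (Fin n)) (S : Finset (Fin m)) :
    Ex p (fun M : Mat m n => if ∀ i ∈ S, M i ⊆ X then (1 : ℝ) else 0) =
      ((1 - p) ^ (n - X.card)) ^ S.card := by
  have h1 : (fun M : Mat m n => if ∀ i ∈ S, M i ⊆ X then (1 : ℝ) else 0) =
      fun M : Mat m n => ∏ i, (if i ∈ S then (if M i ⊆ X then (1 : ℝ) else 0) else 1) := by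
    funext M
    by_cases h : ∀ i ∈ S, M i ⊆ X
    · rw [if_pos h]
      symm
      refine Finset.prod_eq_one fun i _ => ?_
      by_cases hi : i ∈ S
      · rw [if_pos hi, if_pos (h i hi)]
      · rw [if_neg hi]
    · rw [if_neg h]
      push Not at h
      obtain ⟨i, hi, hiX⟩ := h
      symm
      refine Finset.prod_eq_zero (Finset.mem_univ i) ?_
      rw [if_pos hi, if_neg hiX]
  rw [h1, Ex_prod (p := p) (m := m) (n := n)
    (fun i E => if i ∈ S then (if E ⊆ X then (1 : ℝ) else 0) else 1)]
  have h2 : ∀ i ∈ (univ : Finset (Fin m)),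
      (∑ E : Finset (Fin n), wr p E * (if i ∈ S then (if E ⊆ X then (1 : ℝ) else 0) else 1)) =
        if i ∈ S then (1 - p) ^ (n - X.card) else 1 := by
    intro i _
    by_cases hi : i ∈ S
    · simp only [if_pos hi]
      exact sum_sub X
    · simp only [if_neg hi, mul_one]
      exact sum_wr
  rw [Finset.prod_congr rfl h2, Finset.prod_ite, Finset.prod_const, Finset.prod_const_one, mul_one]
  congr 2
  ext x
  simp

theorem Ex_insd (h0 : 0 ≤ p) (h1 : p ≤ 1) (k s : ℕ) :
    Ex p (fun M : Mat m n => ((insd M k s).card : ℝ)) ≤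
      2 ^ n * m.choose k * (1 - p) ^ (k * (n - s)) := by
  have e : (fun M : Mat m n => ((insd M k s).card : ℝ)) = fun M : Mat m n =>
      ∑ XS ∈ (univ : Finset (Finset (Fin n) × Finset (Fin m))).filter
        (fun XS => XS.1.card ≤ s ∧ XS.2.card = k),
        if ∀ i ∈ XS.2, M i ⊆ XS.1 then (1 : ℝ) else 0 := by
    funext M
    rw [Finset.sum_boole, Finset.filter_filter]
    congr 2
    unfold insd
    ext XS
    simp only [Finset.mem_filter, Finset.mem_univ, true_and]
    tauto
  rw [e, Ex_sum]
  have h2 : ∀ XS ∈ (univ : Finset (Finset (Fin n) × Finset (Fin m))).filter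
        (fun XS => XS.1.card ≤ s ∧ XS.2.card = k),
      Ex p (fun M : Mat m n => if ∀ i ∈ XS.2, M i ⊆ XS.1 then (1 : ℝ) else 0) ≤
        (1 - p) ^ (k * (n - s)) := by
    intro XS hXS
    obtain ⟨_, hs, hk⟩ := Finset.mem_filter.1 hXS
    rw [Ua_one, ← pow_mul, hk]
    refine pow_le_pow_of_le_one (by linarith) (by linarith) ?_
    rw [Nat.mul_comm]
    exact Nat.mul_le_mul_right k (Nat.sub_le_sub_left hs n)
  refine (Finset.sum_le_card_nsmul _ _ _ h2).trans ?_
  rw [nsmul_eq_mul]
  refine mul_le_mul_of_nonneg_right ?_ (pow_nonneg (by linarith) _)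
  have hc : ((univ : Finset (Finset (Fin n) × Finset (Fin m))).filter
        (fun XS => XS.1.card ≤ s ∧ XS.2.card = k)).card ≤ 2 ^ n * m.choose k := by
    have hsub : ((univ : Finset (Finset (Fin n) × Finset (Fin m))).filter
        (fun XS => XS.1.card ≤ s ∧ XS.2.card = k)) ⊆
        (univ : Finset (Finset (Fin n))) ×ˢ Finset.powersetCard k (univ : Finset (Fin m)) := by
      intro XS hXS
      rw [Finset.mem_product, Finset.mem_powersetCard]
      exact ⟨Finset.mem_univ _, Finset.subset_univ _, (Finset.mem_filter.1 hXS).2.2⟩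
    refine (Finset.card_le_card hsub).trans ?_
    rw [Finset.card_product, Finset.card_powersetCard, Finset.card_univ, Finset.card_univ,
      Fintype.card_finset, Fintype.card_fin, Fintype.card_fin]
  exact_mod_cast hc

end Pool.Agent.H15.RU
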