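import Pool.Agent.H15.RU.An
import Pool.Agent.H15.RU.Bn

/-!
# Row Xs: sums of binomial coefficients

Write `q = 1 - p`. Proofs. `q ≥ exp (-1 / δ)` (one_sub_low), so `p m q ^ b < 2 ℓ exp (1 / δ)`, and as
`δ ≤ p k`: `exp 1 * m / k ≤ (C1 δ / 2) ℓ (q ^ b)⁻¹` (*).
(i) If `k = 1` the sum is 1 and `C1 δ * ℓ ≥ 1`, `4 ^ b ≥ 1` (`δ < 1`). If `k ≥ 2`: by `sum_choose_le`
for `k - 1` the sum is at most `(exp 1 * m / (k - 1)) ^ (k - 1)`, and `1 / (k - 1) ≤ 2 / k`, so by (*)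
at most `(C1 δ * ℓ) ^ (k - 1) * ((q ^ (k - 1))⁻¹) ^ b ≤ (C1 δ * ℓ) ^ (k - 1) * 4 ^ b`.
(ii) By `sum_choose_le` for `k` and (*): `m.choose k ≤ (C1 δ * ℓ) ^ k * ((q ^ k) ^ b)⁻¹`, and
`(q ^ k)⁻¹ ^ b * (q ^ k) ^ (n - n / 2) = (q ^ k) ^ (n - n / 2 - b) ≤ (1 / 4) ^ (n - n / 2 - b)`
(`b ≤ n / 2 ≤ n - n / 2`), and `2 ^ n ≤ 4 ^ (n - n / 2)`.
-/

set_option autoImplicit false

open Finset

namespace Pool.Agent.H15.RU

theorem Xs_C1 {δ ℓ : ℝ} (hδ : 0 < δ) (hδ1 : δ < 1) (hℓ : 1 ≤ ℓ) : 1 ≤ C1 δ * ℓ := by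
  have h1 : 1 ≤ C1 δ := by
    unfold C1
    rw [le_div_iff₀ hδ, one_mul]
    have h2 : (1 : ℝ) ≤ Real.exp 1 := Real.one_le_exp (by norm_num)
    have h3 : (1 : ℝ) ≤ Real.exp (1 / δ) := Real.one_le_exp (by positivity)
    nlinarith
  nlinarith

theorem Xs_star {δ p ℓ : ℝ} {m k b : ℕ} (hδ : 0 < δ) (h0 : 0 < p) (h1 : p ≤ 1 - δ)
    (hk : 1 ≤ k) (hk4 : δ ≤ p * k) (hℓ : 1 ≤ ℓ)
    (hb : p * m * (1 - p) ^ (b + 1) < 2 * ℓ) :
    Real.exp 1 * m / k ≤ C1 δ * ℓ / 2 * ((1 - p) ^ b)⁻¹ := by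
  have hq : 0 < 1 - p := by linarith
  have hk0 : (0 : ℝ) < k := by exact_mod_cast hk
  have hqb : 0 < (1 - p) ^ b := pow_pos hq b
  have hlow := one_sub_low hδ h0 h1
  have hE : 0 < Real.exp (1 / δ) := Real.exp_pos _
  have hE1 : 1 ≤ Real.exp (1 / δ) * (1 - p) := by
    have := mul_le_mul_of_nonneg_left hlow hE.le
    rwa [← Real.exp_add, add_neg_cancel, Real.exp_zero] at this
  have hm0 : (0 : ℝ) ≤ m := Nat.cast_nonneg m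
  -- p m q^b ≤ 2 ℓ exp(1/δ)
  have h2 : p * m * (1 - p) ^ b ≤ 2 * ℓ * Real.exp (1 / δ) := by
    have h3 : 0 ≤ p * m * (1 - p) ^ b := by positivity
    calc p * m * (1 - p) ^ b ≤ p * m * (1 - p) ^ b * (Real.exp (1 / δ) * (1 - p)) :=
          le_mul_of_one_le_right h3 hE1
      _ = p * m * (1 - p) ^ (b + 1) * Real.exp (1 / δ) := by ring
      _ ≤ 2 * ℓ * Real.exp (1 / δ) := mul_le_mul_of_nonneg_right hb.le hE.le
  rw [← div_eq_mul_inv, div_le_div_iff₀ hk0 hqb]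
  have h4 : δ * (m * (1 - p) ^ b) ≤ 2 * ℓ * Real.exp (1 / δ) * k := by
    have h5 : 0 ≤ (m : ℝ) * (1 - p) ^ b := by positivity
    calc δ * (m * (1 - p) ^ b) ≤ p * k * (m * (1 - p) ^ b) := mul_le_mul_of_nonneg_right hk4 h5
      _ = p * m * (1 - p) ^ b * k := by ring
      _ ≤ _ := mul_le_mul_of_nonneg_right h2 hk0.le
  have h6 : (m : ℝ) * (1 - p) ^ b ≤ 2 * ℓ * Real.exp (1 / δ) * k / δ := by
    rw [le_div_iff₀ hδ]
    linarith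
  calc Real.exp 1 * m * (1 - p) ^ b = Real.exp 1 * (m * (1 - p) ^ b) := by ring
    _ ≤ Real.exp 1 * (2 * ℓ * Real.exp (1 / δ) * k / δ) :=
        mul_le_mul_of_nonneg_left h6 (Real.exp_pos _).le
    _ = C1 δ * ℓ / 2 * k := by unfold C1; ring

theorem zoneB_sum {δ p ℓ : ℝ} {m k b : ℕ} (hδ : 0 < δ) (h0 : 0 < p) (h1 : p ≤ 1 - δ)
    (hk : 1 ≤ k) (hkm : k ≤ m) (hk3 : 1 / 4 < (1 - p) ^ (k - 1))
    (hk4 : δ ≤ p * k) (hℓ : 1 ≤ ℓ) (hb : p * m * (1 - p) ^ (b + 1) < 2 * ℓ) :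
    ∑ i ∈ range k, (m.choose i : ℝ) ≤ (C1 δ * ℓ) ^ k * 4 ^ b := by
  have hδ1 : δ < 1 := by linarith
  have hq : 0 < 1 - p := by linarith
  have hC := Xs_C1 hδ hδ1 hℓ
  have hC0 : 0 ≤ C1 δ * ℓ := by linarith
  have h4b : (1 : ℝ) ≤ 4 ^ b := one_le_pow₀ (by norm_num)
  obtain ⟨j, rfl⟩ : ∃ j, k = j + 1 := ⟨k - 1, by omega⟩
  rcases Nat.eq_zero_or_pos j with hj | hj
  · subst hj
    simp only [zero_add, Finset.sum_range_one, Nat.choose_zero_right, Nat.cast_one, pow_one]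
    nlinarith
  · have hstar := Xs_star hδ h0 h1 hk hk4 hℓ hb
    have hj0 : (0 : ℝ) < j := by exact_mod_cast hj
    have hqb : 0 < (1 - p) ^ b := pow_pos hq b
    have h2 := sum_choose_le (m := m) (k := j) hj (by omega)
    rw [Nat.add_sub_cancel] at hk3
    have h3 : Real.exp 1 * m / j ≤ C1 δ * ℓ * ((1 - p) ^ b)⁻¹ := by
      have h5 : Real.exp 1 * m / j ≤ 2 * (Real.exp 1 * m / ((j + 1 : ℕ) : ℝ)) := by
        push_cast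
        rw [mul_div_assoc', div_le_div_iff₀ hj0 (by positivity)]
        have h6 : (0 : ℝ) ≤ Real.exp 1 * m := by positivity
        have h7 : (1 : ℝ) ≤ j := by exact_mod_cast hj
        nlinarith
      calc Real.exp 1 * m / j ≤ 2 * (Real.exp 1 * m / ((j + 1 : ℕ) : ℝ)) := h5
        _ ≤ 2 * (C1 δ * ℓ / 2 * ((1 - p) ^ b)⁻¹) := mul_le_mul_of_nonneg_left hstar (by norm_num)
        _ = _ := by ring
    have h8 : (((1 - p) ^ b)⁻¹) ^ j ≤ 4 ^ b := by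
      rw [inv_pow, ← pow_mul, mul_comm b j, pow_mul, ← inv_pow]
      refine pow_le_pow_left₀ (by positivity) ?_ b
      rw [inv_le_comm₀ (pow_pos hq j) (by norm_num)]
      linarith
    calc ∑ i ∈ range (j + 1), (m.choose i : ℝ) ≤ (Real.exp 1 * m / j) ^ j := h2
      _ ≤ (C1 δ * ℓ * ((1 - p) ^ b)⁻¹) ^ j := pow_le_pow_left₀ (by positivity) h3 j
      _ = (C1 δ * ℓ) ^ j * (((1 - p) ^ b)⁻¹) ^ j := by rw [mul_pow]
      _ ≤ (C1 δ * ℓ) ^ (j + 1) * 4 ^ b :=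
          mul_le_mul (pow_le_pow_right₀ hC (Nat.le_succ j)) h8 (by positivity) (by positivity)

theorem zoneB_insd {δ p ℓ : ℝ} {n m k b : ℕ} (hδ : 0 < δ) (h0 : 0 < p) (h1 : p ≤ 1 - δ)
    (hk : 1 ≤ k) (hkm : k ≤ m) (hk2 : (1 - p) ^ k ≤ 1 / 4)
    (hk4 : δ ≤ p * k) (hℓ : 1 ≤ ℓ) (hb : p * m * (1 - p) ^ (b + 1) < 2 * ℓ) (hbn : 2 * b ≤ n) :
    (2 : ℝ) ^ n * m.choose k * (1 - p) ^ (k * (n - n / 2)) ≤ (C1 δ * ℓ) ^ k * 4 ^ b := by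
  have hδ1 : δ < 1 := by linarith
  have hq : 0 < 1 - p := by linarith
  have hC := Xs_C1 hδ hδ1 hℓ
  have hC0 : 0 ≤ C1 δ * ℓ := by linarith
  have hstar := Xs_star hδ h0 h1 hk hk4 hℓ hb
  have hqb : 0 < (1 - p) ^ b := pow_pos hq b
  have h2 := sum_choose_le (m := m) (k := k) hk hkm
  have h3 : (m.choose k : ℝ) ≤ (C1 δ * ℓ) ^ k * (((1 - p) ^ k) ^ b)⁻¹ := by
    have h4 : (m.choose k : ℝ) ≤ ∑ i ∈ range (k + 1), (m.choose i : ℝ) :=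
      Finset.single_le_sum (f := fun i => (m.choose i : ℝ)) (fun i _ => Nat.cast_nonneg _)
        (Finset.self_mem_range_succ k)
    have h5 : C1 δ * ℓ / 2 * ((1 - p) ^ b)⁻¹ ≤ C1 δ * ℓ * ((1 - p) ^ b)⁻¹ :=
      mul_le_mul_of_nonneg_right (by linarith) (by positivity)
    calc (m.choose k : ℝ) ≤ (Real.exp 1 * m / k) ^ k := h4.trans h2
      _ ≤ (C1 δ * ℓ * ((1 - p) ^ b)⁻¹) ^ k :=
          pow_le_pow_left₀ (by positivity) (hstar.trans h5) k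
      _ = _ := by rw [mul_pow, inv_pow, ← pow_mul, ← pow_mul, mul_comm b k]
  obtain ⟨N, hN⟩ : ∃ N, N = n - n / 2 := ⟨_, rfl⟩
  rw [← hN]
  have hbN : b ≤ N := by omega
  have h6 : (2 : ℝ) ^ n ≤ 4 ^ N := by
    have : (4 : ℝ) ^ N = 2 ^ (2 * N) := by rw [pow_mul]; norm_num
    rw [this]
    exact pow_le_pow_right₀ (by norm_num) (by omega)
  have h7 : (((1 - p) ^ k) ^ b)⁻¹ * (1 - p) ^ (k * N) ≤ (1 / 4) ^ (N - b) := by
    have e : (1 - p) ^ (k * N) = ((1 - p) ^ k) ^ b * ((1 - p) ^ k) ^ (N - b) := by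
      rw [← pow_add, ← pow_mul]
      congr 2
      omega
    rw [e, ← mul_assoc, inv_mul_cancel₀ (by positivity), one_mul]
    exact pow_le_pow_left₀ (by positivity) hk2 _
  have h8 : (4 : ℝ) ^ N * (1 / 4) ^ (N - b) = 4 ^ b := by
    have e : (4 : ℝ) ^ N = 4 ^ b * 4 ^ (N - b) := by
      rw [← pow_add]
      congr 1
      omega
    rw [e, mul_assoc, ← mul_pow]
    norm_num
  calc (2 : ℝ) ^ n * m.choose k * (1 - p) ^ (k * N)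
      ≤ 4 ^ N * ((C1 δ * ℓ) ^ k * (((1 - p) ^ k) ^ b)⁻¹) * (1 - p) ^ (k * N) := by
        refine mul_le_mul_of_nonneg_right ?_ (by positivity)
        exact mul_le_mul h6 h3 (Nat.cast_nonneg _) (by positivity)
    _ = (C1 δ * ℓ) ^ k * (4 ^ N * ((((1 - p) ^ k) ^ b)⁻¹ * (1 - p) ^ (k * N))) := by ring
    _ ≤ (C1 δ * ℓ) ^ k * (4 ^ N * (1 / 4) ^ (N - b)) := by
        refine mul_le_mul_of_nonneg_left ?_ (by positivity)
        exact mul_le_mul_of_nonneg_left h7 (by positivity)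
    _ = _ := by rw [h8]

end Pool.Agent.H15.RU
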