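import Pool.Agent.H15.RU.An
import Pool.Agent.H15.RU.Pz
import Pool.Agent.H15.RU.Pv

/-!
# Row Zo: few rows

Proof. Let `n` be so large that `ℓ = log n ≥ 1`, `n ≥ 3` and `1 / n ≤ ε`. By `good_of_private`,
`Pr_mono` and `Pr_private` the probability is at most `m (1 - p (1 - p) ^ (m - 1)) ^ n`. For `m = 0`
this is `0`. Let `m ≥ 1`. It is at most `m exp (-n p (1 - p) ^ (m - 1)) ≤ m exp (-n p (1 - p) ^ m)
≤ m exp (-3 ℓ) = m / n ^ 3`. Moreover `m ≤ n`: `(1 - p) ^ m ≥ 3 ℓ / (n p) ≥ 1 / n` (`p ≤ 1`), and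
`(1 - p) ^ m ≤ exp (-p m)`, so `p m ≤ ℓ ≤ n p` (`n p ≥ ℓ ^ (1 + δ) ≥ ℓ`), and `p > 0`.
-/

set_option autoImplicit false

namespace Pool.Agent.H15.RU

theorem zone0 {δ ε : ℝ} (hδ : 0 < δ) (hε : 0 < ε) :
    ∃ N : ℕ, ∀ n ≥ N, ∀ (m : ℕ) (p : ℝ), Reg δ n p →
      3 * Real.log n ≤ n * p * (1 - p) ^ m →
      Pr p (fun M : Mat m n => ¬ Good (fam M)) ≤ ε := by
  obtain ⟨N1, hN1⟩ := log_large 1
  refine ⟨max N1 (max 3 ⌈1 / ε⌉₊), fun n hn m p hR h3 => ?_⟩
  have hnN1 : N1 ≤ n := le_trans (le_max_left _ _) hn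
  have hn3 : 3 ≤ n := le_trans (le_trans (le_max_left _ _) (le_max_right _ _)) hn
  have hnε : ⌈1 / ε⌉₊ ≤ n := le_trans (le_trans (le_max_right _ _) (le_max_right _ _)) hn
  have hl1 : 1 ≤ Real.log n := hN1 n hnN1
  have hn0 : (0 : ℝ) < n := by
    have : (3 : ℝ) ≤ n := by exact_mod_cast hn3
    linarith
  have hn1 : (1 : ℝ) ≤ n := by
    have : (3 : ℝ) ≤ n := by exact_mod_cast hn3
    linarith
  have hεn : 1 / (n : ℝ) ≤ ε := by
    have h1 : 1 / ε ≤ n := le_trans (Nat.le_ceil _) (by exact_mod_cast hnε)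
    rw [div_le_iff₀ hε] at h1
    rw [div_le_iff₀ hn0]
    linarith
  obtain ⟨hp0, hp1, -⟩ := reg_pos hδ hn3 hR
  have hq0 : 0 ≤ 1 - p := by linarith
  have hq1 : 1 - p ≤ 1 := by linarith
  have hlnp : Real.log n ≤ n * p := by
    refine le_trans ?_ hR.1
    calc Real.log n = Real.log n ^ (1 : ℝ) := (Real.rpow_one _).symm
      _ ≤ Real.log n ^ (1 + δ) := Real.rpow_le_rpow_of_exponent_le hl1 (by linarith)
  have hP : Pr p (fun M : Mat m n => ¬ Good (fam M)) ≤
      m * (1 - p * (1 - p) ^ (m - 1)) ^ n :=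
    le_trans (Pr_mono hp0.le hp1.le fun M hM hh => hM (good_of_private hh))
      (Pr_private hp0.le hp1.le)
  refine le_trans hP ?_
  rcases Nat.eq_zero_or_pos m with hm | hm
  · subst hm
    simp only [Nat.cast_zero, zero_mul]
    exact hε.le
  set q : ℝ := p * (1 - p) ^ m with hq
  have hq' : q ≤ p * (1 - p) ^ (m - 1) :=
    mul_le_mul_of_nonneg_left (pow_le_pow_of_le_one hq0 hq1 (Nat.sub_le _ _)) hp0.le
  have hle1 : p * (1 - p) ^ (m - 1) ≤ 1 := by
    calc p * (1 - p) ^ (m - 1) ≤ 1 * 1 :=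
          mul_le_mul hp1.le (pow_le_one₀ hq0 hq1) (pow_nonneg hq0 _) zero_le_one
      _ = 1 := one_mul 1
  have hbase : 1 - p * (1 - p) ^ (m - 1) ≤ Real.exp (-q) := by
    have := Real.add_one_le_exp (-q)
    linarith
  have hpow : (1 - p * (1 - p) ^ (m - 1)) ^ n ≤ Real.exp (-(3 * Real.log n)) := by
    calc (1 - p * (1 - p) ^ (m - 1)) ^ n ≤ Real.exp (-q) ^ n :=
          pow_le_pow_left₀ (by linarith) hbase n
      _ = Real.exp (n * (-q)) := (Real.exp_nat_mul _ _).symm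
      _ ≤ Real.exp (-(3 * Real.log n)) := by
          apply Real.exp_le_exp.2
          have : 3 * Real.log n ≤ n * q := by
            rw [hq, ← mul_assoc]
            exact h3
          linarith
  have hexp : Real.exp (-(3 * Real.log n)) = 1 / (n : ℝ) ^ 3 := by
    rw [Real.exp_neg, one_div]
    congr 1
    have : (3 : ℝ) * Real.log n = ((3 : ℕ) : ℝ) * Real.log n := by norm_num
    rw [this, Real.exp_nat_mul, Real.exp_log hn0]
  have hmn : (m : ℝ) ≤ n := by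
    have h4 : (1 - p) ^ m ≤ Real.exp (-(p * m)) := pow_le_exp hp1.le m
    have h5 : 3 * Real.log n ≤ n * Real.exp (-(p * m)) := by
      calc 3 * Real.log n ≤ n * p * (1 - p) ^ m := h3
        _ ≤ n * 1 * Real.exp (-(p * m)) := by
            apply mul_le_mul _ h4 (pow_nonneg hq0 _) (by positivity)
            exact mul_le_mul_of_nonneg_left hp1.le hn0.le
        _ = n * Real.exp (-(p * m)) := by ring
    have h6 : Real.exp (p * m) ≤ n := by
      have h7 : 1 ≤ n * Real.exp (-(p * m)) := by linarith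
      rw [Real.exp_neg, ← div_eq_mul_inv, le_div_iff₀ (Real.exp_pos _), one_mul] at h7
      exact h7
    have h8 : p * m ≤ Real.log n := (Real.le_log_iff_exp_le hn0).2 h6
    have h9 : p * m ≤ p * n := by linarith
    exact le_of_mul_le_mul_left h9 hp0
  calc (m : ℝ) * (1 - p * (1 - p) ^ (m - 1)) ^ n ≤ n * (1 / (n : ℝ) ^ 3) := by
        rw [← hexp]
        exact mul_le_mul hmn hpow (pow_nonneg (by linarith) _) hn0.le
    _ ≤ 1 / n := by
        rw [mul_one_div, div_le_div_iff₀ (by positivity) hn0]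
        nlinarith [mul_pos hn0 hn0, pow_pos hn0 3]
    _ ≤ ε := hεn

end Pool.Agent.H15.RU
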